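import Pool.Agent.R69.KM.Unq

/-!
Project KM: final assembly from the pieces (as hypotheses).
-/

set_option autoImplicit false

open MeasureTheory
open scoped ENNReal

namespace Pool.Agent.R69.KM

open Pool.Agent.R69.Klein

theorem sq_lt (hD : S_DOM) (hF : S_FIN) (hL : S_LOW) (hU : S_UP) :
    mob (withFace (n := 2) SQ) < mob (withFace (n := 2) SX) := by
  refine lt_of_le_of_lt hU (lt_of_lt_of_le ?_ hL)
  obtain ⟨f1, f2, f3⟩ := hF
  obtain ⟨d1, d2⟩ := hD
  have hfin : 384 * (I (hc VC) + I (hc VS)) < ⊤ :=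
    ENNReal.mul_lt_top (by simp) (ENNReal.add_lt_top.2 ⟨f1, f2⟩)
  have hle : 384 * (I (hc VC) + I (hc VS)) ≤ 288 * (I (ho WC) + I (ho WS)) := by
    calc 384 * (I (hc VC) + I (hc VS))
        ≤ 384 * (ENNReal.ofReal (3 / 4) * I (ho WC) + ENNReal.ofReal (3 / 4) * I (ho WS)) := by
          gcongr
      _ = (384 * ENNReal.ofReal (3 / 4)) * (I (ho WC) + I (ho WS)) := by ring
      _ = 288 * (I (ho WC) + I (ho WS)) := by
          congr 1
          rw [show (384 : ℝ≥0∞) = ENNReal.ofReal 384 by simp, ← ENNReal.ofReal_mul (by norm_num)]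
          norm_num
  by_cases ht : 288 * (I (ho WC) + I (ho WS)) = ⊤
  · rw [ht, top_add]
    exact hfin
  · exact lt_of_le_of_lt hle (ENNReal.lt_add_right ht f3.ne')

theorem top_TA : Top TA := by
  refine ⟨!![0, 0, 1; 1, 0, 1; 0, 1, 1], ?_, Or.inl (by decide)⟩
  unfold TA tri
  congr 1
  ext y
  simp only [Set.mem_insert_iff, Set.mem_singleton_iff, Set.mem_range]
  constructor
  · rintro (rfl | rfl | rfl)
    · exact ⟨0, by ext j; fin_cases j <;> simp [toR]⟩
    · exact ⟨1, by ext j; fin_cases j <;> simp [toR]⟩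
    · exact ⟨2, by ext j; fin_cases j <;> simp [toR]⟩
  · rintro ⟨i, rfl⟩
    fin_cases i
    · left; ext j; fin_cases j <;> simp [toR]
    · right; left; ext j; fin_cases j <;> simp [toR]
    · right; right; ext j; fin_cases j <;> simp [toR]

theorem all (hI : S_INV) (hD : S_DOM) (hF : S_FIN) (hL : S_LOW) (hU : S_UP) (hFA : S_FINA)
    (hQ : S_UNQ) (hE : S_EQ) :
    Invariant (n := 2) mob ∧ 0 < mob (withFace TA) ∧ mob (withFace TA) < ⊤ ∧
    ∀ F : Set (Sp 2), IsLatticePolytope F → mob (withFace F) ≤ mob (withFace TA) ∧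
      (mob (withFace F) = mob (withFace TA) ↔ Top F) := by
  have hlt := sq_lt hD hF hL hU
  have hTA : mob (withFace TA) = mob (withFace (n := 2) SX) := hE TA top_TA
  refine ⟨hI, ?_, ?_, ?_⟩
  · rw [hTA]; exact lt_of_le_of_lt bot_le hlt
  · rw [hTA]; exact hFA
  · intro F hFl
    rw [hTA]
    by_cases hT : Top F
    · exact ⟨(hE F hT).le, fun _ => hT, fun _ => hE F hT⟩
    · have h := hQ hlt F hFl hT
      exact ⟨h.le, fun he => absurd he h.ne, fun h' => absurd h' hT⟩

end Pool.Agent.R69.KM
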