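import Pool.Agent.R69.KM.Stm2

/-! Project KM, part 2, piece ARI: superlattices of index at most two. -/

set_option autoImplicit false

namespace Pool.Agent.R69.KM.Ari

open Pool.Agent.R69.KM

lemma frac_int (a0 a1 a2 D w0 w1 w2 e : ℤ) (hD : (D : ℝ) ≠ 0)
    (h : a0 * w0 + a1 * w1 + a2 * w2 = e * D) :
    ∃ m : ℤ, Int.fract ((a0 : ℝ) / D) * w0 + Int.fract ((a1 : ℝ) / D) * w1 +
      Int.fract ((a2 : ℝ) / D) * w2 = m := by
  refine ⟨e - (⌊(a0 : ℝ) / D⌋ * w0 + ⌊(a1 : ℝ) / D⌋ * w1 + ⌊(a2 : ℝ) / D⌋ * w2), ?_⟩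
  have hR : (a0 : ℝ) * w0 + (a1 : ℝ) * w1 + (a2 : ℝ) * w2 = e * D := by exact_mod_cast h
  have h2 : ((a0 : ℝ) / D) * w0 + ((a1 : ℝ) / D) * w1 + ((a2 : ℝ) / D) * w2 = e := by
    have h3 : ((a0 : ℝ) / D) * w0 + ((a1 : ℝ) / D) * w1 + ((a2 : ℝ) / D) * w2 =
        ((a0 : ℝ) * w0 + (a1 : ℝ) * w1 + (a2 : ℝ) * w2) / D := by ring
    rw [h3, hR, mul_div_assoc, div_self hD, mul_one]
  have f0 := Int.fract_add_floor ((a0 : ℝ) / D)
  have f1 := Int.fract_add_floor ((a1 : ℝ) / D)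
  have f2 := Int.fract_add_floor ((a2 : ℝ) / D)
  push_cast
  rw [← h2]
  linear_combination (w0 : ℝ) * f0 + (w1 : ℝ) * f1 + (w2 : ℝ) * f2

theorem main : S_ARI := by
  intro w hdet hx
  have hdetR : (w.det : ℝ) ≠ 0 := by exact_mod_cast hdet
  have hadj : ∀ j l, w.adjugate j 0 * w 0 l + w.adjugate j 1 * w 1 l + w.adjugate j 2 * w 2 l
      = if j = l then w.det else 0 := by
    intro j l
    have h := congrFun (congrFun (Matrix.adjugate_mul w) j) l
    rw [Matrix.mul_apply, Fin.sum_univ_three] at h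
    rw [h, Matrix.smul_apply, Matrix.one_apply]
    split_ifs <;> simp
  have key : ∀ j, ∃ c : Fin 3 → ℤ, ∃ r : ℤ, (r = 0 ∨ r = 1) ∧
      ∀ i, 2 * w.adjugate j i = (2 * c i + r) * w.det := by
    intro j
    have hint : ∀ l, ∃ m : ℤ, Int.fract ((w.adjugate j 0 : ℝ) / w.det) * w 0 l +
        Int.fract ((w.adjugate j 1 : ℝ) / w.det) * w 1 l +
        Int.fract ((w.adjugate j 2 : ℝ) / w.det) * w 2 l = m := by
      intro l
      refine frac_int _ _ _ _ _ _ _ (if j = l then 1 else 0) hdetR ?_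
      rw [hadj j l]
      split_ifs <;> ring
    have h01 : ∀ i, 0 ≤ (fun i => Int.fract ((w.adjugate j i : ℝ) / w.det)) i ∧
        (fun i => Int.fract ((w.adjugate j i : ℝ) / w.det)) i < 1 :=
      fun i => ⟨Int.fract_nonneg _, Int.fract_lt_one _⟩
    by_cases hx0 : (fun i => Int.fract ((w.adjugate j i : ℝ) / w.det)) = 0
    · refine ⟨fun i => ⌊(w.adjugate j i : ℝ) / w.det⌋, 0, Or.inl rfl, fun i => ?_⟩
      have h1 : Int.fract ((w.adjugate j i : ℝ) / w.det) = 0 := congrFun hx0 i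
      have h2 := Int.fract_add_floor ((w.adjugate j i : ℝ) / w.det)
      rw [h1, zero_add, eq_div_iff hdetR] at h2
      have h3 : ⌊(w.adjugate j i : ℝ) / w.det⌋ * w.det = w.adjugate j i := by exact_mod_cast h2
      simp only []
      linear_combination (-2) * h3
    · have h := hx _ h01 hx0 hint
      refine ⟨fun i => ⌊(w.adjugate j i : ℝ) / w.det⌋, 1, Or.inr rfl, fun i => ?_⟩
      have h1 : Int.fract ((w.adjugate j i : ℝ) / w.det) = 1 / 2 := h i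
      have h2 := Int.fract_add_floor ((w.adjugate j i : ℝ) / w.det)
      rw [h1, eq_div_iff hdetR] at h2
      have h4 : (2 * (⌊(w.adjugate j i : ℝ) / w.det⌋ : ℝ) + 1) * w.det = 2 * w.adjugate j i := by
        linear_combination 2 * h2
      have h3 : (2 * ⌊(w.adjugate j i : ℝ) / w.det⌋ + 1) * w.det = 2 * w.adjugate j i := by
        exact_mod_cast h4
      simp only []
      exact h3.symm
  choose c r hr hD using key
  -- D w = 2
  have hDw : ∀ j l, (2 * c j 0 + r j) * w 0 l + (2 * c j 1 + r j) * w 1 l +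
      (2 * c j 2 + r j) * w 2 l = if j = l then 2 else 0 := by
    intro j l
    have h := hadj j l
    apply mul_left_cancel₀ hdet
    have e : w.det * ((2 * c j 0 + r j) * w 0 l + (2 * c j 1 + r j) * w 1 l +
        (2 * c j 2 + r j) * w 2 l) = 2 * (w.adjugate j 0 * w 0 l + w.adjugate j 1 * w 1 l +
          w.adjugate j 2 * w 2 l) := by
      linear_combination (-(w 0 l)) * hD j 0 - (w 1 l) * hD j 1 - (w 2 l) * hD j 2
    rw [e, h]
    split_ifs <;> ring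
  have hmat : (Matrix.of fun j i => 2 * c j i + r j : Matrix (Fin 3) (Fin 3) ℤ) * w =
      (2 : ℤ) • (1 : Matrix (Fin 3) (Fin 3) ℤ) := by
    ext j l
    rw [Matrix.mul_apply, Fin.sum_univ_three, Matrix.smul_apply, Matrix.one_apply]
    simp only [Matrix.of_apply]
    rw [hDw j l]
    split_ifs <;> simp
  have hdd := congrArg Matrix.det hmat
  rw [Matrix.det_mul, Matrix.det_smul, Matrix.det_one, Fintype.card_fin] at hdd
  rw [Matrix.det_fin_three] at hdd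
  simp only [Matrix.of_apply] at hdd
  -- det D = 8 det C + 4 E
  have hE : (8 * (c 0 0 * c 1 1 * c 2 2 - c 0 0 * c 1 2 * c 2 1 - c 0 1 * c 1 0 * c 2 2 +
      c 0 1 * c 1 2 * c 2 0 + c 0 2 * c 1 0 * c 2 1 - c 0 2 * c 1 1 * c 2 0) +
      4 * ((r 0 * c 1 1 * c 2 2 - r 0 * c 1 2 * c 2 1 - c 0 1 * r 1 * c 2 2 +
      c 0 1 * c 1 2 * r 2 + c 0 2 * r 1 * c 2 1 - c 0 2 * c 1 1 * r 2) +
      (c 0 0 * r 1 * c 2 2 - c 0 0 * c 1 2 * r 2 - r 0 * c 1 0 * c 2 2 +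
      r 0 * c 1 2 * c 2 0 + c 0 2 * c 1 0 * r 2 - c 0 2 * r 1 * c 2 0) +
      (c 0 0 * c 1 1 * r 2 - c 0 0 * r 1 * c 2 1 - c 0 1 * c 1 0 * r 2 +
      c 0 1 * r 1 * c 2 0 + r 0 * c 1 0 * c 2 1 - r 0 * c 1 1 * c 2 0))) * w.det = 8 := by
    linear_combination hdd
  have hdvd : w.det ∣ 2 := by
    refine ⟨2 * (c 0 0 * c 1 1 * c 2 2 - c 0 0 * c 1 2 * c 2 1 - c 0 1 * c 1 0 * c 2 2 +
      c 0 1 * c 1 2 * c 2 0 + c 0 2 * c 1 0 * c 2 1 - c 0 2 * c 1 1 * c 2 0) +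
      ((r 0 * c 1 1 * c 2 2 - r 0 * c 1 2 * c 2 1 - c 0 1 * r 1 * c 2 2 +
      c 0 1 * c 1 2 * r 2 + c 0 2 * r 1 * c 2 1 - c 0 2 * c 1 1 * r 2) +
      (c 0 0 * r 1 * c 2 2 - c 0 0 * c 1 2 * r 2 - r 0 * c 1 0 * c 2 2 +
      r 0 * c 1 2 * c 2 0 + c 0 2 * c 1 0 * r 2 - c 0 2 * r 1 * c 2 0) +
      (c 0 0 * c 1 1 * r 2 - c 0 0 * r 1 * c 2 1 - c 0 1 * c 1 0 * r 2 +
      c 0 1 * r 1 * c 2 0 + r 0 * c 1 0 * c 2 1 - r 0 * c 1 1 * c 2 0)), ?_⟩
    have h4 : (4 : ℤ) ≠ 0 := by norm_num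
    apply mul_left_cancel₀ h4
    linear_combination (-1 : ℤ) * hE
  have hnd : w.det.natAbs ∣ 2 := by
    have := Int.natAbs_dvd_natAbs.2 hdvd
    simpa using this
  have hcase : w.det.natAbs = 1 ∨ w.det.natAbs = 2 := (Nat.dvd_prime Nat.prime_two).1 hnd
  rcases hcase with h1 | h2
  · exact Or.inl h1
  · right
    refine ⟨h2, ?_⟩
    by_cases hall : ∀ j, r j = 0
    · exfalso
      simp only [hall] at hE
      have h8 : (c 0 0 * c 1 1 * c 2 2 - c 0 0 * c 1 2 * c 2 1 - c 0 1 * c 1 0 * c 2 2 +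
        c 0 1 * c 1 2 * c 2 0 + c 0 2 * c 1 0 * c 2 1 - c 0 2 * c 1 1 * c 2 0) * w.det = 1 := by
        have h4 : (8 : ℤ) ≠ 0 := by norm_num
        apply mul_left_cancel₀ h4
        linear_combination hE
      have h9 : w.det ∣ 1 := ⟨_, by rw [mul_comm] at h8; exact h8.symm⟩
      have h10 := Int.natAbs_dvd_natAbs.2 h9
      rw [h2] at h10
      norm_num at h10
    · push Not at hall
      obtain ⟨j, hj⟩ := hall
      have hj1 : r j = 1 := (hr j).resolve_left hj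
      intro l
      have h := hDw j l
      rw [hj1] at h
      have h5 : ∃ t : ℤ, (if j = l then (2 : ℤ) else 0) = 2 * t := by
        split_ifs
        · exact ⟨1, by norm_num⟩
        · exact ⟨0, by norm_num⟩
      obtain ⟨t, ht⟩ := h5
      rw [ht] at h
      refine ⟨t - (c j 0 * w 0 l + c j 1 * w 1 l + c j 2 * w 2 l), ?_⟩
      linear_combination h

end Pool.Agent.R69.KM.Ari
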