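import Pool.Agent.R69.KM.Stm
import Pool.Agent.R69.KM.Base

/-!
Project KM: assembly.
-/

set_option autoImplicit false

open MeasureTheory
open scoped ENNReal

namespace Pool.Agent.R69.KM

open Pool.Agent.R69.Klein

/-- the unit triangle -/
def TA : Set (Sp 2) := convexHull ℝ {![0, 0, 1], ![1, 0, 1], ![0, 1, 1]}
/-- the unit square -/
def TB : Set (Sp 2) := convexHull ℝ {![0, 0, 1], ![1, 0, 1], ![1, 1, 1], ![0, 1, 1]}

theorem toR_e0 : toR (![1, 0, 0] : Fin 3 → ℤ) = (![1, 0, 0] : Sp 2) := by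
  ext i; fin_cases i <;> simp [toR]
theorem toR_e1 : toR (![0, 1, 0] : Fin 3 → ℤ) = (![0, 1, 0] : Sp 2) := by
  ext i; fin_cases i <;> simp [toR]
theorem toR_e2 : toR (![0, 0, 1] : Fin 3 → ℤ) = (![0, 0, 1] : Sp 2) := by
  ext i; fin_cases i <;> simp [toR]
theorem toR_q : toR (![-1, 1, 1] : Fin 3 → ℤ) = (![-1, 1, 1] : Sp 2) := by
  ext i; fin_cases i <;> simp [toR]

theorem stdZ (z : Fin 3 → ℤ) :
    z ∈ (Finset.univ.image (fun i : Fin (2 + 1) => (Pi.single i 1 : Fin (2 + 1) → ℤ))) ↔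
      z = ![1, 0, 0] ∨ z = ![0, 1, 0] ∨ z = ![0, 0, 1] := by
  rw [Finset.mem_image]
  have h0 : (Pi.single 0 1 : Fin (2 + 1) → ℤ) = ![1, 0, 0] := by decide
  have h1 : (Pi.single 1 1 : Fin (2 + 1) → ℤ) = ![0, 1, 0] := by decide
  have h2 : (Pi.single 2 1 : Fin (2 + 1) → ℤ) = ![0, 0, 1] := by decide
  constructor
  · rintro ⟨i, _, rfl⟩
    fin_cases i
    · left; exact h0
    · right; left; exact h1
    · right; right; exact h2
  · rintro (rfl | rfl | rfl)
    · exact ⟨0, Finset.mem_univ _, h0⟩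
    · exact ⟨1, Finset.mem_univ _, h1⟩
    · exact ⟨2, Finset.mem_univ _, h2⟩

theorem imZ (Z : Finset (Fin 3 → ℤ)) (hZ : ∀ z, z ∈ Z ↔ z = ![1, 0, 0] ∨ z = ![0, 1, 0] ∨
    z = ![0, 0, 1]) : (toR '' (Z : Set (Fin 3 → ℤ)) : Set (Sp 2)) =
      {![1, 0, 0], ![0, 1, 0], ![0, 0, 1]} := by
  ext x
  simp only [Set.mem_image, Finset.mem_coe, hZ, Set.mem_insert_iff, Set.mem_singleton_iff]
  constructor
  · rintro ⟨z, rfl | rfl | rfl, rfl⟩
    · left; exact toR_e0
    · right; left; exact toR_e1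
    · right; right; exact toR_e2
  · rintro (rfl | rfl | rfl)
    · exact ⟨_, Or.inl rfl, toR_e0⟩
    · exact ⟨_, Or.inr (Or.inl rfl), toR_e1⟩
    · exact ⟨_, Or.inr (Or.inr rfl), toR_e2⟩

theorem SX_le_TA (hI : S_INV) : mob (withFace SX) ≤ mob (withFace TA) := by
  have h := Base.measure_transfer (μ := mob) hI (unimod_std 2) Base.A0 Base.isInt_A0 Base.isInt_A0s
    (P := {![0, 0, 1], ![1, 0, 1], ![0, 1, 1]}) ?_
  · rw [imZ _ stdZ] at h
    exact h
  · intro x
    simp only [Set.mem_insert_iff, Set.mem_singleton_iff, stdZ]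
    constructor
    · rintro (rfl | rfl | rfl)
      · exact ⟨by simpa using Base.isInt_vec 0 0 1, _, Or.inl rfl, Base.a0_0⟩
      · exact ⟨by simpa using Base.isInt_vec 1 0 1, _, Or.inr (Or.inl rfl), Base.a0_1⟩
      · exact ⟨by simpa using Base.isInt_vec 0 1 1, _, Or.inr (Or.inr rfl), Base.a0_2⟩
    · rintro ⟨_, z, rfl | rfl | rfl, hx⟩
      · left; exact Base.A0.injective (hx.trans Base.a0_0.symm)
      · right; left; exact Base.A0.injective (hx.trans Base.a0_1.symm)
      · right; right; exact Base.A0.injective (hx.trans Base.a0_2.symm)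

theorem symm_eq {y : Sp 2} {z : Fin 3 → ℤ} (h : Base.A0 y = toR z) : Base.A0.symm (toR z) = y := by
  rw [← h, LinearEquiv.symm_apply_apply]

theorem TB_le_SQ (hI : S_INV) : mob (withFace TB) ≤ mob (withFace SQ) := by
  have h := measure_le (μ := mob) hI Base.A0.symm Base.isInt_A0s (F := TB)
    (p := fun i => toR (Pi.single i 1 : Fin (2 + 1) → ℤ)) li_std (fun i => ⟨isInt_toR _, ?_⟩)
  · have hS : {x : Sp 2 | IsInt x ∧ Base.A0.symm x ∈ TB} =
        ({![1, 0, 0], ![0, 1, 0], ![0, 0, 1], ![-1, 1, 1]} : Set (Sp 2)) := by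
      ext x
      simp only [Set.mem_ofPred_eq, Set.mem_insert_iff, Set.mem_singleton_iff]
      constructor
      · rintro ⟨hx, hy⟩
        have hcv : Convex ℝ {y : Sp 2 | 0 ≤ y 0 ∧ y 0 ≤ 1 ∧ 0 ≤ y 1 ∧ y 1 ≤ 1 ∧ y 2 = 1} := by
          rintro p ⟨p1, p2, p3, p4, p5⟩ q ⟨q1, q2, q3, q4, q5⟩ s t hs ht hst
          simp only [Set.mem_ofPred_eq, Pi.add_apply, Pi.smul_apply, smul_eq_mul, p5, q5]
          refine ⟨by positivity, ?_, by positivity, ?_, by linarith⟩
          · nlinarith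
          · nlinarith
        have h1 : Base.A0.symm x ∈
            {y : Sp 2 | 0 ≤ y 0 ∧ y 0 ≤ 1 ∧ 0 ≤ y 1 ∧ y 1 ≤ 1 ∧ y 2 = 1} := by
          refine convexHull_min ?_ hcv hy
          rintro y (rfl | rfl | rfl | rfl) <;> simp
        obtain ⟨w, hw⟩ := exists_toR (Base.isInt_A0s x hx)
        rw [hw] at h1
        obtain ⟨b1, b2, b3, b4, b5⟩ := h1
        simp only [toR] at b1 b2 b3 b4 b5
        have c1 : 0 ≤ w 0 := by exact_mod_cast b1
        have c2 : w 0 ≤ 1 := by exact_mod_cast b2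
        have c3 : 0 ≤ w 1 := by exact_mod_cast b3
        have c4 : w 1 ≤ 1 := by exact_mod_cast b4
        have c5 : w 2 = 1 := by exact_mod_cast b5
        have hx2 : x = Base.A0 (toR w) := by rw [← hw, LinearEquiv.apply_symm_apply]
        have hA : Base.A0 (toR w) = ![(w 2 : ℝ) - w 0 - w 1, w 0, w 1] := rfl
        rw [hA] at hx2
        have d0 : w 0 = 0 ∨ w 0 = 1 := by omega
        have d1 : w 1 = 0 ∨ w 1 = 1 := by omega
        rcases d0 with d0 | d0 <;> rcases d1 with d1 | d1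
        · left; rw [hx2, c5, d0, d1]; norm_num
        · right; right; left; rw [hx2, c5, d0, d1]; norm_num
        · right; left; rw [hx2, c5, d0, d1]; norm_num
        · right; right; right; rw [hx2, c5, d0, d1]; norm_num
      · rintro (rfl | rfl | rfl | rfl)
        · refine ⟨by simpa using Base.isInt_vec 1 0 0, ?_⟩
          rw [← toR_e0, symm_eq Base.a0_0]
          exact subset_convexHull ℝ _ (by simp)
        · refine ⟨by simpa using Base.isInt_vec 0 1 0, ?_⟩
          rw [← toR_e1, symm_eq Base.a0_1]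
          exact subset_convexHull ℝ _ (by simp)
        · refine ⟨by simpa using Base.isInt_vec 0 0 1, ?_⟩
          rw [← toR_e2, symm_eq Base.a0_2]
          exact subset_convexHull ℝ _ (by simp)
        · refine ⟨by simpa using Base.isInt_vec (-1) 1 1, ?_⟩
          rw [← toR_q, symm_eq Base.a0_3]
          exact subset_convexHull ℝ _ (by simp)
    rw [hS] at h
    exact h
  · have h0 : (Pi.single 0 1 : Fin (2 + 1) → ℤ) = ![1, 0, 0] := by decide
    have h1 : (Pi.single 1 1 : Fin (2 + 1) → ℤ) = ![0, 1, 0] := by decide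
    have h2 : (Pi.single 2 1 : Fin (2 + 1) → ℤ) = ![0, 0, 1] := by decide
    fin_cases i
    · change Base.A0.symm (toR (Pi.single 0 1)) ∈ TB
      rw [h0, symm_eq Base.a0_0]
      exact subset_convexHull ℝ _ (by simp)
    · change Base.A0.symm (toR (Pi.single 1 1)) ∈ TB
      rw [h1, symm_eq Base.a0_1]
      exact subset_convexHull ℝ _ (by simp)
    · change Base.A0.symm (toR (Pi.single 2 1)) ∈ TB
      rw [h2, symm_eq Base.a0_2]
      exact subset_convexHull ℝ _ (by simp)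

theorem main (hI : S_INV) (hD : S_DOM) (hF : S_FIN) (hL : S_LOW) (hU : S_UP) :
    Invariant (n := 2) mob ∧
    (∀ F : Set (Sp 2), IsLatticePolytope F → mob (withFace F) ≤ mob (withFace TA)) ∧
    mob (withFace TB) < mob (withFace TA) := by
  have h1 : mob (withFace TB) < mob (withFace TA) := by
    refine lt_of_le_of_lt ((TB_le_SQ hI).trans hU) (lt_of_lt_of_le ?_ (hL.trans (SX_le_TA hI)))
    obtain ⟨f1, f2, f3⟩ := hF
    obtain ⟨d1, d2⟩ := hD
    have hfin : 384 * (I (hc VC) + I (hc VS)) < ⊤ :=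
      ENNReal.mul_lt_top (by simp) (ENNReal.add_lt_top.2 ⟨f1, f2⟩)
    have hle : 384 * (I (hc VC) + I (hc VS)) ≤ 288 * (I (ho WC) + I (ho WS)) := by
      calc 384 * (I (hc VC) + I (hc VS))
          ≤ 384 * (ENNReal.ofReal (3 / 4) * I (ho WC) + ENNReal.ofReal (3 / 4) * I (ho WS)) := by
            gcongr
        _ = (384 * ENNReal.ofReal (3 / 4)) * (I (ho WC) + I (ho WS)) := by ring
        _ = 288 * (I (ho WC) + I (ho WS)) := by
            congr 1
            rw [show (384 : ℝ≥0∞) = ENNReal.ofReal 384 by simp, ← ENNReal.ofReal_mul (by norm_num)]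
            norm_num
    by_cases ht : 288 * (I (ho WC) + I (ho WS)) = ⊤
    · rw [ht, top_add]
      exact hfin
    · exact lt_of_le_of_lt hle (ENNReal.lt_add_right ht f3.ne')
  refine ⟨hI, fun F hF' => ?_, h1⟩
  refine (Base.result mob hI F hF').trans ?_
  exact max_le le_rfl h1.le

end Pool.Agent.R69.KM
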