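import Pool.Agent.R69.KM.Stm

/-!
# KM-CM: the cones are Borel sets and the functions are homogeneous
-/

set_option autoImplicit false

open MeasureTheory
open scoped ENNReal

namespace Pool.Agent.R69.KM.Cm

open Pool.Agent.R69.KM

theorem mem_cc {V : Fin 3 → Matrix (Fin 3) (Fin 3) ℝ} (hV : ∀ i, (V i).det ≠ 0) (N : Fr) :
    N ∈ cc V ↔ ∀ i a, 0 ≤ Matrix.vecMul (N i) (V i)⁻¹ a := by
  constructor
  · intro h i a
    obtain ⟨l, hl, hN⟩ := h i
    rw [hN, Matrix.vecMul_vecMul, Matrix.mul_nonsing_inv _ (isUnit_iff_ne_zero.2 (hV i)),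
      Matrix.vecMul_one]
    exact hl a
  · intro h i
    refine ⟨Matrix.vecMul (N i) (V i)⁻¹, h i, ?_⟩
    rw [Matrix.vecMul_vecMul, Matrix.nonsing_inv_mul _ (isUnit_iff_ne_zero.2 (hV i)),
      Matrix.vecMul_one]

theorem mem_co {V : Fin 3 → Matrix (Fin 3) (Fin 3) ℝ} (hV : ∀ i, (V i).det ≠ 0) (N : Fr) :
    N ∈ co V ↔ ∀ i a, 0 < Matrix.vecMul (N i) (V i)⁻¹ a := by
  constructor
  · intro h i a
    obtain ⟨l, hl, hN⟩ := h i
    rw [hN, Matrix.vecMul_vecMul, Matrix.mul_nonsing_inv _ (isUnit_iff_ne_zero.2 (hV i)),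
      Matrix.vecMul_one]
    exact hl a
  · intro h i
    refine ⟨Matrix.vecMul (N i) (V i)⁻¹, h i, ?_⟩
    rw [Matrix.vecMul_vecMul, Matrix.nonsing_inv_mul _ (isUnit_iff_ne_zero.2 (hV i)),
      Matrix.vecMul_one]

theorem cont_vm (M : Matrix (Fin 3) (Fin 3) ℝ) (i a : Fin 3) :
    Continuous (fun N : Fr => Matrix.vecMul (N i) M a) := by
  have h : (fun N : Fr => Matrix.vecMul (N i) M a) = fun N : Fr => ∑ b, N i b * M b a := by
    funext N
    rfl
  rw [h]
  fun_prop

theorem meas_cc {V : Fin 3 → Matrix (Fin 3) (Fin 3) ℝ} (hV : ∀ i, (V i).det ≠ 0) :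
    MeasurableSet (cc V) := by
  have h : cc V = ⋂ i, ⋂ a, {N : Fr | 0 ≤ Matrix.vecMul (N i) (V i)⁻¹ a} := by
    ext N
    rw [mem_cc hV]
    simp
  rw [h]
  exact MeasurableSet.iInter fun i => MeasurableSet.iInter fun a =>
    measurableSet_le measurable_const (cont_vm _ i a).measurable

theorem meas_co {V : Fin 3 → Matrix (Fin 3) (Fin 3) ℝ} (hV : ∀ i, (V i).det ≠ 0) :
    MeasurableSet (co V) := by
  have h : co V = ⋂ i, ⋂ a, {N : Fr | 0 < Matrix.vecMul (N i) (V i)⁻¹ a} := by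
    ext N
    rw [mem_co hV]
    simp
  rw [h]
  exact MeasurableSet.iInter fun i => MeasurableSet.iInter fun a =>
    measurableSet_lt measurable_const (cont_vm _ i a).measurable

theorem cont_dt : Continuous dt := by
  unfold dt
  fun_prop

theorem meas_rho : Measurable rho :=
  ((cont_dt.abs.pow 3).measurable.inv).ennreal_ofReal

theorem dt_update (N : Fr) (i : Fin 3) (t : ℝ) :
    dt (Function.update N i (t • N i)) = t * dt N := by
  fin_cases i
  · simp [dt, Function.update_apply]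
    ring
  · simp [dt, Function.update_apply]
    ring
  · simp [dt, Function.update_apply]
    ring

theorem hom_rho : Hom rho := by
  intro N i t ht
  unfold rho
  rw [dt_update, abs_mul, abs_of_pos ht, mul_pow, mul_inv,
    ENNReal.ofReal_mul (by positivity)]

theorem upd_cc {V : Fin 3 → Matrix (Fin 3) (Fin 3) ℝ} (hV : ∀ i, (V i).det ≠ 0) (N : Fr)
    (i : Fin 3) (t : ℝ) (ht : 0 < t) : Function.update N i (t • N i) ∈ cc V ↔ N ∈ cc V := by
  rw [mem_cc hV, mem_cc hV]
  refine forall_congr' fun k => forall_congr' fun a => ?_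
  by_cases hk : k = i
  · subst hk
    rw [Function.update_self, Matrix.smul_vecMul, Pi.smul_apply, smul_eq_mul]
    exact mul_nonneg_iff_of_pos_left ht
  · rw [Function.update_of_ne hk]

theorem upd_co {V : Fin 3 → Matrix (Fin 3) (Fin 3) ℝ} (hV : ∀ i, (V i).det ≠ 0) (N : Fr)
    (i : Fin 3) (t : ℝ) (ht : 0 < t) : Function.update N i (t • N i) ∈ co V ↔ N ∈ co V := by
  rw [mem_co hV, mem_co hV]
  refine forall_congr' fun k => forall_congr' fun a => ?_
  by_cases hk : k = i
  · subst hk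
    rw [Function.update_self, Matrix.smul_vecMul, Pi.smul_apply, smul_eq_mul]
    exact mul_pos_iff_of_pos_left ht
  · rw [Function.update_of_ne hk]

theorem hom_ind (S : Set Fr) (hS : ∀ (N : Fr) (i : Fin 3) (t : ℝ), 0 < t →
    (Function.update N i (t • N i) ∈ S ↔ N ∈ S)) : Hom (S.indicator rho) := by
  intro N i t ht
  by_cases h : N ∈ S
  · rw [Set.indicator_of_mem h, Set.indicator_of_mem ((hS N i t ht).2 h)]
    exact hom_rho N i t ht
  · rw [Set.indicator_of_notMem h, Set.indicator_of_notMem fun h' => h ((hS N i t ht).1 h'),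
      mul_zero]

theorem main : S_CM := by
  intro V hV
  exact ⟨meas_cc hV, meas_co hV, meas_rho, meas_rho.indicator (meas_cc hV),
    meas_rho.indicator (meas_co hV), hom_rho, hom_ind _ (upd_cc hV), hom_ind _ (upd_co hV)⟩

end Pool.Agent.R69.KM.Cm
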