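import Pool.Agent.R69.KM.Stm

/-!
Project KM: comparison of two products of cones.
-/

set_option autoImplicit false

open MeasureTheory
open scoped ENNReal

namespace Pool.Agent.R69.KM.Cmp

open Pool.Agent.R69.KM

/-- linear substitutions of the rows -/
def sub (V : Fin 3 → Matrix (Fin 3) (Fin 3) ℝ) (N : Fr) : Fr :=
  fun i => Matrix.vecMul (N i) (V i)

theorem dt_sub (V : Fin 3 → Matrix (Fin 3) (Fin 3) ℝ) (N : Fr) :
    dt (sub V N) = ∑ a, ∑ b, ∑ c, N 0 a * N 1 b * N 2 c * dt3 V a b c := by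
  simp only [dt, sub, dt3, Matrix.vecMul, dotProduct, Fin.sum_univ_three, Matrix.cons_val_zero,
    Matrix.cons_val_one, Matrix.cons_val]
  ring

theorem ae_ne : ∀ᵐ N : Fr, ∀ i a, N i a ≠ 0 := by
  rw [ae_all_iff]
  intro i
  rw [ae_all_iff]
  intro a
  have h1 : ∀ᵐ x : ℝ, x ≠ 0 := by
    have : (volume : Measure ℝ) {0} = 0 := Real.volume_singleton
    rw [ae_iff]
    simp
  have h2 : ∀ᵐ u : Fin 3 → ℝ, u a ≠ 0 :=
    (Measure.tendsto_eval_ae_ae (μ := fun _ : Fin 3 => (volume : Measure ℝ)) (i := a)).eventually h1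
  exact (Measure.tendsto_eval_ae_ae
    (μ := fun _ : Fin 3 => (volume : Measure (Fin 3 → ℝ))) (i := i)).eventually h2

theorem pointwise (V W : Fin 3 → Matrix (Fin 3) (Fin 3) ℝ) (hV : ∀ i, (V i).det ≠ 0)
    (h : ∀ a b c, 0 < dt3 W a b c ∧ dt3 W a b c ≤ -dt3 V a b c) (N : Fr)
    (hN : ∀ i a, N i a ≠ 0) : hc V (sub V N) ≤ ho W (sub W N) := by
  by_cases hm : sub V N ∈ cc V
  · have hpos : ∀ i a, 0 < N i a := by
      intro i a
      obtain ⟨l, hl, he⟩ := hm i
      have : N i = l := by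
        have hinj := Matrix.vecMul_injective_of_isUnit
          ((Matrix.isUnit_iff_isUnit_det (V i)).2 (isUnit_iff_ne_zero.2 (hV i)))
        exact hinj he
      rw [this]
      exact lt_of_le_of_ne (hl a) (by rw [← this]; exact (hN i a).symm)
    have hW : sub W N ∈ co W := fun i => ⟨N i, hpos i, rfl⟩
    have h1 : 0 < dt (sub W N) := by
      rw [dt_sub]
      refine Finset.sum_pos (fun a _ => Finset.sum_pos (fun b _ => Finset.sum_pos
        (fun c _ => ?_) Finset.univ_nonempty) Finset.univ_nonempty) Finset.univ_nonempty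
      exact mul_pos (mul_pos (mul_pos (hpos 0 a) (hpos 1 b)) (hpos 2 c)) (h a b c).1
    have h2 : dt (sub W N) ≤ -dt (sub V N) := by
      rw [dt_sub, dt_sub, ← Finset.sum_neg_distrib]
      refine Finset.sum_le_sum fun a _ => ?_
      rw [← Finset.sum_neg_distrib]
      refine Finset.sum_le_sum fun b _ => ?_
      rw [← Finset.sum_neg_distrib]
      refine Finset.sum_le_sum fun c _ => ?_
      rw [← mul_neg]
      exact mul_le_mul_of_nonneg_left (h a b c).2
        (mul_pos (mul_pos (hpos 0 a) (hpos 1 b)) (hpos 2 c)).le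
    rw [hc, ho, Set.indicator_of_mem hm, Set.indicator_of_mem hW, rho, rho]
    apply ENNReal.ofReal_le_ofReal
    have h3 : |dt (sub W N)| ≤ |dt (sub V N)| := by
      rw [abs_of_pos h1]
      exact h2.trans (neg_le_abs _)
    have h4 : 0 < |dt (sub W N)| := abs_pos.2 h1.ne'
    gcongr
  · rw [hc, Set.indicator_of_notMem hm]
    exact bot_le

theorem main (hR : S_ROW) (hM : S_CM) : S_CMP := by
  intro V W hV hW h
  obtain ⟨-, -, -, mV, -, -, homV, -⟩ := hM V hV
  obtain ⟨-, -, -, -, mW, -, -, homW⟩ := hM W hW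
  have e1 := hR (hc V) mV homV V hV
  have e2 := hR (ho W) mW homW W hW
  have hle : I (fun N => hc V (fun i => Matrix.vecMul (N i) (V i))) ≤
      I (fun N => ho W (fun i => Matrix.vecMul (N i) (W i))) := by
    unfold I
    refine lintegral_mono_ae (ae_restrict_of_ae ?_)
    filter_upwards [ae_ne] with N hN
    exact pointwise V W hV h N hN
  rw [e1, e2] at hle
  set A : ℝ := |(V 0).det| * |(V 1).det| * |(V 2).det| with hA
  set B : ℝ := |(W 0).det| * |(W 1).det| * |(W 2).det| with hB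
  have hA0 : 0 < A := by
    have := abs_pos.2 (hV 0); have := abs_pos.2 (hV 1); have := abs_pos.2 (hV 2); positivity
  have hB0 : 0 < B := by
    have := abs_pos.2 (hW 0); have := abs_pos.2 (hW 1); have := abs_pos.2 (hW 2); positivity
  have e3 : ENNReal.ofReal A * (ENNReal.ofReal A⁻¹ * I (hc V)) = I (hc V) := by
    rw [← mul_assoc, ← ENNReal.ofReal_mul hA0.le, mul_inv_cancel₀ hA0.ne', ENNReal.ofReal_one,
      one_mul]
  rw [← e3]
  refine (mul_le_mul_right hle (ENNReal.ofReal A)).trans (le_of_eq ?_)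
  rw [← mul_assoc, ← ENNReal.ofReal_mul hA0.le, div_eq_mul_inv]

end Pool.Agent.R69.KM.Cmp
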