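import Pool.Agent.R69.KM.Stm

/-! KM-COMB (helper261): combinatorial covering. -/

set_option autoImplicit false

namespace Pool.Agent.R69.KM.Comb

open Pool.Agent.R69.KM

/-- values at the vertices of the square, in cyclic order -/
def va (n : Fin 3 → ℝ) : Fin 4 → ℝ := ![n 0, n 1, n 1 + n 2 - n 0, n 2]

/-- the action of the symmetries on the vertices -/
def act : Fin 8 → Fin 4 → Fin 4 :=
  ![![0, 1, 2, 3], ![1, 2, 3, 0], ![2, 3, 0, 1], ![3, 0, 1, 2],
    ![0, 3, 2, 1], ![1, 0, 3, 2], ![2, 1, 0, 3], ![3, 2, 1, 0]]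

/-- the small vertex and the neighbour of an exclusion -/
def sv : Fin 8 → Fin 4 := ![0, 0, 1, 1, 2, 2, 3, 3]
def nv : Fin 8 → Fin 4 := ![1, 3, 2, 0, 3, 1, 0, 2]

/-- the exclusion `x` -/
def ex (x : Fin 8) (f : Fin 4 → ℝ) : Prop := 2 * f (sv x) < f (nv x)

/-- the action of the symmetries on the exclusions -/
def exi (k x : Fin 8) : Fin 8 := if k.val < 4 then x + (k + k) else (k + k) + 1 - x

theorem sv_act : ∀ k x : Fin 8, act k (sv x) = sv (exi k x) := by decide
theorem nv_act : ∀ k x : Fin 8, act k (nv x) = nv (exi k x) := by decide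

theorem ex_act (k x : Fin 8) (f : Fin 4 → ℝ) : ex x (fun j => f (act k j)) = ex (exi k x) f := by
  show (2 * f (act k (sv x)) < f (act k (nv x))) = (2 * f (sv (exi k x)) < f (nv (exi k x)))
  rw [sv_act, nv_act]

theorem act_comp : ∀ k0 k : Fin 8, ∃ k' : Fin 8, ∀ j, act k0 (act k j) = act k' j := by decide

def inArc (t x : Fin 8) : Bool := decide (x = t + 7) || decide (x = t) || decide (x = t + 1)

theorem cover : ∀ t0 t1 t2 : Fin 8,
    (∀ x, inArc t0 x = true ∨ inArc t1 x = true ∨ inArc t2 x = true) →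
    ∃ (s : Fin 8), (t0 = s ∧ t1 = s + 3 ∧ t2 = s + 6) ∨ (t0 = s ∧ t2 = s + 3 ∧ t1 = s + 6) ∨
      (t1 = s ∧ t0 = s + 3 ∧ t2 = s + 6) ∨ (t1 = s ∧ t2 = s + 3 ∧ t0 = s + 6) ∨
      (t2 = s ∧ t0 = s + 3 ∧ t1 = s + 6) ∨ (t2 = s ∧ t1 = s + 3 ∧ t0 = s + 6) := by
  decide

theorem arc0 : ∀ s y : Fin 8, inArc s (y + s) = true → y = 7 ∨ y = 0 ∨ y = 1 := by decide
theorem arc3 : ∀ s y : Fin 8, inArc (s + 3) (y + s) = true → y = 2 ∨ y = 3 ∨ y = 4 := by decide
theorem arc6 : ∀ s y : Fin 8, inArc (s + 6) (y + s) = true → y = 5 ∨ y = 6 ∨ y = 7 := by decide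

theorem sym : ∀ s : Fin 8, (∃ k, ∀ x, exi k x = x + s) ∨ (∃ k, exi k 0 = 6 + s ∧ exi k 1 = 5 + s ∧
    exi k 2 = 4 + s ∧ exi k 3 = 3 + s ∧ exi k 4 = 2 + s ∧ exi k 5 = 1 + s ∧ exi k 6 = 0 + s ∧
    exi k 7 = 7 + s) := by decide

theorem three : ∀ p q r i : Fin 3, p ≠ q → q ≠ r → p ≠ r → i = p ∨ i = q ∨ i = r := by decide

/-- nonnegative values with the linear relation -/
def Row (f : Fin 4 → ℝ) : Prop := (∀ j, 0 ≤ f j) ∧ f 0 + f 2 = f 1 + f 3

theorem row_act (k : Fin 8) (f : Fin 4 → ℝ) (h : Row f) : Row (fun j => f (act k j)) := by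
  refine ⟨fun j => h.1 _, ?_⟩
  have h2 := h.2
  fin_cases k
  · show f 0 + f 2 = f 1 + f 3
    linarith
  · show f 1 + f 3 = f 2 + f 0
    linarith
  · show f 2 + f 0 = f 3 + f 1
    linarith
  · show f 3 + f 1 = f 0 + f 2
    linarith
  · show f 0 + f 2 = f 3 + f 1
    linarith
  · show f 1 + f 3 = f 0 + f 2
    linarith
  · show f 2 + f 0 = f 1 + f 3
    linarith
  · show f 3 + f 1 = f 2 + f 0
    linarith

theorem row_arc (f : Fin 4 → ℝ) (h : Row f) : ∃ t : Fin 8, ∀ x, ex x f → inArc t x = true := by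
  obtain ⟨h0, h1⟩ := h
  have a0 := h0 0
  have a1 := h0 1
  have a2 := h0 2
  have a3 := h0 3
  have key : ∀ t : Fin 8, (∀ x, inArc t x = false → ¬ ex x f) →
      ∃ t : Fin 8, ∀ x, ex x f → inArc t x = true := by
    intro t ht
    refine ⟨t, fun x hx => ?_⟩
    by_contra hc
    exact ht x (by simpa using hc) hx
  have e0 : ex 0 f ↔ 2 * f 0 < f 1 := Iff.rfl
  have e1 : ex 1 f ↔ 2 * f 0 < f 3 := Iff.rfl
  have e2 : ex 2 f ↔ 2 * f 1 < f 2 := Iff.rfl
  have e3 : ex 3 f ↔ 2 * f 1 < f 0 := Iff.rfl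
  have e4 : ex 4 f ↔ 2 * f 2 < f 3 := Iff.rfl
  have e5 : ex 5 f ↔ 2 * f 2 < f 1 := Iff.rfl
  have e6 : ex 6 f ↔ 2 * f 3 < f 0 := Iff.rfl
  have e7 : ex 7 f ↔ 2 * f 3 < f 2 := Iff.rfl
  rcases le_total (f 0) (f 2) with h02 | h02
  · rcases le_total (f 1) (f 3) with h13 | h13
    · rcases le_total (f 0) (f 1) with h | h
      · refine key 1 fun x => ?_
        fin_cases x <;> intro hx hx2
        · exact absurd hx (by decide)
        · exact absurd hx (by decide)
        · exact absurd hx (by decide)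
        · have := e3.1 hx2; linarith
        · have := e4.1 hx2; linarith
        · have := e5.1 hx2; linarith
        · have := e6.1 hx2; linarith
        · have := e7.1 hx2; linarith
      · refine key 2 fun x => ?_
        fin_cases x <;> intro hx hx2
        · have := e0.1 hx2; linarith
        · exact absurd hx (by decide)
        · exact absurd hx (by decide)
        · exact absurd hx (by decide)
        · have := e4.1 hx2; linarith
        · have := e5.1 hx2; linarith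
        · have := e6.1 hx2; linarith
        · have := e7.1 hx2; linarith
    · rcases le_total (f 0) (f 3) with h | h
      · refine key 0 fun x => ?_
        fin_cases x <;> intro hx hx2
        · exact absurd hx (by decide)
        · exact absurd hx (by decide)
        · have := e2.1 hx2; linarith
        · have := e3.1 hx2; linarith
        · have := e4.1 hx2; linarith
        · have := e5.1 hx2; linarith
        · have := e6.1 hx2; linarith
        · exact absurd hx (by decide)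
      · refine key 7 fun x => ?_
        fin_cases x <;> intro hx hx2
        · exact absurd hx (by decide)
        · have := e1.1 hx2; linarith
        · have := e2.1 hx2; linarith
        · have := e3.1 hx2; linarith
        · have := e4.1 hx2; linarith
        · have := e5.1 hx2; linarith
        · exact absurd hx (by decide)
        · exact absurd hx (by decide)
  · rcases le_total (f 1) (f 3) with h13 | h13
    · rcases le_total (f 1) (f 2) with h | h
      · refine key 3 fun x => ?_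
        fin_cases x <;> intro hx hx2
        · have := e0.1 hx2; linarith
        · have := e1.1 hx2; linarith
        · exact absurd hx (by decide)
        · exact absurd hx (by decide)
        · exact absurd hx (by decide)
        · have := e5.1 hx2; linarith
        · have := e6.1 hx2; linarith
        · have := e7.1 hx2; linarith
      · refine key 4 fun x => ?_
        fin_cases x <;> intro hx hx2
        · have := e0.1 hx2; linarith
        · have := e1.1 hx2; linarith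
        · have := e2.1 hx2; linarith
        · exact absurd hx (by decide)
        · exact absurd hx (by decide)
        · exact absurd hx (by decide)
        · have := e6.1 hx2; linarith
        · have := e7.1 hx2; linarith
    · rcases le_total (f 2) (f 3) with h | h
      · refine key 5 fun x => ?_
        fin_cases x <;> intro hx hx2
        · have := e0.1 hx2; linarith
        · have := e1.1 hx2; linarith
        · have := e2.1 hx2; linarith
        · have := e3.1 hx2; linarith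
        · exact absurd hx (by decide)
        · exact absurd hx (by decide)
        · exact absurd hx (by decide)
        · have := e7.1 hx2; linarith
      · refine key 6 fun x => ?_
        fin_cases x <;> intro hx hx2
        · have := e0.1 hx2; linarith
        · have := e1.1 hx2; linarith
        · have := e2.1 hx2; linarith
        · have := e3.1 hx2; linarith
        · have := e4.1 hx2; linarith
        · exact absurd hx (by decide)
        · exact absurd hx (by decide)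
        · exact absurd hx (by decide)

/-- inequalities of the cones -/
def CV (i : Fin 3) (f : Fin 4 → ℝ) : Prop :=
  ![0 ≤ f 0 ∧ 2 * f 0 ≤ f 3 ∧ f 0 + f 3 ≤ f 1,
    0 ≤ f 2 ∧ 2 * f 2 ≤ f 3 ∧ 2 * f 3 ≤ f 0,
    0 ≤ f 1 ∧ 2 * f 1 ≤ f 0 ∧ f 0 ≤ f 2] i

def SV (i : Fin 3) (f : Fin 4 → ℝ) : Prop :=
  ![0 ≤ f 0 ∧ 2 * f 0 ≤ f 1 ∧ f 0 + f 1 ≤ f 3,
    0 ≤ f 3 ∧ 2 * f 3 ≤ f 2 ∧ f 2 + f 3 ≤ f 0,
    f 2 ≤ f 1 ∧ f 1 ≤ 2 * f 2 ∧ 2 * f 1 ≤ f 0] i

theorem base (f g h : Fin 4 → ℝ) (hf : Row f) (hg : Row g) (hh : Row h)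
    (h0 : ex 0 f) (h1 : ex 1 f) (h2 : ex 2 g) (h3 : ex 3 g) (h4 : ex 4 g) (h5 : ex 5 h)
    (h6 : ex 6 h) (h7 : ex 7 f ∨ ex 7 h) :
    ∃ (m : Fin 3 → Fin 3), Function.Injective m ∧ ∃ k : Fin 8,
      (∀ i, CV i (fun j => (![f, g, h] : Fin 3 → Fin 4 → ℝ) (m i) (act k j))) ∨
      (∀ i, SV i (fun j => (![f, g, h] : Fin 3 → Fin 4 → ℝ) (m i) (act k j))) := by
  obtain ⟨hf0, hf1⟩ := hf
  obtain ⟨hg0, hg1⟩ := hg
  obtain ⟨hh0, hh1⟩ := hh
  have f0 := hf0 0
  have f1 := hf0 1
  have f2 := hf0 2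
  have f3 := hf0 3
  have g0 := hg0 0
  have g1 := hg0 1
  have g2 := hg0 2
  have g3 := hg0 3
  have k0 := hh0 0
  have k1 := hh0 1
  have k2 := hh0 2
  have k3 := hh0 3
  have h0' : 2 * f 0 < f 1 := h0
  have h1' : 2 * f 0 < f 3 := h1
  have h2' : 2 * g 1 < g 2 := h2
  have h3' : 2 * g 1 < g 0 := h3
  have h4' : 2 * g 2 < g 3 := h4
  have h5' : 2 * h 2 < h 1 := h5
  have h6' : 2 * h 3 < h 0 := h6
  have caseI : 2 * h 3 < h 2 → ∃ (m : Fin 3 → Fin 3), Function.Injective m ∧ ∃ k : Fin 8,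
      (∀ i, CV i (fun j => (![f, g, h] : Fin 3 → Fin 4 → ℝ) (m i) (act k j))) ∨
      (∀ i, SV i (fun j => (![f, g, h] : Fin 3 → Fin 4 → ℝ) (m i) (act k j))) := by
    intro h7'
    rcases le_total (f 3) (f 1) with hc | hc
    · refine ⟨![2, 1, 0], by decide, 3, Or.inl fun i => ?_⟩
      fin_cases i
      · show 0 ≤ h 3 ∧ 2 * h 3 ≤ h 2 ∧ h 3 + h 2 ≤ h 0
        refine ⟨by linarith, by linarith, by linarith⟩
      · show 0 ≤ g 1 ∧ 2 * g 1 ≤ g 2 ∧ 2 * g 2 ≤ g 3
        refine ⟨by linarith, by linarith, by linarith⟩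
      · show 0 ≤ f 0 ∧ 2 * f 0 ≤ f 3 ∧ f 3 ≤ f 1
        refine ⟨by linarith, by linarith, by linarith⟩
    · refine ⟨![1, 2, 0], by decide, 5, Or.inl fun i => ?_⟩
      fin_cases i
      · show 0 ≤ g 1 ∧ 2 * g 1 ≤ g 2 ∧ g 1 + g 2 ≤ g 0
        refine ⟨by linarith, by linarith, by linarith⟩
      · show 0 ≤ h 3 ∧ 2 * h 3 ≤ h 2 ∧ 2 * h 2 ≤ h 1
        refine ⟨by linarith, by linarith, by linarith⟩
      · show 0 ≤ f 0 ∧ 2 * f 0 ≤ f 1 ∧ f 1 ≤ f 3
        refine ⟨by linarith, by linarith, by linarith⟩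
  rcases h7 with h7 | h7
  · have h7' : 2 * f 3 < f 2 := h7
    by_cases c1 : 2 * h 3 < h 2
    · exact caseI c1
    · by_cases c2 : 2 * h 2 < h 3
      · rcases le_total (g 0) (g 2) with hc | hc
        · refine ⟨![0, 2, 1], by decide, 0, Or.inl fun i => ?_⟩
          fin_cases i
          · show 0 ≤ f 0 ∧ 2 * f 0 ≤ f 3 ∧ f 0 + f 3 ≤ f 1
            refine ⟨by linarith, by linarith, by linarith⟩
          · show 0 ≤ h 2 ∧ 2 * h 2 ≤ h 3 ∧ 2 * h 3 ≤ h 0
            refine ⟨by linarith, by linarith, by linarith⟩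
          · show 0 ≤ g 1 ∧ 2 * g 1 ≤ g 0 ∧ g 0 ≤ g 2
            refine ⟨by linarith, by linarith, by linarith⟩
        · refine ⟨![2, 0, 1], by decide, 6, Or.inl fun i => ?_⟩
          fin_cases i
          · show 0 ≤ h 2 ∧ 2 * h 2 ≤ h 3 ∧ h 2 + h 3 ≤ h 1
            refine ⟨by linarith, by linarith, by linarith⟩
          · show 0 ≤ f 0 ∧ 2 * f 0 ≤ f 3 ∧ 2 * f 3 ≤ f 2
            refine ⟨by linarith, by linarith, by linarith⟩
          · show 0 ≤ g 1 ∧ 2 * g 1 ≤ g 2 ∧ g 2 ≤ g 0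
            refine ⟨by linarith, by linarith, by linarith⟩
      · rcases le_total (h 3) (h 2) with hc | hc
        · refine ⟨![1, 0, 2], by decide, 1, Or.inr fun i => ?_⟩
          fin_cases i
          · show 0 ≤ g 1 ∧ 2 * g 1 ≤ g 2 ∧ g 1 + g 2 ≤ g 0
            refine ⟨by linarith, by linarith, by linarith⟩
          · show 0 ≤ f 0 ∧ 2 * f 0 ≤ f 3 ∧ f 3 + f 0 ≤ f 1
            refine ⟨by linarith, by linarith, by linarith⟩
          · show h 3 ≤ h 2 ∧ h 2 ≤ 2 * h 3 ∧ 2 * h 2 ≤ h 1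
            refine ⟨by linarith, by linarith, by linarith⟩
        · refine ⟨![0, 1, 2], by decide, 4, Or.inr fun i => ?_⟩
          fin_cases i
          · show 0 ≤ f 0 ∧ 2 * f 0 ≤ f 3 ∧ f 0 + f 3 ≤ f 1
            refine ⟨by linarith, by linarith, by linarith⟩
          · show 0 ≤ g 1 ∧ 2 * g 1 ≤ g 2 ∧ g 2 + g 1 ≤ g 0
            refine ⟨by linarith, by linarith, by linarith⟩
          · show h 2 ≤ h 3 ∧ h 3 ≤ 2 * h 2 ∧ 2 * h 3 ≤ h 0
            refine ⟨by linarith, by linarith, by linarith⟩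
  · exact caseI h7

/-! ### the cones -/

theorem va_rot (n : Fin 3 → ℝ) : Matrix.vecMul n Rot = ![n 1, n 1 + n 2 - n 0, n 0] := by
  ext j
  fin_cases j <;> simp [Rot, Matrix.vecMul, dotProduct, Fin.sum_univ_three]
  ring

theorem va_ref (n : Fin 3 → ℝ) : Matrix.vecMul n Ref = ![n 0, n 2, n 1] := by
  ext j
  fin_cases j <;> simp [Ref, Matrix.vecMul, dotProduct, Fin.sum_univ_three]

theorem va_mul_rot (n : Fin 3 → ℝ) : va (Matrix.vecMul n Rot) = fun j => va n (act 1 j) := by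
  rw [va_rot]
  ext j
  fin_cases j
  · rfl
  · rfl
  · show n 1 + n 2 - n 0 + n 0 - n 1 = n 2
    ring
  · rfl

theorem va_mul_ref (n : Fin 3 → ℝ) : va (Matrix.vecMul n Ref) = fun j => va n (act 4 j) := by
  rw [va_ref]
  ext j
  fin_cases j
  · rfl
  · rfl
  · show n 2 + n 1 - n 0 = n 1 + n 2 - n 0
    ring
  · rfl

theorem va_gs (n : Fin 3 → ℝ) (k : Fin 8) :
    va (Matrix.vecMul n (GS k)) = fun j => va n (act k j) := by
  have p1 : ∀ n : Fin 3 → ℝ, Matrix.vecMul n (Rot ^ 1) = Matrix.vecMul n Rot := fun n => by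
    rw [pow_one]
  have p2 : ∀ n : Fin 3 → ℝ, Matrix.vecMul n (Rot ^ 2) = Matrix.vecMul (Matrix.vecMul n Rot) Rot :=
    fun n => by rw [pow_two, Matrix.vecMul_vecMul]
  have p3 : ∀ n : Fin 3 → ℝ, Matrix.vecMul n (Rot ^ 3) =
      Matrix.vecMul (Matrix.vecMul (Matrix.vecMul n Rot) Rot) Rot :=
    fun n => by rw [pow_succ, pow_two, Matrix.vecMul_vecMul, Matrix.vecMul_vecMul, mul_assoc]
  fin_cases k
  · show va (Matrix.vecMul n (Rot ^ 0 * Ref ^ 0)) = _
    rw [pow_zero, pow_zero, mul_one, Matrix.vecMul_one]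
    ext j
    fin_cases j <;> rfl
  · show va (Matrix.vecMul n (Rot ^ 1 * Ref ^ 0)) = _
    rw [pow_zero, mul_one, p1, va_mul_rot]
    rfl
  · show va (Matrix.vecMul n (Rot ^ 2 * Ref ^ 0)) = _
    rw [pow_zero, mul_one, p2, va_mul_rot, va_mul_rot]
    ext j
    fin_cases j <;> rfl
  · show va (Matrix.vecMul n (Rot ^ 3 * Ref ^ 0)) = _
    rw [pow_zero, mul_one, p3, va_mul_rot, va_mul_rot, va_mul_rot]
    ext j
    fin_cases j <;> rfl
  · show va (Matrix.vecMul n (Rot ^ 0 * Ref ^ 1)) = _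
    rw [pow_zero, pow_one, one_mul, va_mul_ref]
    rfl
  · show va (Matrix.vecMul n (Rot ^ 1 * Ref ^ 1)) = _
    rw [pow_one, pow_one, ← Matrix.vecMul_vecMul, va_mul_ref, va_mul_rot]
    ext j
    fin_cases j <;> rfl
  · show va (Matrix.vecMul n (Rot ^ 2 * Ref ^ 1)) = _
    rw [pow_one, ← Matrix.vecMul_vecMul, p2, va_mul_ref, va_mul_rot, va_mul_rot]
    ext j
    fin_cases j <;> rfl
  · show va (Matrix.vecMul n (Rot ^ 3 * Ref ^ 1)) = _
    rw [pow_one, ← Matrix.vecMul_vecMul, p3, va_mul_ref, va_mul_rot, va_mul_rot, va_mul_rot]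
    ext j
    fin_cases j <;> rfl

theorem coneC (u : Fin 3 → ℝ) (i : Fin 3) (h : CV i (va u)) :
    ∃ l : Fin 3 → ℝ, (∀ a, 0 ≤ l a) ∧ u = Matrix.vecMul l (VC i) := by
  fin_cases i
  · have h' : 0 ≤ u 0 ∧ 2 * u 0 ≤ u 2 ∧ u 0 + u 2 ≤ u 1 := h
    refine ⟨![u 1 - u 0 - u 2, u 2 - 2 * u 0, u 0], ?_, ?_⟩
    · intro a
      fin_cases a
      · show 0 ≤ u 1 - u 0 - u 2
        linarith [h'.2.2]
      · show 0 ≤ u 2 - 2 * u 0
        linarith [h'.2.1]
      · exact h'.1
    · ext j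
      fin_cases j <;> simp [VC, Matrix.vecMul, dotProduct, Fin.sum_univ_three] <;> ring
  · have h' : 0 ≤ u 1 + u 2 - u 0 ∧ 2 * (u 1 + u 2 - u 0) ≤ u 2 ∧ 2 * u 2 ≤ u 0 := h
    refine ⟨![u 0 - 2 * u 2, u 2 - 2 * (u 1 + u 2 - u 0), u 1 + u 2 - u 0], ?_, ?_⟩
    · intro a
      fin_cases a
      · show 0 ≤ u 0 - 2 * u 2
        linarith [h'.2.2]
      · show 0 ≤ u 2 - 2 * (u 1 + u 2 - u 0)
        linarith [h'.2.1]
      · exact h'.1
    · ext j
      fin_cases j <;> simp [VC, Matrix.vecMul, dotProduct, Fin.sum_univ_three] <;> ring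
  · have h' : 0 ≤ u 1 ∧ 2 * u 1 ≤ u 0 ∧ u 0 ≤ u 1 + u 2 - u 0 := h
    refine ⟨![u 1 + u 2 - u 0 - u 0, u 0 - 2 * u 1, u 1], ?_, ?_⟩
    · intro a
      fin_cases a
      · show 0 ≤ u 1 + u 2 - u 0 - u 0
        linarith [h'.2.2]
      · show 0 ≤ u 0 - 2 * u 1
        linarith [h'.2.1]
      · exact h'.1
    · ext j
      fin_cases j <;> simp [VC, Matrix.vecMul, dotProduct, Fin.sum_univ_three] <;> ring

theorem coneS (u : Fin 3 → ℝ) (i : Fin 3) (h : SV i (va u)) :
    ∃ l : Fin 3 → ℝ, (∀ a, 0 ≤ l a) ∧ u = Matrix.vecMul l (VS i) := by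
  fin_cases i
  · have h' : 0 ≤ u 0 ∧ 2 * u 0 ≤ u 1 ∧ u 0 + u 1 ≤ u 2 := h
    refine ⟨![u 2 - u 1 - u 0, u 1 - 2 * u 0, u 0], ?_, ?_⟩
    · intro a
      fin_cases a
      · show 0 ≤ u 2 - u 1 - u 0
        linarith [h'.2.2]
      · show 0 ≤ u 1 - 2 * u 0
        linarith [h'.2.1]
      · exact h'.1
    · ext j
      fin_cases j <;> simp [VS, Matrix.vecMul, dotProduct, Fin.sum_univ_three] <;> ring
  · have h' : 0 ≤ u 2 ∧ 2 * u 2 ≤ u 1 + u 2 - u 0 ∧ (u 1 + u 2 - u 0) + u 2 ≤ u 0 := h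
    refine ⟨![u 0 - (u 1 + u 2 - u 0) - u 2, (u 1 + u 2 - u 0) - 2 * u 2, u 2], ?_, ?_⟩
    · intro a
      fin_cases a
      · show 0 ≤ u 0 - (u 1 + u 2 - u 0) - u 2
        linarith [h'.2.2]
      · show 0 ≤ (u 1 + u 2 - u 0) - 2 * u 2
        linarith [h'.2.1]
      · exact h'.1
    · ext j
      fin_cases j <;> simp [VS, Matrix.vecMul, dotProduct, Fin.sum_univ_three] <;> ring
  · have h' : u 1 + u 2 - u 0 ≤ u 1 ∧ u 1 ≤ 2 * (u 1 + u 2 - u 0) ∧ 2 * u 1 ≤ u 0 := h
    refine ⟨![u 0 - 2 * u 1, 2 * (u 1 + u 2 - u 0) - u 1, u 1 - (u 1 + u 2 - u 0)], ?_, ?_⟩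
    · intro a
      fin_cases a
      · show 0 ≤ u 0 - 2 * u 1
        linarith [h'.2.2]
      · show 0 ≤ 2 * (u 1 + u 2 - u 0) - u 1
        linarith [h'.2.1]
      · show 0 ≤ u 1 - (u 1 + u 2 - u 0)
        linarith [h'.1]
    · ext j
      fin_cases j <;> simp [VS, Matrix.vecMul, dotProduct, Fin.sum_univ_three] <;> ring

/-- assembly for three rows in the right order -/
theorem asm (N : Fr) (e : Fin 3 → Fin 3) (he : Function.Injective e) (k0 : Fin 8)
    (f g h : Fin 4 → ℝ) (ef : f = fun j => va (N (e 0)) (act k0 j))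
    (eg : g = fun j => va (N (e 1)) (act k0 j)) (eh : h = fun j => va (N (e 2)) (act k0 j))
    (H : ∃ (m : Fin 3 → Fin 3), Function.Injective m ∧ ∃ k : Fin 8,
      (∀ i, CV i (fun j => (![f, g, h] : Fin 3 → Fin 4 → ℝ) (m i) (act k j))) ∨
      (∀ i, SV i (fun j => (![f, g, h] : Fin 3 → Fin 4 → ℝ) (m i) (act k j)))) :
    ∃ (σ : Equiv.Perm (Fin 3)) (k : Fin 8),
      Tr σ (fun _ => true) (GS k) N ∈ cc VC ∪ cc VS := by
  obtain ⟨m, hm, k, H⟩ := H
  obtain ⟨k', hk'⟩ := act_comp k0 k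
  have hb : Function.Bijective (e ∘ m) := Finite.injective_iff_bijective.1 (he.comp hm)
  have hall : ∀ i' : Fin 3, (![f, g, h] : Fin 3 → Fin 4 → ℝ) i' =
      fun j => va (N (e i')) (act k0 j) := by
    intro i'
    fin_cases i'
    · exact ef
    · exact eg
    · exact eh
  have hcomp : ∀ i, (fun j => (![f, g, h] : Fin 3 → Fin 4 → ℝ) (m i) (act k j)) =
      va (Matrix.vecMul (N (e (m i))) (GS k')) := by
    intro i
    rw [va_gs]
    ext j
    rw [hall (m i)]
    show va (N (e (m i))) (act k0 (act k j)) = _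
    rw [hk' j]
  have hrow : ∀ i, Tr (Equiv.ofBijective (e ∘ m) hb) (fun _ => true) (GS k') N i =
      Matrix.vecMul (N (e (m i))) (GS k') := by
    intro i
    show sg true • Matrix.vecMul (N (e (m i))) (GS k') = _
    simp [sg]
  refine ⟨Equiv.ofBijective (e ∘ m) hb, k', ?_⟩
  rcases H with H | H
  · left
    intro i
    rw [hrow i]
    exact coneC _ i (by rw [← hcomp i]; exact H i)
  · right
    intro i
    rw [hrow i]
    exact coneS _ i (by rw [← hcomp i]; exact H i)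

theorem main : S_COMB := by
  intro N hN
  obtain ⟨hnn, x0, x7, x6, x5, x4, x3, x2, x1⟩ := hN
  have hrow : ∀ i, Row (va (N i)) := by
    intro i
    obtain ⟨r1, r2, r3, r4⟩ := hnn i
    refine ⟨fun j => ?_, ?_⟩
    · fin_cases j
      · exact r1
      · exact r2
      · exact r4
      · exact r3
    · show N i 0 + (N i 1 + N i 2 - N i 0) = N i 1 + N i 2
      ring
  have hex : ∀ x : Fin 8, ∃ i, ex x (va (N i)) := by
    intro x
    fin_cases x
    · exact x0
    · exact x1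
    · exact x2
    · exact x3
    · exact x4
    · exact x5
    · exact x6
    · exact x7
  choose t ht using fun i => row_arc _ (hrow i)
  have hcov : ∀ x, inArc (t 0) x = true ∨ inArc (t 1) x = true ∨ inArc (t 2) x = true := by
    intro x
    obtain ⟨i, hi⟩ := hex x
    have h1 := ht i x hi
    fin_cases i
    · exact Or.inl h1
    · exact Or.inr (Or.inl h1)
    · exact Or.inr (Or.inr h1)
  have hstr : ∃ (s : Fin 8) (p q r : Fin 3), p ≠ q ∧ q ≠ r ∧ p ≠ r ∧ t p = s ∧ t q = s + 3 ∧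
      t r = s + 6 := by
    obtain ⟨s, h | h | h | h | h | h⟩ := cover _ _ _ hcov
    · exact ⟨s, 0, 1, 2, by decide, by decide, by decide, h.1, h.2.1, h.2.2⟩
    · exact ⟨s, 0, 2, 1, by decide, by decide, by decide, h.1, h.2.1, h.2.2⟩
    · exact ⟨s, 1, 0, 2, by decide, by decide, by decide, h.1, h.2.1, h.2.2⟩
    · exact ⟨s, 1, 2, 0, by decide, by decide, by decide, h.1, h.2.1, h.2.2⟩
    · exact ⟨s, 2, 0, 1, by decide, by decide, by decide, h.1, h.2.1, h.2.2⟩
    · exact ⟨s, 2, 1, 0, by decide, by decide, by decide, h.1, h.2.1, h.2.2⟩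
  obtain ⟨s, p, q, r, hpq, hqr, hpr, tp, tq, tr⟩ := hstr
  have hwho : ∀ y : Fin 8, (ex (y + s) (va (N p)) ∧ (y = 7 ∨ y = 0 ∨ y = 1)) ∨
      (ex (y + s) (va (N q)) ∧ (y = 2 ∨ y = 3 ∨ y = 4)) ∨
      (ex (y + s) (va (N r)) ∧ (y = 5 ∨ y = 6 ∨ y = 7)) := by
    intro y
    obtain ⟨i, hi⟩ := hex (y + s)
    have h1 := ht i _ hi
    rcases three p q r i hpq hqr hpr with rfl | rfl | rfl
    · left
      rw [tp] at h1
      exact ⟨hi, arc0 s y h1⟩
    · right; left
      rw [tq] at h1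
      exact ⟨hi, arc3 s y h1⟩
    · right; right
      rw [tr] at h1
      exact ⟨hi, arc6 s y h1⟩
  have H0 : ex (0 + s) (va (N p)) := by
    rcases hwho 0 with h | h | h
    · exact h.1
    · exact absurd h.2 (by decide)
    · exact absurd h.2 (by decide)
  have H1 : ex (1 + s) (va (N p)) := by
    rcases hwho 1 with h | h | h
    · exact h.1
    · exact absurd h.2 (by decide)
    · exact absurd h.2 (by decide)
  have H2 : ex (2 + s) (va (N q)) := by
    rcases hwho 2 with h | h | h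
    · exact absurd h.2 (by decide)
    · exact h.1
    · exact absurd h.2 (by decide)
  have H3 : ex (3 + s) (va (N q)) := by
    rcases hwho 3 with h | h | h
    · exact absurd h.2 (by decide)
    · exact h.1
    · exact absurd h.2 (by decide)
  have H4 : ex (4 + s) (va (N q)) := by
    rcases hwho 4 with h | h | h
    · exact absurd h.2 (by decide)
    · exact h.1
    · exact absurd h.2 (by decide)
  have H5 : ex (5 + s) (va (N r)) := by
    rcases hwho 5 with h | h | h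
    · exact absurd h.2 (by decide)
    · exact absurd h.2 (by decide)
    · exact h.1
  have H6 : ex (6 + s) (va (N r)) := by
    rcases hwho 6 with h | h | h
    · exact absurd h.2 (by decide)
    · exact absurd h.2 (by decide)
    · exact h.1
  have H7 : ex (7 + s) (va (N p)) ∨ ex (7 + s) (va (N r)) := by
    rcases hwho 7 with h | h | h
    · exact Or.inl h.1
    · exact absurd h.2 (by decide)
    · exact Or.inr h.1
  rcases sym s with ⟨k, hk⟩ | ⟨k, k0, k1, k2, k3, k4, k5, k6, k7⟩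
  · refine asm N ![p, q, r] ?_ k _ _ _ rfl rfl rfl (base _ _ _ (row_act k _ (hrow _))
      (row_act k _ (hrow _)) (row_act k _ (hrow _)) ?_ ?_ ?_ ?_ ?_ ?_ ?_ ?_)
    · intro a b hab
      fin_cases a <;> fin_cases b <;> simp_all
    all_goals simp only [ex_act, hk]
    · exact H0
    · exact H1
    · exact H2
    · exact H3
    · exact H4
    · exact H5
    · exact H6
    · exact H7
  · refine asm N ![r, q, p] ?_ k _ _ _ rfl rfl rfl (base _ _ _ (row_act k _ (hrow _))
      (row_act k _ (hrow _)) (row_act k _ (hrow _)) ?_ ?_ ?_ ?_ ?_ ?_ ?_ ?_)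
    · intro a b hab
      fin_cases a <;> fin_cases b <;> simp_all
    all_goals simp only [ex_act, k0, k1, k2, k3, k4, k5, k6, k7]
    · exact H6
    · exact H5
    · exact H4
    · exact H3
    · exact H2
    · exact H1
    · exact H0
    · exact H7.symm

end Pool.Agent.R69.KM.Comb
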