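import Pool.Agent.R69.KM.Stm2

set_option autoImplicit false

namespace Pool.Agent.R69.KM.Del

open Pool.Agent.R69.KM

theorem tri3 : ∀ i j k : Fin 3, i ≠ j → j ≠ k → i ≠ k → ∀ l, l = i ∨ l = j ∨ l = k := by decide

theorem sum3 (p : Fin 3 → ℝ) : ∀ i j k : Fin 3, i ≠ j → j ≠ k → i ≠ k →
    p 0 + p 1 + p 2 = p i + p j + p k := by
  intro i j k h1 h2 h3
  fin_cases i <;> fin_cases j <;> fin_cases k <;> simp_all <;> ring

/-- the conclusion on the signs -/
def Q (p : Fin 3 → ℝ) : Prop := ((∀ i, 0 ≤ p i) ∧ p 0 + p 1 + p 2 < 1) ∨ ∃ i j k : Fin 3, i ≠ j ∧ j ≠ k ∧ i ≠ k ∧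
      p i < 0 ∧ 0 < p j ∧ 0 ≤ p k ∧ -p i < p j ∧ (0 < p k ∨ -(2 * p i) < p j)

theorem build (ε : ℝ) (δ : Fin 3 → ℝ) (i j k : Fin 3) (h1 : i ≠ j) (h2 : j ≠ k) (h3 : i ≠ k)
    (a b c : ℤ) (hx : ε * δ i + a < 0) (hy : 0 < ε * δ j + b) (hz : 0 ≤ ε * δ k + c)
    (hxy : -(ε * δ i + a) < ε * δ j + b)
    (ho : 0 < ε * δ k + c ∨ -(2 * (ε * δ i + a)) < ε * δ j + b)
    (hs : (ε * δ i + a) + (ε * δ j + b) + (ε * δ k + c) ≤ 1) :
    ∃ p : Fin 3 → ℝ, p ≠ 0 ∧ p 0 + p 1 + p 2 ≤ 1 ∧ (∀ l, ∃ m : ℤ, p l = ε * δ l + m) ∧ Q p := by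
  let m : Fin 3 → ℤ := fun l => if l = i then a else if l = j then b else c
  have mi : m i = a := by simp [m]
  have mj : m j = b := by simp [m, h1.symm]
  have mk : m k = c := by simp [m, h2.symm, h3.symm]
  refine ⟨fun l => ε * δ l + m l, ?_, ?_, fun l => ⟨m l, rfl⟩, Or.inr ⟨i, j, k, h1, h2, h3, ?_⟩⟩
  · intro h
    have := congrFun h i
    simp only [mi, Pi.zero_apply] at this
    linarith
  · rw [sum3 (fun l => ε * δ l + m l) i j k h1 h2 h3]
    simp only [mi, mj, mk]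
    exact hs
  · simp only [mi, mj, mk]
    exact ⟨hx, hy, hz, hxy, ho⟩

theorem two_pos (δ : Fin 3 → ℝ) (h0 : ∀ i, 0 ≤ δ i ∧ δ i < 1) (hs : δ 0 + δ 1 + δ 2 = 1) :
    ∃ i j k : Fin 3, i ≠ j ∧ j ≠ k ∧ i ≠ k ∧ 0 < δ i ∧ 0 < δ j := by
  have a0 := h0 0
  have a1 := h0 1
  have a2 := h0 2
  by_cases c0 : 0 < δ 0
  · by_cases c1 : 0 < δ 1
    · exact ⟨0, 1, 2, by decide, by decide, by decide, c0, c1⟩
    · exact ⟨0, 2, 1, by decide, by decide, by decide, c0, by linarith⟩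
  · exact ⟨1, 2, 0, by decide, by decide, by decide, by linarith, by linarith⟩

/-- the cases of sum at most one -/
theorem le_one (δ : Fin 3 → ℝ) (h0 : ∀ i, 0 ≤ δ i ∧ δ i < 1) (hn : δ ≠ 0)
    (hs : δ 0 + δ 1 + δ 2 ≤ 1) :
    ∃ p : Fin 3 → ℝ, p ≠ 0 ∧ p 0 + p 1 + p 2 ≤ 1 ∧ (∀ l, ∃ m : ℤ, p l = δ l + m) ∧ Q p := by
  rcases hs.lt_or_eq with hs | hs
  · exact ⟨δ, hn, hs.le, fun l => ⟨0, by simp⟩, Or.inl ⟨fun i => (h0 i).1, hs⟩⟩
  · obtain ⟨i, j, k, h1, h2, h3, hi, hj⟩ := two_pos δ h0 hs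
    have hs' : δ i + δ j + δ k = 1 := by rw [← sum3 δ i j k h1 h2 h3]; exact hs
    have hk := (h0 k).1
    have hi1 := (h0 i).2
    obtain ⟨p, hp1, hp2, hp3, hp4⟩ := build 1 δ i j k h1 h2 h3 (-1) 1 0 (by push_cast; linarith)
      (by push_cast; linarith) (by push_cast; linarith) (by push_cast; linarith)
      (by
        rcases hk.lt_or_eq with hk | hk
        · left; push_cast; linarith
        · right; push_cast; linarith)
      (by push_cast; linarith)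
    refine ⟨p, hp1, hp2, fun l => ?_, hp4⟩
    obtain ⟨m, hm⟩ := hp3 l
    exact ⟨m, by rw [hm, one_mul]⟩

theorem main : S_DEL := by
  intro δ h0 hn hh
  by_cases hs : δ 0 + δ 1 + δ 2 ≤ 1
  · obtain ⟨p, hp1, hp2, hp3, hp4⟩ := le_one δ h0 hn hs
    exact ⟨p, hp1, hp2, Or.inl hp3, hp4⟩
  push Not at hs
  have a0 := h0 0
  have a1 := h0 1
  have a2 := h0 2
  -- the opposite point
  let η : Fin 3 → ℝ := fun i => if 0 < δ i then 1 - δ i else 0
  have hη0 : ∀ i, 0 ≤ η i ∧ η i < 1 := by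
    intro i
    have := h0 i
    simp only [η]
    split_ifs with h
    · constructor <;> linarith
    · constructor <;> norm_num
  have hηm : ∀ i, ∃ m : ℤ, η i = -δ i + m := by
    intro i
    have := h0 i
    simp only [η]
    split_ifs with h
    · exact ⟨1, by push_cast; ring⟩
    · exact ⟨0, by push_cast; linarith⟩
  have hηn : η ≠ 0 := by
    intro h
    apply hn
    funext i
    have h1 := congrFun h i
    have := h0 i
    simp only [η, Pi.zero_apply] at h1 ⊢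
    split_ifs at h1 with h2
    · linarith
    · linarith
  by_cases hs' : η 0 + η 1 + η 2 ≤ 1
  · obtain ⟨p, hp1, hp2, hp3, hp4⟩ := le_one η hη0 hηn hs'
    refine ⟨p, hp1, hp2, Or.inr fun l => ?_, hp4⟩
    obtain ⟨m, hm⟩ := hp3 l
    obtain ⟨m', hm'⟩ := hηm l
    exact ⟨m' + m, by rw [hm, hm']; push_cast; ring⟩
  push Not at hs'
  -- all coordinates are positive
  have hpos : 0 < δ 0 ∧ 0 < δ 1 ∧ 0 < δ 2 := by
    by_contra hc
    simp only [η] at hs'
    split_ifs at hs' with c0 c1 c2 c2 c1 c2 c2 <;>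
      first
      | exact hc ⟨c0, c1, c2⟩
      | linarith
  obtain ⟨p0, p1, p2⟩ := hpos
  have hs2 : δ 0 + δ 1 + δ 2 < 2 := by
    simp only [η, if_pos p0, if_pos p1, if_pos p2] at hs'
    linarith
  have hposi : ∀ i, 0 < δ i := by
    intro i; fin_cases i
    · exact p0
    · exact p1
    · exact p2
  -- a pair with sum > 1
  have big : ∀ i j k : Fin 3, i ≠ j → j ≠ k → i ≠ k → 1 < δ i + δ j →
      ∃ p : Fin 3 → ℝ, p ≠ 0 ∧ p 0 + p 1 + p 2 ≤ 1 ∧ (∀ l, ∃ m : ℤ, p l = 1 * δ l + m) ∧ Q p := by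
    intro i j k h1 h2 h3 h
    have e := sum3 δ i j k h1 h2 h3
    have := hposi i
    have := hposi j
    have := hposi k
    have := (h0 i).2
    exact build 1 δ i j k h1 h2 h3 (-1) 0 0 (by push_cast; linarith)
      (by push_cast; linarith) (by push_cast; linarith) (by push_cast; linarith)
      (by left; push_cast; linarith)
      (by push_cast; linarith)
  have small : ∀ i j k : Fin 3, i ≠ j → j ≠ k → i ≠ k → δ i + δ j < 1 →
      ∃ p : Fin 3 → ℝ, p ≠ 0 ∧ p 0 + p 1 + p 2 ≤ 1 ∧ (∀ l, ∃ m : ℤ, p l = -1 * δ l + m) ∧ Q p := by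
    intro i j k h1 h2 h3 h
    have e := sum3 δ i j k h1 h2 h3
    have := hposi i
    have := hposi j
    have := hposi k
    have := (h0 i).2
    have := (h0 j).2
    have := (h0 k).2
    exact build (-1) δ i j k h1 h2 h3 0 1 1 (by push_cast; linarith)
      (by push_cast; linarith) (by push_cast; linarith) (by push_cast; linarith)
      (by left; push_cast; linarith)
      (by push_cast; linarith)
  have fin1 : (∃ p : Fin 3 → ℝ, p ≠ 0 ∧ p 0 + p 1 + p 2 ≤ 1 ∧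
      (∀ l, ∃ m : ℤ, p l = 1 * δ l + m) ∧ Q p) ∨
      (∃ p : Fin 3 → ℝ, p ≠ 0 ∧ p 0 + p 1 + p 2 ≤ 1 ∧
      (∀ l, ∃ m : ℤ, p l = -1 * δ l + m) ∧ Q p) := by
    rcases lt_trichotomy (δ 0 + δ 1) 1 with h | h | h
    · exact Or.inr (small 0 1 2 (by decide) (by decide) (by decide) h)
    · rcases lt_trichotomy (δ 0 + δ 2) 1 with h' | h' | h'
      · exact Or.inr (small 0 2 1 (by decide) (by decide) (by decide) h')
      · rcases lt_trichotomy (δ 1 + δ 2) 1 with h'' | h'' | h''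
        · exact Or.inr (small 1 2 0 (by decide) (by decide) (by decide) h'')
        · exfalso
          apply hh
          intro i
          fin_cases i
          · show δ 0 = 1 / 2
            linarith
          · show δ 1 = 1 / 2
            linarith
          · show δ 2 = 1 / 2
            linarith
        · exact Or.inl (big 1 2 0 (by decide) (by decide) (by decide) h'')
      · exact Or.inl (big 0 2 1 (by decide) (by decide) (by decide) h')
    · exact Or.inl (big 0 1 2 (by decide) (by decide) (by decide) h)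
  rcases fin1 with ⟨p, hp1, hp2, hp3, hp4⟩ | ⟨p, hp1, hp2, hp3, hp4⟩
  · refine ⟨p, hp1, hp2, Or.inl fun l => ?_, hp4⟩
    obtain ⟨m, hm⟩ := hp3 l
    exact ⟨m, by rw [hm, one_mul]⟩
  · refine ⟨p, hp1, hp2, Or.inr fun l => ?_, hp4⟩
    obtain ⟨m, hm⟩ := hp3 l
    exact ⟨m, by rw [hm]; ring⟩

end Pool.Agent.R69.KM.Del
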