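import Pool.Agent.R69.KM.Stm2

/-! Project KM, piece KM2-DETL (helper179): lower bound of the determinant on `ER` -/

set_option autoImplicit false

namespace Pool.Agent.R69.KM.Detl

open Pool.Agent.R69.Klein Pool.Agent.R69.KM

/-- an affine function on the quadrangle `(0,0), (1,0), (1/2,1/2), (0,1/2)` -/
lemma aff (A B C m a b : ℝ) (ha : 0 ≤ a) (hb : 0 ≤ b) (hab : a + b ≤ 1) (hb2 : 2 * b ≤ 1)
    (h00 : m ≤ A) (h10 : m ≤ A + B) (h11 : m ≤ A + (B + C) / 2) (h01 : m ≤ A + C / 2) :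
    m ≤ A + B * a + C * b := by
  rcases le_total a b with h | h
  · have e1 := mul_nonneg ha (sub_nonneg.2 h11)
    have e2 := mul_nonneg (sub_nonneg.2 h) (sub_nonneg.2 h01)
    have e3 := mul_nonneg (sub_nonneg.2 hb2) (sub_nonneg.2 h00)
    nlinarith
  · have e1 := mul_nonneg (sub_nonneg.2 h) (sub_nonneg.2 h10)
    have e2 := mul_nonneg hb (sub_nonneg.2 h11)
    have e3 := mul_nonneg (sub_nonneg.2 hab) (sub_nonneg.2 h00)
    nlinarith

/-- the normalised estimate -/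
lemma key (a b c d e f : ℝ) (ha : 0 ≤ a) (hb : 0 ≤ b) (hc : 0 ≤ c) (hd : 0 ≤ d) (he : 0 ≤ e)
    (hf : 0 ≤ f) (hab : a + b ≤ 1) (hdc : d + c ≤ 1) (hef : e + f ≤ 1) (hb2 : 2 * b ≤ 1)
    (hc2 : 2 * c ≤ 1) (hf2 : 2 * f ≤ 1) :
    1 / 4 ≤ 1 - d * f - a * c - b * e + a * d * e + b * c * f := by
  have h00 : 1 / 4 ≤ 1 - d * f := by
    have h := aff 1 (-f) 0 (1 / 4) d c hd hc hdc hc2 (by linarith) (by linarith) (by linarith)
      (by linarith)
    linarith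
  have h10 : 1 / 4 ≤ (1 - d * f) + (-c + d * e) := by
    have h := aff 1 (-f + e) (-1) (1 / 4) d c hd hc hdc hc2 (by linarith) (by linarith)
      (by linarith) (by linarith)
    linarith
  have h11 : 1 / 4 ≤ (1 - d * f) + ((-c + d * e) + (-e + c * f)) / 2 := by
    have h := aff (1 - e / 2) (-f + e / 2) (-(1 / 2) + f / 2) (1 / 4) d c hd hc hdc hc2
      (by linarith) (by linarith) (by linarith) (by linarith)
    linarith
  have h01 : 1 / 4 ≤ (1 - d * f) + (-e + c * f) / 2 := by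
    have h := aff (1 - e / 2) (-f) (f / 2) (1 / 4) d c hd hc hdc hc2
      (by linarith) (by linarith) (by linarith) (by linarith)
    linarith
  have h := aff (1 - d * f) (-c + d * e) (-e + c * f) (1 / 4) a b ha hb hab hb2 h00 h10 h11 h01
  linarith

/-- the scaled estimate -/
lemma key' (p q r a b c d e f : ℝ) (hp : 0 < p) (hq : 0 < q) (hr : 0 < r) (ha : 0 ≤ a)
    (hb : 0 ≤ b) (hc : 0 ≤ c) (hd : 0 ≤ d) (he : 0 ≤ e)
    (hf : 0 ≤ f) (hab : a + b ≤ p) (hdc : d + c ≤ q) (hef : e + f ≤ r) (hb2 : 2 * b ≤ p)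
    (hc2 : 2 * c ≤ q) (hf2 : 2 * f ≤ r) :
    1 / 4 * (p * q * r) ≤ p * q * r - p * d * f - a * c * r - b * q * e + a * d * e + b * c * f := by
  have h := key (a / p) (b / p) (c / q) (d / q) (e / r) (f / r) (by positivity) (by positivity)
    (by positivity) (by positivity) (by positivity) (by positivity)
    (by rw [← add_div]; exact (div_le_one hp).2 hab)
    (by rw [← add_div]; exact (div_le_one hq).2 hdc)
    (by rw [← add_div]; exact (div_le_one hr).2 hef)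
    (by rw [← mul_div_assoc]; exact (div_le_one hp).2 hb2)
    (by rw [← mul_div_assoc]; exact (div_le_one hq).2 hc2)
    (by rw [← mul_div_assoc]; exact (div_le_one hr).2 hf2)
  have h2 := mul_le_mul_of_nonneg_right h (show 0 ≤ p * q * r by positivity)
  have e1 : (1 - d / q * (f / r) - a / p * (c / q) - b / p * (e / r) + a / p * (d / q) * (e / r) +
      b / p * (c / q) * (f / r)) * (p * q * r) =
      p * q * r - p * d * f - a * c * r - b * q * e + a * d * e + b * c * f := by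
    field_simp
  rw [e1] at h2
  exact h2

/-- at most one of the two kinds of big entries occurs -/
lemma dich (p q r a b c d e f : ℝ) (ha : 0 ≤ a)
    (hb : 0 ≤ b) (hc : 0 ≤ c) (hd : 0 ≤ d) (he : 0 ≤ e)
    (hf : 0 ≤ f) (hab : a + b < p) (hdc : d + c < q) (hef : e + f < r)
    (ca : 2 * a < p ∨ 2 * f < e) (cb : 2 * b < p ∨ 2 * d < c) (cd : 2 * d < q ∨ 2 * b < a)
    (cc : 2 * c < q ∨ 2 * e < f) (ce : 2 * e < r ∨ 2 * c < d) (cf : 2 * f < r ∨ 2 * a < b) :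
    (2 * b ≤ p ∧ 2 * c ≤ q ∧ 2 * f ≤ r) ∨ (2 * a ≤ p ∧ 2 * d ≤ q ∧ 2 * e ≤ r) := by
  have st : ∀ x y z w : ℝ, (2 * x < y ∨ 2 * z < w) → (2 * x ≤ y ∨ (y < 2 * x ∧ 2 * z < w)) := by
    intro x y z w h
    rcases le_or_gt (2 * x) y with h1 | h1
    · exact Or.inl h1
    · exact Or.inr ⟨h1, h.resolve_left (not_lt.2 h1.le)⟩
  have ca' := st _ _ _ _ ca
  have cb' := st _ _ _ _ cb
  have cc' := st _ _ _ _ cc
  have cd' := st _ _ _ _ cd
  have ce' := st _ _ _ _ ce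
  have cf' := st _ _ _ _ cf
  rcases cb' with hb2 | ⟨hb2, hb3⟩
  · rcases cc' with hc2 | ⟨hc2, hc3⟩
    · rcases cf' with hf2 | ⟨hf2, hf3⟩
      · exact Or.inl ⟨hb2, hc2, hf2⟩
      · right
        refine ⟨by linarith, ?_, by linarith⟩
        rcases cd' with h | ⟨h, h'⟩
        · exact h
        · exfalso; linarith
    · right
      refine ⟨?_, by linarith, by linarith⟩
      rcases ca' with h | ⟨h, h'⟩
      · exact h
      · exfalso; linarith
  · right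
    refine ⟨by linarith, by linarith, ?_⟩
    rcases ce' with h | ⟨h, h'⟩
    · exact h
    · exfalso; linarith

/-- KM2-DETL -/
theorem main : S_DETL := by
  refine ⟨1 / 4, by norm_num, ?_⟩
  intro N hN
  have h0 := hN 0
  have h1 := hN 1
  have h2 := hN 2
  have f1 : (0 : Fin 3) + 1 = 1 := rfl
  have f2 : (0 : Fin 3) + 2 = 2 := rfl
  have f3 : (1 : Fin 3) + 1 = 2 := rfl
  have f4 : (1 : Fin 3) + 2 = 0 := rfl
  have f5 : (2 : Fin 3) + 1 = 0 := rfl
  have f6 : (2 : Fin 3) + 2 = 1 := rfl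
  rw [f1, f2] at h0
  rw [f3, f4] at h1
  rw [f5, f6] at h2
  obtain ⟨a1, a2, a3, a4, a5, -⟩ := h0
  obtain ⟨b1, b2, b3, b4, b5, -⟩ := h1
  obtain ⟨c1, c2, c3, c4, c5, -⟩ := h2
  have hp : 0 < N 0 0 := by linarith
  have hq : 0 < N 1 1 := by linarith
  have hr : 0 < N 2 2 := by linarith
  rcases dich (N 0 0) (N 1 1) (N 2 2) (N 0 1) (N 0 2) (N 1 0) (N 1 2) (N 2 0) (N 2 1)
    a1 a2 b2 b1 c1 c2 a3 b3 c3 a4 a5 b4 b5 c4 c5 with ⟨h1, h2, h3⟩ | ⟨h1, h2, h3⟩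
  · have h := key' (N 0 0) (N 1 1) (N 2 2) (N 0 1) (N 0 2) (N 1 0) (N 1 2) (N 2 0) (N 2 1)
      hp hq hr a1 a2 b2 b1 c1 c2 a3.le b3.le c3.le h1 h2 h3
    have e : dt N = N 0 0 * N 1 1 * N 2 2 - N 0 0 * N 1 2 * N 2 1 - N 0 1 * N 1 0 * N 2 2 -
        N 0 2 * N 1 1 * N 2 0 + N 0 1 * N 1 2 * N 2 0 + N 0 2 * N 1 0 * N 2 1 := by
      unfold dt; ring
    rw [e]
    exact h
  · have h := key' (N 0 0) (N 2 2) (N 1 1) (N 0 2) (N 0 1) (N 2 0) (N 2 1) (N 1 0) (N 1 2)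
      hp hr hq a2 a1 c1 c2 b2 b1 (by linarith) (by linarith) (by linarith) h1 h3 h2
    have e : dt N = N 0 0 * N 2 2 * N 1 1 - N 0 0 * N 2 1 * N 1 2 - N 0 2 * N 2 0 * N 1 1 -
        N 0 1 * N 2 2 * N 1 0 + N 0 2 * N 2 1 * N 1 0 + N 0 1 * N 2 0 * N 1 2 := by
      unfold dt; ring
    rw [e]
    have e2 : N 0 0 * N 1 1 * N 2 2 = N 0 0 * N 2 2 * N 1 1 := by ring
    rw [e2]
    exact h

end Pool.Agent.R69.KM.Detl
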