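import Pool.Agent.R69.KM.Stm

/-!
Project KM, piece DIS: the images of the explicit cones under the symmetries are disjoint.
-/

set_option autoImplicit false

open MeasureTheory
open scoped ENNReal

namespace Pool.Agent.R69.KM.Dis

open Pool.Agent.R69.Klein Pool.Agent.R69.KM

/-- nonnegative entries, and the diagonal entry is the largest one of its row -/
def Reg (M : Fr) : Prop := (∀ i j, 0 ≤ M i j) ∧ (∀ i, 0 < M i i) ∧ ∀ i j, j ≠ i → M i j < M i i

theorem Tr_apply (σ : Equiv.Perm (Fin 3)) (ε : Fin 3 → Bool) (τ : Equiv.Perm (Fin 3)) (N : Fr)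
    (i j : Fin 3) : Tr σ ε (PM τ) N i j = sg (ε i) * N (σ i) (τ j) := by
  simp [Tr, PM, Matrix.vecMul, dotProduct]

theorem Tr_one (N : Fr) : Tr 1 (fun _ => true) (PM 1) N = N := by
  funext i j
  rw [Tr_apply]
  simp [sg]

theorem sg_mul (a b : Bool) : sg a * sg b = 1 ∧ a = b ∨ sg a * sg b = -1 := by
  cases a <;> cases b <;> simp [sg]

theorem sg_sq (a : Bool) : sg a * sg a = 1 := by
  cases a <;> simp [sg]

theorem red {N : Fr} {σ σ' : Equiv.Perm (Fin 3)} {ε ε' : Fin 3 → Bool} {τ τ' : Equiv.Perm (Fin 3)}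
    (h : Reg (Tr σ ε (PM τ) N)) (h' : Reg (Tr σ' ε' (PM τ') N)) :
    ∃ κ : Equiv.Perm (Fin 3), σ' = σ * κ ∧ τ' = τ * κ ∧ (∀ i, ε' i = ε (κ i)) ∧
      ∀ i j, Tr σ' ε' (PM τ') N i j = Tr σ ε (PM τ) N (κ i) (κ j) := by
  set M := Tr σ ε (PM τ) N with hM
  set M' := Tr σ' ε' (PM τ') N with hM'
  obtain ⟨h1, h2, h3⟩ := h
  obtain ⟨h1', h2', h3'⟩ := h'
  set κ : Equiv.Perm (Fin 3) := σ⁻¹ * σ' with hκ
  set lam : Equiv.Perm (Fin 3) := τ⁻¹ * τ' with hlam
  have hσ : ∀ i, σ (κ i) = σ' i := by intro i; simp [hκ]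
  have hτ : ∀ i, τ (lam i) = τ' i := by intro i; simp [hlam]
  have key : ∀ i j, M' i j = sg (ε' i) * sg (ε (κ i)) * M (κ i) (lam j) := by
    intro i j
    rw [hM, hM', Tr_apply, Tr_apply, hσ, hτ]
    have := sg_sq (ε (κ i))
    calc sg (ε' i) * N (σ' i) (τ' j) = sg (ε' i) * (sg (ε (κ i)) * sg (ε (κ i))) * N (σ' i) (τ' j) := by
          rw [this, mul_one]
      _ = _ := by ring
  have hs : ∀ i, sg (ε' i) * sg (ε (κ i)) = 1 ∧ ε' i = ε (κ i) := by
    intro i
    rcases sg_mul (ε' i) (ε (κ i)) with h | h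
    · exact h
    · exfalso
      have h4 := key i i
      rw [h] at h4
      have h5 := h2' i
      have h6 := h1 (κ i) (lam i)
      linarith
  have key2 : ∀ i j, M' i j = M (κ i) (lam j) := by
    intro i j
    rw [key, (hs i).1, one_mul]
  have hl : ∀ i, lam i = κ i := by
    intro i
    by_contra hne
    obtain ⟨j, hj⟩ := lam.surjective (κ i)
    have hji : j ≠ i := by
      rintro rfl
      exact hne hj
    have h4 := h3' i j hji
    rw [key2, key2, hj] at h4
    have h5 := h3 (κ i) (lam i) hne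
    linarith
  have hlk : lam = κ := Equiv.ext hl
  refine ⟨κ, ?_, ?_, fun i => (hs i).2, ?_⟩
  · rw [hκ]; group
  · rw [← hlk, hlam]; group
  · intro i j
    rw [key2, hlk]

/-- all entries outside the diagonal are less than half of the diagonal entry -/
def Half (M : Fr) : Prop := ∀ i j, j ≠ i → 2 * M i j < M i i

theorem co_WC {M : Fr} (h : M ∈ co WC) : Reg M ∧ Half M ∧ M 0 2 < M 0 1 ∧ M 1 0 < M 1 2 ∧
    M 2 0 < M 2 1 := by
  obtain ⟨l0, p0, e0⟩ := h 0
  obtain ⟨l1, p1, e1⟩ := h 1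
  obtain ⟨l2, p2, e2⟩ := h 2
  have a0 := p0 0
  have a1 := p0 1
  have a2 := p0 2
  have b0 := p1 0
  have b1 := p1 1
  have b2 := p1 2
  have c0 := p2 0
  have c1 := p2 1
  have c2 := p2 2
  have e00 := congrFun e0 0
  have e01 := congrFun e0 1
  have e02 := congrFun e0 2
  have e10 := congrFun e1 0
  have e11 := congrFun e1 1
  have e12 := congrFun e1 2
  have e20 := congrFun e2 0
  have e21 := congrFun e2 1
  have e22 := congrFun e2 2
  simp [WC, Matrix.vecMul, dotProduct, Fin.sum_univ_three] at e00 e01 e02 e10 e11 e12 e20 e21 e22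
  refine ⟨⟨?_, ?_, ?_⟩, ?_, ?_, ?_, ?_⟩
  · intro i j
    fin_cases i <;> fin_cases j <;> simp only [Fin.zero_eta, Fin.mk_one, Fin.reduceFinMk] <;> linarith
  · intro i
    fin_cases i <;> simp only [Fin.zero_eta, Fin.mk_one, Fin.reduceFinMk] <;> linarith
  · intro i j hij
    fin_cases i <;> fin_cases j <;> simp only [Fin.zero_eta, Fin.mk_one, Fin.reduceFinMk] at hij ⊢ <;>
      first | exact absurd rfl hij | linarith
  · intro i j hij
    fin_cases i <;> fin_cases j <;> simp only [Fin.zero_eta, Fin.mk_one, Fin.reduceFinMk] at hij ⊢ <;>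
      first | exact absurd rfl hij | linarith
  · linarith
  · linarith
  · linarith

/-- all entries outside the diagonal other than `M 0 1` are less than half of the diagonal entry -/
def HalfS (M : Fr) : Prop := M 0 0 < 2 * M 0 1 ∧
  ∀ i j, j ≠ i → ¬ (i = 0 ∧ j = 1) → 2 * M i j < M i i

theorem co_WS {M : Fr} (h : M ∈ co WS) : Reg M ∧ HalfS M := by
  obtain ⟨l0, p0, e0⟩ := h 0
  obtain ⟨l1, p1, e1⟩ := h 1
  obtain ⟨l2, p2, e2⟩ := h 2
  have a0 := p0 0
  have a1 := p0 1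
  have a2 := p0 2
  have b0 := p1 0
  have b1 := p1 1
  have b2 := p1 2
  have c0 := p2 0
  have c1 := p2 1
  have c2 := p2 2
  have e00 := congrFun e0 0
  have e01 := congrFun e0 1
  have e02 := congrFun e0 2
  have e10 := congrFun e1 0
  have e11 := congrFun e1 1
  have e12 := congrFun e1 2
  have e20 := congrFun e2 0
  have e21 := congrFun e2 1
  have e22 := congrFun e2 2
  simp [WS, Matrix.vecMul, dotProduct, Fin.sum_univ_three] at e00 e01 e02 e10 e11 e12 e20 e21 e22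
  refine ⟨⟨?_, ?_, ?_⟩, ?_, ?_⟩
  · intro i j
    fin_cases i <;> fin_cases j <;> simp only [Fin.zero_eta, Fin.mk_one, Fin.reduceFinMk] <;> linarith
  · intro i
    fin_cases i <;> simp only [Fin.zero_eta, Fin.mk_one, Fin.reduceFinMk] <;> linarith
  · intro i j hij
    fin_cases i <;> fin_cases j <;> simp only [Fin.zero_eta, Fin.mk_one, Fin.reduceFinMk] at hij ⊢ <;>
      first | exact absurd rfl hij | linarith
  · linarith
  · intro i j hij hne
    fin_cases i <;> fin_cases j <;> simp only [Fin.zero_eta, Fin.mk_one, Fin.reduceFinMk] at hij hne ⊢ <;>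
      first | exact absurd rfl hij | exact absurd ⟨by trivial, by trivial⟩ hne | linarith

theorem co_WA {M : Fr} (h : M ∈ co WA) : Reg M ∧ Half M ∧ M 0 2 < M 0 1 ∧ M 1 0 < M 1 2 ∧
    M 2 1 < M 2 0 := by
  obtain ⟨l0, p0, e0⟩ := h 0
  obtain ⟨l1, p1, e1⟩ := h 1
  obtain ⟨l2, p2, e2⟩ := h 2
  have a0 := p0 0
  have a1 := p0 1
  have a2 := p0 2
  have b0 := p1 0
  have b1 := p1 1
  have b2 := p1 2
  have c0 := p2 0
  have c1 := p2 1
  have c2 := p2 2
  have e00 := congrFun e0 0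
  have e01 := congrFun e0 1
  have e02 := congrFun e0 2
  have e10 := congrFun e1 0
  have e11 := congrFun e1 1
  have e12 := congrFun e1 2
  have e20 := congrFun e2 0
  have e21 := congrFun e2 1
  have e22 := congrFun e2 2
  simp [WA, Matrix.vecMul, dotProduct, Fin.sum_univ_three] at e00 e01 e02 e10 e11 e12 e20 e21 e22
  refine ⟨⟨?_, ?_, ?_⟩, ?_, ?_, ?_, ?_⟩
  · intro i j
    fin_cases i <;> fin_cases j <;> simp only [Fin.zero_eta, Fin.mk_one, Fin.reduceFinMk] <;> linarith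
  · intro i
    fin_cases i <;> simp only [Fin.zero_eta, Fin.mk_one, Fin.reduceFinMk] <;> linarith
  · intro i j hij
    fin_cases i <;> fin_cases j <;> simp only [Fin.zero_eta, Fin.mk_one, Fin.reduceFinMk] at hij ⊢ <;>
      first | exact absurd rfl hij | linarith
  · intro i j hij
    fin_cases i <;> fin_cases j <;> simp only [Fin.zero_eta, Fin.mk_one, Fin.reduceFinMk] at hij ⊢ <;>
      first | exact absurd rfl hij | linarith
  · linarith
  · linarith
  · linarith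

theorem perm_one (κ : Equiv.Perm (Fin 3)) (P : Fin 3 → Fin 3 → Fin 3 → Prop)
    (h : P (κ 0) (κ 1) (κ 2))
    (hn : ∀ a b c, a ≠ b → a ≠ c → b ≠ c → P a b c → a = 0 ∧ b = 1 ∧ c = 2) : κ = 1 := by
  obtain ⟨h0, h1, h2⟩ := hn _ _ _ (κ.injective.ne (by decide)) (κ.injective.ne (by decide))
    (κ.injective.ne (by decide)) h
  apply Equiv.ext
  intro i
  fin_cases i
  · exact h0
  · exact h1
  · exact h2

theorem WC_WC {M M' : Fr} {κ : Equiv.Perm (Fin 3)} (h : M ∈ co WC) (h' : M' ∈ co WC)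
    (e : ∀ i j, M' i j = M (κ i) (κ j)) : κ = 1 := by
  obtain ⟨-, -, q0, q1, q2⟩ := co_WC h
  obtain ⟨-, -, r0, r1, r2⟩ := co_WC h'
  rw [e, e] at r0 r1 r2
  refine perm_one κ (fun a b c => M a c < M a b ∧ M b a < M b c ∧ M c a < M c b) ⟨r0, r1, r2⟩ ?_
  rintro a b c hab hac hbc ⟨s0, s1, s2⟩
  fin_cases a <;> fin_cases b <;> fin_cases c <;>
    simp only [Fin.zero_eta, Fin.mk_one, Fin.reduceFinMk] at hab hac hbc s0 s1 s2 ⊢ <;>
    first
      | exact absurd rfl hab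
      | exact absurd rfl hac
      | exact absurd rfl hbc
      | exact ⟨by trivial, by trivial, by trivial⟩
      | (exfalso; linarith)

theorem WS_WS {M M' : Fr} {κ : Equiv.Perm (Fin 3)} (h : M ∈ co WS) (h' : M' ∈ co WS)
    (e : ∀ i j, M' i j = M (κ i) (κ j)) : κ = 1 := by
  obtain ⟨-, -, q⟩ := co_WS h
  obtain ⟨-, r, -⟩ := co_WS h'
  rw [e, e] at r
  have h01 : κ 1 ≠ κ 0 := κ.injective.ne (by decide)
  have h1 : κ 0 = 0 ∧ κ 1 = 1 := by
    by_contra hne
    have := q (κ 0) (κ 1) h01 hne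
    linarith
  apply Equiv.ext
  have h2 : κ 2 = 2 := by
    have a1 : κ 2 ≠ κ 0 := κ.injective.ne (by decide)
    have a2 : κ 2 ≠ κ 1 := κ.injective.ne (by decide)
    rw [h1.1] at a1
    rw [h1.2] at a2
    generalize κ 2 = x at a1 a2
    fin_cases x
    · exact absurd rfl a1
    · exact absurd rfl a2
    · rfl
  intro i
  fin_cases i
  · exact h1.1
  · exact h1.2
  · exact h2

theorem Half_WS {M M' : Fr} {κ : Equiv.Perm (Fin 3)} (h : Half M) (h' : M' ∈ co WS)
    (e : ∀ i j, M' i j = M (κ i) (κ j)) : False := by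
  obtain ⟨-, r, -⟩ := co_WS h'
  rw [e, e] at r
  have h01 : κ 1 ≠ κ 0 := κ.injective.ne (by decide)
  have := h (κ 0) (κ 1) h01
  linarith

theorem WA_WC {M M' : Fr} {κ : Equiv.Perm (Fin 3)} (h : M ∈ co WA) (h' : M' ∈ co WC)
    (e : ∀ i j, M' i j = M (κ i) (κ j)) : False := by
  obtain ⟨-, -, q0, q1, q2⟩ := co_WA h
  obtain ⟨-, -, r0, r1, r2⟩ := co_WC h'
  rw [e, e] at r0 r1 r2
  have hab : κ 0 ≠ κ 1 := κ.injective.ne (by decide)
  have hac : κ 0 ≠ κ 2 := κ.injective.ne (by decide)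
  have hbc : κ 1 ≠ κ 2 := κ.injective.ne (by decide)
  generalize κ 0 = a at *
  generalize κ 1 = b at *
  generalize κ 2 = c at *
  fin_cases a <;> fin_cases b <;> fin_cases c <;>
    simp only [Fin.zero_eta, Fin.mk_one, Fin.reduceFinMk] at hab hac hbc r0 r1 r2 <;>
    first
      | exact absurd rfl hab
      | exact absurd rfl hac
      | exact absurd rfl hbc
      | linarith

theorem fin_of_one {σ σ' : Equiv.Perm (Fin 3)} {ε ε' : Fin 3 → Bool} {τ τ' κ : Equiv.Perm (Fin 3)}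
    (h1 : σ' = σ * κ) (h2 : τ' = τ * κ) (h3 : ∀ i, ε' i = ε (κ i)) (hκ : κ = 1) :
    σ = σ' ∧ ε = ε' ∧ τ = τ' := by
  subst hκ
  refine ⟨by rw [h1, mul_one], ?_, by rw [h2, mul_one]⟩
  funext i
  rw [h3 i]
  rfl

theorem main : S_DIS := by
  intro N σ σ' ε ε' τ τ'
  refine ⟨?_, ?_, ?_, ?_, ?_⟩
  · intro h h'
    obtain ⟨κ, h1, h2, h3, h4⟩ := red (co_WC h).1 (co_WC h').1
    exact fin_of_one h1 h2 h3 (WC_WC h h' h4)
  · intro h h'
    obtain ⟨κ, h1, h2, h3, h4⟩ := red (co_WS h).1 (co_WS h').1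
    exact fin_of_one h1 h2 h3 (WS_WS h h' h4)
  · intro h h'
    obtain ⟨κ, h1, h2, h3, h4⟩ := red (co_WC h).1 (co_WS h').1
    exact Half_WS (co_WC h).2.1 h' h4
  · intro h h'
    rw [← Tr_one N] at h'
    obtain ⟨κ, h1, h2, h3, h4⟩ := red (co_WA h').1 (co_WC h).1
    exact WA_WC h' h h4
  · intro h h'
    rw [← Tr_one N] at h'
    obtain ⟨κ, h1, h2, h3, h4⟩ := red (co_WA h').1 (co_WS h).1
    exact Half_WS (co_WA h').2.1 h h4

end Pool.Agent.R69.KM.Dis
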