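import Pool.Agent.R69.KM.Stm

/-!
Project KM: KM-DOM, the two numerical comparisons.
-/

set_option autoImplicit false

namespace Pool.Agent.R69.KM.Dom

open Pool.Agent.R69.KM

theorem aVC0 : |(VC 0).det| = 1 := by
  simp [VC, Matrix.det_fin_three]

theorem aVC1 : |(VC 1).det| = 1 := by
  simp [VC, Matrix.det_fin_three]
  norm_num

theorem aVC2 : |(VC 2).det| = 1 := by
  simp [VC, Matrix.det_fin_three]

theorem aVS0 : |(VS 0).det| = 1 := by
  simp [VS, Matrix.det_fin_three]

theorem aVS1 : |(VS 1).det| = 1 := by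
  simp [VS, Matrix.det_fin_three]
  norm_num

theorem aVS2 : |(VS 2).det| = 1 := by
  simp [VS, Matrix.det_fin_three]
  norm_num

theorem aWC0 : |(WC 0).det| = 27 / 8 := by
  simp [WC, Matrix.det_fin_three]
  norm_num [abs_of_pos, abs_of_neg]

theorem aWC1 : |(WC 1).det| = 20 / 9 := by
  simp [WC, Matrix.det_fin_three]
  norm_num [abs_of_pos, abs_of_neg]

theorem aWC2 : |(WC 2).det| = 8 / 45 := by
  simp [WC, Matrix.det_fin_three]
  norm_num [abs_of_pos, abs_of_neg]

theorem aWS0 : |(WS 0).det| = 225 / 112 := by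
  simp [WS, Matrix.det_fin_three]
  norm_num [abs_of_pos, abs_of_neg]

theorem aWS1 : |(WS 1).det| = 49 / 8 := by
  simp [WS, Matrix.det_fin_three]
  norm_num [abs_of_pos, abs_of_neg]

theorem aWS2 : |(WS 2).det| = 512 / 4725 := by
  simp [WS, Matrix.det_fin_three]
  norm_num [abs_of_pos, abs_of_neg]

theorem ne_of_abs {x y : ℝ} (h : |x| = y) (hy : 0 < y) : x ≠ 0 := by
  rintro rfl
  rw [abs_zero] at h
  linarith

theorem cmpC (a b c : Fin 3) : 0 < dt3 WC a b c ∧ dt3 WC a b c ≤ -dt3 VC a b c := by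
  fin_cases a <;> fin_cases b <;> fin_cases c <;> (simp [dt3, dt, VC, WC]; try norm_num)

theorem cmpS (a b c : Fin 3) : 0 < dt3 WS a b c ∧ dt3 WS a b c ≤ -dt3 VS a b c := by
  fin_cases a <;> fin_cases b <;> fin_cases c <;> (simp [dt3, dt, VS, WS]; try norm_num)

theorem main : S_CMP → S_DOM := by
  intro h
  constructor
  · have h1 := h VC WC (by
      intro i
      fin_cases i
      · exact ne_of_abs aVC0 (by norm_num)
      · exact ne_of_abs aVC1 (by norm_num)
      · exact ne_of_abs aVC2 (by norm_num)) (by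
      intro i
      fin_cases i
      · exact ne_of_abs aWC0 (by norm_num)
      · exact ne_of_abs aWC1 (by norm_num)
      · exact ne_of_abs aWC2 (by norm_num)) cmpC
    rw [aVC0, aVC1, aVC2, aWC0, aWC1, aWC2] at h1
    have e : (1 * 1 * 1 / (27 / 8 * (20 / 9) * (8 / 45)) : ℝ) = 3 / 4 := by norm_num
    rwa [e] at h1
  · have h1 := h VS WS (by
      intro i
      fin_cases i
      · exact ne_of_abs aVS0 (by norm_num)
      · exact ne_of_abs aVS1 (by norm_num)
      · exact ne_of_abs aVS2 (by norm_num)) (by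
      intro i
      fin_cases i
      · exact ne_of_abs aWS0 (by norm_num)
      · exact ne_of_abs aWS1 (by norm_num)
      · exact ne_of_abs aWS2 (by norm_num)) cmpS
    rw [aVS0, aVS1, aVS2, aWS0, aWS1, aWS2] at h1
    have e : (1 * 1 * 1 / (225 / 112 * (49 / 8) * (512 / 4725)) : ℝ) = 3 / 4 := by norm_num
    rwa [e] at h1

end Pool.Agent.R69.KM.Dom
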