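import Pool.Agent.R69.KM.Stm2

/-!
Project KM, part 2 (MP_8a8f75_nt), piece EQ, by helper609: the unit triangles at integer distance
one and two have the same frequency.
-/

set_option autoImplicit false

open MeasureTheory
open scoped ENNReal

namespace Pool.Agent.R69.KM.Eq

open Pool.Agent.R69.Klein Pool.Agent.R69.KM

/-- the standard basis -/
noncomputable def E (i : Fin (2 + 1)) : Sp 2 := toR (Pi.single i 1 : Fin (2 + 1) → ℤ)

theorem E_zero : E 0 = ![1, 0, 0] := by
  ext j
  fin_cases j <;> simp [E, toR]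

theorem E_one : E 1 = ![0, 1, 0] := by
  ext j
  fin_cases j <;> simp [E, toR]

theorem E_two : E 2 = ![0, 0, 1] := by
  ext j
  fin_cases j <;> simp [E, toR]

theorem SX_hull : SX = convexHull ℝ (Set.range E) := by
  unfold SX
  congr 1
  rw [← E_zero, ← E_one, ← E_two]
  ext x
  simp only [Set.mem_insert_iff, Set.mem_singleton_iff, Set.mem_range]
  constructor
  · rintro (rfl | rfl | rfl)
    · exact ⟨0, rfl⟩
    · exact ⟨1, rfl⟩
    · exact ⟨2, rfl⟩
  · rintro ⟨i, rfl⟩
    fin_cases i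
    · exact Or.inl rfl
    · exact Or.inr (Or.inl rfl)
    · exact Or.inr (Or.inr rfl)

theorem E_mem (i : Fin (2 + 1)) : E i ∈ SX := by
  rw [SX_hull]
  exact subset_convexHull ℝ _ ⟨i, rfl⟩

/-- the coordinates of the points of the simplex are nonnegative -/
theorem SX_nonneg {x : Sp 2} (hx : x ∈ SX) (i : Fin (2 + 1)) : 0 ≤ x i := by
  rw [SX_hull] at hx
  have hc : Convex ℝ {y : Sp 2 | 0 ≤ y i} :=
    (convex_Ici (0 : ℝ)).linear_preimage (LinearMap.proj i : Sp 2 →ₗ[ℝ] ℝ)
  refine convexHull_min ?_ hc hx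
  rintro _ ⟨j, rfl⟩
  show (0 : ℝ) ≤ E j i
  by_cases h : i = j
  · subst h
    simp [E, toR]
  · simp [E, toR, h]

theorem phi_eq (φ : Sp 2 →ₗ[ℝ] ℝ) (b : ℝ) (h : ∀ i, φ (E i) = b) (x : Sp 2) :
    φ x = b * (x 0 + x 1 + x 2) := by
  have hx : x = x 0 • E 0 + x 1 • E 1 + x 2 • E 2 := by
    rw [E_zero, E_one, E_two]
    ext j
    fin_cases j <;> simp
  conv_lhs => rw [hx]
  rw [map_add, map_add, map_smul, map_smul, map_smul, h, h, h]
  simp only [smul_eq_mul]
  ring

/-- determinants -/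
def d3 (a b c : Fin 3 → ℤ) : ℤ :=
  a 0 * (b 1 * c 2 - b 2 * c 1) - a 1 * (b 0 * c 2 - b 2 * c 0) + a 2 * (b 0 * c 1 - b 1 * c 0)

theorem cram (a b c z : Fin 3 → ℤ) (x y t : ℝ)
    (h : ∀ j, (z j : ℝ) = x * a j + y * b j + t * c j) :
    (d3 z b c : ℝ) = x * d3 a b c ∧ (d3 a z c : ℝ) = y * d3 a b c ∧
      (d3 a b z : ℝ) = t * d3 a b c := by
  unfold d3
  push_cast
  rw [h 0, h 1, h 2]
  refine ⟨?_, ?_, ?_⟩ <;> ring

theorem diff (a b c z s : Fin 3 → ℤ) (x y t : ℝ)
    (h : ∀ j, (z j : ℝ) = x * a j + y * b j + t * c j)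
    (hs : ∀ j, (s j : ℝ) = ((a j : ℝ) + b j + c j) / 2) :
    2 * (d3 z s c : ℝ) = (x - y) * d3 a b c ∧ 2 * (d3 a z s : ℝ) = (y - t) * d3 a b c := by
  unfold d3
  push_cast
  rw [h 0, h 1, h 2, hs 0, hs 1, hs 2]
  refine ⟨?_, ?_⟩ <;> ring

theorem half {w : Matrix (Fin 3) (Fin 3) ℤ}
    (hdet : w.det.natAbs = 1 ∨ (w.det.natAbs = 2 ∧ ∀ j, (2 : ℤ) ∣ w 0 j + w 1 j + w 2 j))
    (hW : LinearIndependent ℝ (fun i => toR (n := 2) (w i))) (y : Sp 2) (hy : IsInt y) :
    IsInt ((autOf hW).symm y) ∨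
      ∃ k : Fin (2 + 1) → ℤ, ∀ i, (autOf hW).symm y i = k i + 1 / 2 := by
  obtain ⟨z, rfl⟩ := exists_toR hy
  obtain ⟨c, hc⟩ : ∃ c : Sp 2, c = (autOf hW).symm (toR z) := ⟨_, rfl⟩
  have hAc : autOf hW c = toR z := by
    rw [hc]
    simp
  have hz : ∀ j, (z j : ℝ) = c 0 * w 0 j + c 1 * w 1 j + c 2 * w 2 j := by
    intro j
    have h := congrFun hAc j
    rw [autOf_apply, Fin.sum_univ_three] at h
    simp only [Pi.add_apply, Pi.smul_apply, smul_eq_mul, toR] at h
    exact h.symm
  rw [← hc]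
  have hd : w.det = d3 (w 0) (w 1) (w 2) := by
    rw [Matrix.det_fin_three]
    unfold d3
    ring
  obtain ⟨c0, c1, c2⟩ := cram (w 0) (w 1) (w 2) z (c 0) (c 1) (c 2) hz
  rw [hd] at hdet
  rcases hdet with h1 | ⟨h2, hpar⟩
  · left
    rcases Int.natAbs_eq (d3 (w 0) (w 1) (w 2)) with h | h
    · rw [h1] at h
      rw [h] at c0 c1 c2
      intro i
      fin_cases i
      · exact ⟨d3 z (w 1) (w 2), by rw [c0]; simp⟩
      · exact ⟨d3 (w 0) z (w 2), by rw [c1]; simp⟩
      · exact ⟨d3 (w 0) (w 1) z, by rw [c2]; simp⟩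
    · rw [h1] at h
      rw [h] at c0 c1 c2
      intro i
      fin_cases i
      · exact ⟨-d3 z (w 1) (w 2), by push_cast; rw [c0]; simp⟩
      · exact ⟨-d3 (w 0) z (w 2), by push_cast; rw [c1]; simp⟩
      · exact ⟨-d3 (w 0) (w 1) z, by push_cast; rw [c2]; simp⟩
  · choose s hs using hpar
    have hs' : ∀ j, (s j : ℝ) = ((w 0 j : ℝ) + w 1 j + w 2 j) / 2 := by
      intro j
      have h := congrArg (fun n : ℤ => (n : ℝ)) (hs j)
      push_cast at h
      linarith
    obtain ⟨e1, e2⟩ := diff (w 0) (w 1) (w 2) z s (c 0) (c 1) (c 2) hz hs'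
    obtain ⟨m, p, q, hm, hp, hq⟩ : ∃ m p q : ℤ, 2 * c 0 = m ∧ c 0 - c 1 = p ∧ c 1 - c 2 = q := by
      rcases Int.natAbs_eq (d3 (w 0) (w 1) (w 2)) with h | h
      · rw [h2] at h
        rw [h] at c0 e1 e2
        push_cast at c0 e1 e2
        exact ⟨d3 z (w 1) (w 2), d3 z s (w 2), d3 (w 0) z s, by linarith, by linarith,
          by linarith⟩
      · rw [h2] at h
        rw [h] at c0 e1 e2
        push_cast at c0 e1 e2
        refine ⟨-d3 z (w 1) (w 2), -d3 z s (w 2), -d3 (w 0) z s, ?_, ?_, ?_⟩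
        · push_cast
          linarith
        · push_cast
          linarith
        · push_cast
          linarith
    rcases Int.even_or_odd' m with ⟨k, hk | hk⟩
    · left
      rw [hk] at hm
      push_cast at hm
      intro i
      fin_cases i
      · exact ⟨k, by show c 0 = _; linarith⟩
      · exact ⟨k - p, by show c 1 = _; push_cast; linarith⟩
      · exact ⟨k - p - q, by show c 2 = _; push_cast; linarith⟩
    · right
      rw [hk] at hm
      push_cast at hm
      refine ⟨![k, k - p, k - p - q], fun i => ?_⟩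
      fin_cases i
      · show c 0 = (k : ℝ) + 1 / 2
        linarith
      · show c 1 = ((k - p : ℤ) : ℝ) + 1 / 2
        push_cast
        linarith
      · show c 2 = ((k - p - q : ℤ) : ℝ) + 1 / 2
        push_cast
        linarith

theorem push (A : Sp 2 ≃ₗ[ℝ] Sp 2) (hA : ∀ x, IsInt x → IsInt (A x))
    (hinv : ∀ y, IsInt y → IsInt (A.symm y) ∨
      ∃ k : Fin (2 + 1) → ℤ, ∀ i, A.symm y i = k i + 1 / 2) {c : CF 2} (hc : HasFace c SX) :
    HasFace (act A c) (A '' SX) := by
  obtain ⟨u, hu, hcu, φ, b, hφ, hK, hF, hdim⟩ := hc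
  have hmem : ∀ x, x ∈ SX ↔ x ∈ hull u ∧ φ x = b := by
    intro x
    constructor
    · intro hx
      rw [hF] at hx
      exact hx
    · intro hx
      rw [hF]
      exact hx
  have hb : 0 < b := by
    refine facet_pos (W := Set.range E) (Set.finite_range E) ?_ hu hK ?_ (Set.range_nonempty _)
    · rintro _ ⟨i, rfl⟩
      exact isInt_toR _
    · rw [← SX_hull]
      exact hF
  have hφ' : ∀ x, φ x = b * (x 0 + x 1 + x 2) :=
    phi_eq φ b (fun i => ((hmem _).1 (E_mem i)).2)
  have key : ∀ y, y ∈ cone (fun i => A (u i)) → IsInt y → y ≠ 0 →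
      b ≤ φ (A.symm y) ∧ (φ (A.symm y) = b → A.symm y ∈ SX) := by
    intro y hy hyi hy0
    have hxc : A.symm y ∈ cone u := by
      obtain ⟨d, hd, rfl⟩ := hy
      exact ⟨d, hd, by simp [map_sum]⟩
    have hx0 : A.symm y ≠ 0 := fun h => hy0 (by simpa using h)
    rcases hinv y hyi with hxi | ⟨k, hk⟩
    · have hxh : A.symm y ∈ hull u := subset_convexHull ℝ _ ⟨hxc, hxi, hx0⟩
      exact ⟨hK _ hxh, fun h => (hmem _).2 ⟨hxh, h⟩⟩
    · have h2c : (2 : ℝ) • A.symm y ∈ cone u := by
        obtain ⟨d, hd, hde⟩ := hxc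
        refine ⟨fun i => 2 * d i, fun i => ?_, ?_⟩
        · have := hd i
          positivity
        · rw [← hde, Finset.smul_sum]
          exact Finset.sum_congr rfl fun i _ => by rw [mul_smul]
      have h2i : IsInt ((2 : ℝ) • A.symm y) := fun i => ⟨2 * k i + 1, by
        rw [Pi.smul_apply, hk i, smul_eq_mul]
        push_cast
        ring⟩
      have h2h : (2 : ℝ) • A.symm y ∈ hull u :=
        subset_convexHull ℝ _ ⟨h2c, h2i, smul_ne_zero two_ne_zero hx0⟩
      have h3 : b ≤ φ ((2 : ℝ) • A.symm y) := hK _ h2h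
      obtain ⟨M, hMd⟩ : ∃ M : ℤ, M = 2 * (k 0 + k 1 + k 2) + 3 := ⟨_, rfl⟩
      have h4 : φ (A.symm y) = b * ((M : ℝ) / 2) := by
        rw [hφ', hk 0, hk 1, hk 2, hMd]
        push_cast
        ring
      rw [map_smul, smul_eq_mul, h4] at h3
      have hM : 1 ≤ M := by
        have h5 : (1 : ℝ) ≤ M := by
          by_contra hcon
          push Not at hcon
          nlinarith
        exact_mod_cast h5
      have hM1 : M ≠ 1 := by
        intro hM1
        have h6 : (2 : ℝ) • A.symm y ∈ SX := (hmem _).2 ⟨h2h, by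
          rw [map_smul, h4, hM1, smul_eq_mul]
          push_cast
          ring⟩
        have hk0 : ∀ i, 0 ≤ k i := by
          intro i
          have h7 := SX_nonneg h6 i
          rw [Pi.smul_apply, hk i, smul_eq_mul] at h7
          have h8 : (0 : ℝ) ≤ ((2 * k i + 1 : ℤ) : ℝ) := by
            push_cast
            linarith
          have h9 : 0 ≤ 2 * k i + 1 := by exact_mod_cast h8
          omega
        have := hk0 0
        have := hk0 1
        have := hk0 2
        omega
      have hM3 : 3 ≤ M := by omega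
      have hlt : b < φ (A.symm y) := by
        rw [h4]
        have h5 : (3 : ℝ) ≤ M := by exact_mod_cast hM3
        nlinarith
      exact ⟨hlt.le, fun h => absurd h hlt.ne'⟩
  have hgen : ∀ y ∈ {y | y ∈ cone (fun i => A (u i)) ∧ IsInt y ∧ y ≠ 0},
      b ≤ (φ.comp A.symm.toLinearMap) y := fun y hy => (key y hy.1 hy.2.1 hy.2.2).1
  refine ⟨fun i => A (u i), li_map A hu, act_range A c hcu, φ.comp A.symm.toLinearMap, b,
    ?_, ?_, ?_, ?_⟩
  · intro h
    apply hφ
    ext x
    have := congrArg (fun f => f (A (Pi.single x 1))) h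
    simpa using this
  · have hcv : Convex ℝ {x : Sp 2 | b ≤ (φ.comp A.symm.toLinearMap) x} :=
      (convex_Ici b).linear_preimage (φ.comp A.symm.toLinearMap)
    exact convexHull_min hgen hcv
  · apply Set.Subset.antisymm
    · rintro _ ⟨x, hx, rfl⟩
      obtain ⟨hx1, hx2⟩ := (hmem x).1 hx
      refine ⟨?_, ?_⟩
      · have h1 : A x ∈ A.toLinearMap '' convexHull ℝ {x | x ∈ cone u ∧ IsInt x ∧ x ≠ 0} :=
          ⟨x, hx1, rfl⟩
        rw [LinearMap.image_convexHull] at h1
        refine convexHull_mono ?_ h1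
        rintro _ ⟨v, ⟨hv1, hv2, hv3⟩, rfl⟩
        refine ⟨?_, hA v hv2, fun h => hv3 (by simpa using h)⟩
        obtain ⟨d, hd, rfl⟩ := hv1
        exact ⟨d, hd, by simp [map_sum]⟩
      · show φ (A.symm (A x)) = b
        rw [LinearEquiv.symm_apply_apply]
        exact hx2
    · rintro y ⟨hy, hyb⟩
      have h1 := mem_convexHull_face hgen hy hyb
      have hcv : Convex ℝ (A '' SX) := by
        have h2 : Convex ℝ SX := convex_convexHull ℝ _
        exact h2.linear_image A.toLinearMap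
      refine convexHull_min ?_ hcv h1
      rintro s ⟨⟨hs1, hs2, hs3⟩, hs4⟩
      exact ⟨A.symm s, (key s hs1 hs2 hs3).2 hs4, by simp⟩
  · have h1 : vectorSpan ℝ (A '' SX) = (vectorSpan ℝ SX).map A.toLinearMap := by
      have h2 := AffineMap.map_vectorSpan (A.toLinearMap.toAffineMap) (s := SX)
      exact h2.symm
    rw [h1]
    have h3 := LinearEquiv.finrank_map_eq A (vectorSpan ℝ SX)
    exact h3.trans hdim

theorem tri_eq {w : Matrix (Fin 3) (Fin 3) ℤ}
    (hW : LinearIndependent ℝ (fun i => toR (n := 2) (w i))) : tri w = autOf hW '' SX := by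
  have h1 : autOf hW '' SX = (autOf hW).toLinearMap '' convexHull ℝ (Set.range E) := by
    rw [← SX_hull]
    rfl
  rw [h1, LinearMap.image_convexHull, ← Set.range_comp]
  unfold tri
  congr 2
  funext i
  exact (autOf_single hW i).symm

theorem main : S_INV → S_EQ := by
  intro hinv F hF
  obtain ⟨w, rfl, hdet⟩ := hF
  have hd : w.det ≠ 0 := by
    intro h
    rw [h] at hdet
    simp at hdet
  have hW : LinearIndependent ℝ (fun i => toR (n := 2) (w i)) := by
    refine li_of_dt_ne_zero ?_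
    have h1 := dt_toR (n := 2) (fun i j => w i j)
    have h2 : (Matrix.of fun i j => w i j) = w := rfl
    rw [h2] at h1
    intro h3
    have h4 : ((w.det : ℤ) : ℝ) = 0 := h1.symm.trans h3
    exact hd (by exact_mod_cast h4)
  have htri := tri_eq hW
  have hint := isInt_autOf hW (fun i => isInt_toR _)
  apply le_antisymm
  · have h := measure_le hinv (autOf hW) hint (F := tri w) (li_std (n := 2))
      (fun i => ⟨isInt_toR _, by
        rw [htri]
        exact ⟨_, E_mem i, rfl⟩⟩)
    have e : convexHull ℝ {x | IsInt x ∧ autOf hW x ∈ tri w} = SX := by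
      apply Set.Subset.antisymm
      · have hcv : Convex ℝ SX := convex_convexHull ℝ _
        refine convexHull_min ?_ hcv
        rintro x ⟨_, hx⟩
        rw [htri] at hx
        obtain ⟨x', hx', hxx⟩ := hx
        rw [← (autOf hW).injective hxx]
        exact hx'
      · rw [SX_hull]
        refine convexHull_mono ?_
        rintro _ ⟨i, rfl⟩
        refine ⟨isInt_toR _, ?_⟩
        rw [htri]
        exact ⟨_, E_mem i, rfl⟩
    rwa [e] at h
  · rw [← measure_preimage hinv (autOf hW) (withFace (tri w))]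
    refine measure_mono fun c hc => ?_
    show HasFace (act (autOf hW) c) (tri w)
    rw [htri]
    exact push (autOf hW) hint (half hdet hW) hc

end Pool.Agent.R69.KM.Eq
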