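import Pool.Agent.R69.KM.Stm

set_option autoImplicit false

namespace Pool.Agent.R69.KM.Face

open Pool.Agent.R69.Klein

/-- value of the `i`-th row -/
def va (N : Fr) (i : Fin 3) (x : Fin 3 → ℝ) : ℝ := N i 0 * x 0 + N i 1 * x 1 + N i 2 * x 2

theorem va_sum (N : Fr) (c : Fin 3 → ℝ) (i : Fin 3) :
    va N i (∑ j : Fin (2 + 1), c j • ray N j) = c i * dt N := by
  have h : ∀ k : Fin 3, (∑ j : Fin (2 + 1), c j • ray N j) k =
      c 0 * ray N 0 k + c 1 * ray N 1 k + c 2 * ray N 2 k := by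
    intro k
    rw [Fin.sum_univ_three]
    simp
  unfold va
  rw [h 0, h 1, h 2]
  fin_cases i <;> simp [ray, cr, dt] <;> ring

theorem cramer (N : Fr) (x : Fin 3 → ℝ) :
    ∑ j : Fin (2 + 1), va N j x • ray N j = dt N • x := by
  funext k
  have h : (∑ j : Fin (2 + 1), va N j x • ray N j) k =
      va N 0 x * ray N 0 k + va N 1 x * ray N 1 k + va N 2 x * ray N 2 k := by
    rw [Fin.sum_univ_three]
    simp
  rw [h]
  fin_cases k <;> simp [ray, cr, dt, va] <;> ring

theorem mem_cone {N : Fr} (h : 0 < dt N) (x : Sp 2) :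
    x ∈ cone (ray N) ↔ ∀ i, 0 ≤ va N i x := by
  constructor
  · rintro ⟨c, hc, rfl⟩ i
    rw [va_sum]
    exact mul_nonneg (hc i) h.le
  · intro hx
    refine ⟨fun i => va N i x / dt N, fun i => div_nonneg (hx i) h.le, ?_⟩
    have h1 : (∑ i : Fin (2 + 1), (va N i x / dt N) • ray N i) = (dt N)⁻¹ • (dt N • x) := by
      rw [← cramer, Finset.smul_sum]
      refine Finset.sum_congr rfl fun i _ => ?_
      rw [smul_smul, div_eq_inv_mul]
    rw [h1, smul_smul, inv_mul_cancel₀ h.ne', one_smul]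

/-- the sum of the coordinates -/
def ph : Sp 2 →ₗ[ℝ] ℝ where
  toFun x := x 0 + x 1 + x 2
  map_add' x y := by simp only [Pi.add_apply]; ring
  map_smul' c x := by simp only [Pi.smul_apply, smul_eq_mul, RingHom.id_apply]; ring

theorem ph_apply (x : Sp 2) : ph x = x 0 + x 1 + x 2 := rfl

def ee : Fin (2 + 1) → Sp 2 := ![![1, 0, 0], ![0, 1, 0], ![0, 0, 1]]

theorem range_ee : Set.range ee = {![1, 0, 0], ![0, 1, 0], ![0, 0, 1]} := by
  ext x
  constructor
  · rintro ⟨i, rfl⟩
    fin_cases i <;> simp [ee]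
  · rintro (rfl | rfl | rfl)
    · exact ⟨0, rfl⟩
    · exact ⟨1, rfl⟩
    · exact ⟨2, rfl⟩

theorem SX_eq : SX = convexHull ℝ (Set.range ee) := by
  rw [range_ee]
  rfl

theorem li_ee : LinearIndependent ℝ ee := by
  apply li_of_dt (N := ee)
  simp [dt, ee]

theorem ph_ee (i : Fin (2 + 1)) : ph (ee i) = 1 := by
  rw [ph_apply]
  fin_cases i <;> simp [ee]

theorem int_ee (i : Fin (2 + 1)) : IsInt (ee i) := by
  intro j
  refine ⟨if i = j then 1 else 0, ?_⟩
  fin_cases i <;> fin_cases j <;> simp [ee]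

theorem finrank_SX : Module.finrank ℝ (vectorSpan ℝ SX) = 2 := by
  have h1 : vectorSpan ℝ SX = vectorSpan ℝ (Set.range ee) := by
    rw [SX_eq, ← direction_affineSpan, affineSpan_convexHull, direction_affineSpan]
  rw [h1]
  exact li_ee.affineIndependent.finrank_vectorSpan (by simp)

theorem va_ee {N : Fr} (hN : N ∈ ER) (i : Fin 3) (j : Fin (2 + 1)) : 0 ≤ va N i (ee j) := by
  have h0 := hN 0
  have h1 := hN 1
  have h2 := hN 2
  simp only [Fin.isValue, zero_add, show (1 : Fin 3) + 1 = 2 from rfl,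
    show (1 : Fin 3) + 2 = 0 from rfl, show (2 : Fin 3) + 1 = 0 from rfl,
    show (2 : Fin 3) + 2 = 1 from rfl] at h0 h1 h2
  obtain ⟨a0, b0, c0, -⟩ := h0
  obtain ⟨a1, b1, c1, -⟩ := h1
  obtain ⟨a2, b2, c2, -⟩ := h2
  fin_cases i <;> fin_cases j <;> simp [va, ee] <;> linarith

theorem main : S_LAT → S_FACE := by
  intro hL N hN hd
  obtain ⟨hL1, hL2⟩ := hL N hN
  have hpos : ∀ x ∈ {x : Sp 2 | x ∈ cone (ray N) ∧ IsInt x ∧ x ≠ 0}, 1 ≤ ph x := by
    rintro x ⟨hx, hi, h0⟩
    have h1 : 0 < x 0 + x 1 + x 2 := hL2 x ((mem_cone hd x).1 hx) h0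
    obtain ⟨z, rfl⟩ := exists_toR hi
    rw [ph_apply]
    simp only [toR] at h1 ⊢
    have h2 : 0 < z 0 + z 1 + z 2 := by exact_mod_cast h1
    have h3 : 1 ≤ z 0 + z 1 + z 2 := h2
    exact_mod_cast h3
  refine ⟨ray N, li_ray hd.ne', ?_, ph, 1, ?_, ?_, ?_, finrank_SX⟩
  · unfold lns
    rw [dif_pos hd.ne']
  · intro h
    have := ph_ee 0
    rw [h] at this
    simp at this
  · have hcv : Convex ℝ {x : Sp 2 | 1 ≤ ph x} := (convex_Ici (1 : ℝ)).linear_preimage ph
    exact fun x hx => convexHull_min hpos hcv hx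
  · rw [SX_eq]
    apply Set.Subset.antisymm
    · apply convexHull_min
      · rintro _ ⟨i, rfl⟩
        refine ⟨subset_convexHull ℝ _ ⟨(mem_cone hd _).2 fun k => va_ee hN k i, int_ee i, ?_⟩,
          ph_ee i⟩
        intro h
        have := ph_ee i
        rw [h, map_zero] at this
        norm_num at this
      · have h1 : Convex ℝ {x : Sp 2 | ph x = 1} := (convex_singleton (1 : ℝ)).linear_preimage ph
        exact (convex_convexHull ℝ _).inter h1
    · rintro x ⟨hx, hxb⟩
      refine convexHull_mono ?_ (mem_convexHull_face hpos hx hxb)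
      rintro s ⟨⟨hs1, hs2, hs3⟩, hs4⟩
      obtain ⟨z, rfl⟩ := exists_toR hs2
      rw [ph_apply] at hs4
      have h1 : z 0 + z 1 + z 2 = 1 := by
        simp only [toR] at hs4
        exact_mod_cast hs4
      have h2 := hL1 z h1 ((mem_cone hd _).1 hs1)
      rw [range_ee]
      rcases h2 with h2 | h2 | h2
      · left
        rw [h2]
        funext k
        fin_cases k <;> simp [toR]
      · right
        left
        rw [h2]
        funext k
        fin_cases k <;> simp [toR]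
      · right
        right
        rw [h2]
        funext k
        fin_cases k <;> simp [toR]

end Pool.Agent.R69.KM.Face
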