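import Pool.Agent.R69.KM.Stm2

/-!
KM2-FARP: an explicit matrix.
-/

set_option autoImplicit false

namespace Pool.Agent.R69.KM.Farp

open Pool.Agent.R69.KM

/-- the parameters -/
theorem params {a b q : ℝ} (ha : a < 0) (hb : 0 < b) (hq : 0 ≤ q) (hab : -a < b)
    (h : 0 < q ∨ -(2 * a) < b) :
    ∃ η c ε : ℝ, 0 < η ∧ η < 1 / 2 ∧ -a < (1 - η) * b ∧ 2 < c ∧ 0 < ε ∧ 4 * (c * ε) ≤ 1 ∧
      4 * ε ≤ 1 ∧ 0 < q + ε * b + c * ε * a := by
  have e1 : 0 < (b + a) / (2 * b) := div_pos (by linarith) (by linarith)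
  have e2 : (b + a) / (2 * b) < 1 / 2 := by
    rw [div_lt_div_iff₀ (by linarith) (by norm_num)]
    linarith
  have e3 : (1 - (b + a) / (2 * b)) * b = (b - a) / 2 := by
    field_simp
    ring
  rcases h with h | h
  · have m1 : 0 < min (1 / 12 : ℝ) (q / (-(6 * a))) :=
      lt_min (by norm_num) (div_pos h (by linarith))
    have m2 : min (1 / 12 : ℝ) (q / (-(6 * a))) ≤ 1 / 12 := min_le_left _ _
    have m3 : min (1 / 12 : ℝ) (q / (-(6 * a))) * (-(6 * a)) ≤ q := by
      have := min_le_right (1 / 12 : ℝ) (q / (-(6 * a)))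
      rwa [le_div_iff₀ (by linarith)] at this
    refine ⟨(b + a) / (2 * b), 3, min (1 / 12 : ℝ) (q / (-(6 * a))), e1, e2, ?_, by norm_num, m1,
      by linarith, by linarith, ?_⟩
    · rw [e3]
      linarith
    · have m4 := mul_pos m1 hb
      linarith
  · have c1 : 2 < (b - 2 * a) / (-(2 * a)) := by
      rw [lt_div_iff₀ (by linarith)]
      linarith
    have c2 : (b - 2 * a) / (-(2 * a)) * a = -(b - 2 * a) / 2 := by
      have : a ≠ 0 := ha.ne
      field_simp
    have c0 : 0 < (b - 2 * a) / (-(2 * a)) := by linarith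
    have c3 : (b - 2 * a) / (-(2 * a)) * (1 / (4 * ((b - 2 * a) / (-(2 * a))))) = 1 / 4 := by
      have aux : ∀ x : ℝ, 0 < x → x * (1 / (4 * x)) = 1 / 4 := by
        intro x hx
        field_simp
      exact aux _ c0
    have c4 : 0 < 1 / (4 * ((b - 2 * a) / (-(2 * a)))) := by positivity
    refine ⟨(b + a) / (2 * b), (b - 2 * a) / (-(2 * a)), 1 / (4 * ((b - 2 * a) / (-(2 * a)))),
      e1, e2, ?_, c1, c4, ?_, ?_, ?_⟩
    · rw [e3]
      linarith
    · rw [c3]
      norm_num
    · nlinarith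
    · have c5 : (b - 2 * a) / (-(2 * a)) * (1 / (4 * ((b - 2 * a) / (-(2 * a))))) * a =
          1 / (4 * ((b - 2 * a) / (-(2 * a)))) * (-(b - 2 * a) / 2) := by
        rw [← c2]
        ring
      rw [c5]
      have c6 : 0 < 1 / (4 * ((b - 2 * a) / (-(2 * a)))) * ((b + 2 * a) / 2) :=
        mul_pos c4 (by linarith)
      have c7 : 1 / (4 * ((b - 2 * a) / (-(2 * a)))) * b +
          1 / (4 * ((b - 2 * a) / (-(2 * a)))) * (-(b - 2 * a) / 2) =
          1 / (4 * ((b - 2 * a) / (-(2 * a)))) * ((b + 2 * a) / 2) := by ring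
      linarith

/-- the matrix -/
noncomputable def Mt (i j : Fin 3) (η c ε : ℝ) : Fr := fun r s =>
  if r = s then 1 else if r = i then (if s = j then 1 - η else η / 2)
    else if r = j then ε else (if s = j then ε else c * ε)

theorem main : S_FARP := by
  intro p i j k hij hjk hik ha hb hq hab h
  obtain ⟨η, c, ε, h1, h2, h3, h4, h5, h6, h7, h8⟩ := params ha hb hq hab h
  have g1 : 0 < c * ε := mul_pos (by linarith) h5
  have g2 : 2 * ε < c * ε := mul_lt_mul_of_pos_right h4 h5
  have g3 : 0 ≤ η / 2 * p k := mul_nonneg (by linarith) hq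
  have g4 : 0 ≤ ε * p k := mul_nonneg h5.le hq
  have g5 : ε * (-p i) ≤ 1 / 4 * p j := by nlinarith
  refine ⟨Mt i j η c ε, ?_, ?_⟩
  · intro r
    fin_cases i <;> fin_cases j <;> fin_cases k <;> simp at hij hjk hik <;>
      fin_cases r <;> simp [Mt] <;> (repeat' apply And.intro) <;>
      first
      | linarith
      | (left; linarith)
      | (right; linarith)
  · intro r
    fin_cases i <;> fin_cases j <;> fin_cases k <;> simp at hij hjk hik <;>
      fin_cases r <;> simp [Mt, vl] at * <;> linarith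

end Pool.Agent.R69.KM.Farp
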