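import Pool.Agent.R69.KM.Stm

set_option autoImplicit false

open MeasureTheory
open scoped ENNReal

namespace Pool.Agent.R69.KM.Fin

open Pool.Agent.R69.Klein Pool.Agent.R69.KM

theorem dt_expand (V : Fin 3 → Matrix (Fin 3) (Fin 3) ℝ) (l : Fin 3 → Fin 3 → ℝ) (N : Fr)
    (h : ∀ i, N i = Matrix.vecMul (l i) (V i)) :
    dt N = ∑ a, ∑ b, ∑ c, l 0 a * l 1 b * l 2 c * dt3 V a b c := by
  simp only [dt, dt3, h, Matrix.vecMul, dotProduct, Fin.sum_univ_three, Matrix.cons_val_zero,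
    Matrix.cons_val_one, Matrix.cons_val]
  ring

theorem sum_prod (l : Fin 3 → Fin 3 → ℝ) :
    ∑ a, ∑ b, ∑ c, l 0 a * l 1 b * l 2 c = (∑ a, l 0 a) * (∑ a, l 1 a) * (∑ a, l 2 a) := by
  simp only [Fin.sum_univ_three]
  ring

theorem rho_le (V : Fin 3 → Matrix (Fin 3) (Fin 3) ℝ)
    (hV : ∀ i a j, 0 ≤ V i a j ∧ V i a j ≤ 4) (hd : ∀ a b c, dt3 V a b c ≤ -1) (N : Fr)
    (hN : N ∈ cc V) (hB : N ∈ Bx) : rho N ≤ ENNReal.ofReal (4 ^ 9) := by
  choose l hl hl' using hN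
  have hs : ∀ i, 1 / 4 ≤ ∑ a, l i a := by
    intro i
    have h1 : ‖N i‖ ≤ 4 * ∑ a, l i a := by
      rw [pi_norm_le_iff_of_nonneg (mul_nonneg (by norm_num) (Finset.sum_nonneg fun a _ => hl i a))]
      intro j
      rw [hl' i]
      simp only [Matrix.vecMul, dotProduct]
      rw [Real.norm_of_nonneg (Finset.sum_nonneg fun a _ => mul_nonneg (hl i a) (hV i a j).1),
        Finset.mul_sum]
      refine Finset.sum_le_sum fun a _ => ?_
      have := mul_le_mul_of_nonneg_left (hV i a j).2 (hl i a)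
      linarith
    have h2 := (hB i).1
    linarith
  have hdt : (1 / 4) ^ 3 ≤ -dt N := by
    have h1 : (∑ a, l 0 a) * (∑ a, l 1 a) * (∑ a, l 2 a) ≤ -dt N := by
      rw [dt_expand V l N hl', ← sum_prod, ← Finset.sum_neg_distrib]
      refine Finset.sum_le_sum fun a _ => ?_
      rw [← Finset.sum_neg_distrib]
      refine Finset.sum_le_sum fun b _ => ?_
      rw [← Finset.sum_neg_distrib]
      refine Finset.sum_le_sum fun c _ => ?_
      have h0 : 0 ≤ l 0 a * l 1 b * l 2 c := mul_nonneg (mul_nonneg (hl 0 a) (hl 1 b)) (hl 2 c)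
      nlinarith [hd a b c]
    have h2 : (1 / 4 : ℝ) ^ 3 ≤ (∑ a, l 0 a) * (∑ a, l 1 a) * (∑ a, l 2 a) := by
      have e : (1 / 4 : ℝ) ^ 3 = 1 / 4 * (1 / 4) * (1 / 4) := by norm_num
      rw [e]
      have h0 := hs 0
      have h1 := hs 1
      have h2 := hs 2
      gcongr
    linarith
  have habs : (1 / 4) ^ 3 ≤ |dt N| := hdt.trans (neg_le_abs _)
  unfold rho
  refine ENNReal.ofReal_le_ofReal ?_
  rw [inv_le_comm₀ (by positivity) (by positivity)]
  calc ((4 : ℝ) ^ 9)⁻¹ = ((1 / 4) ^ 3) ^ 3 := by norm_num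
    _ ≤ |dt N| ^ 3 := by gcongr

theorem vol_Bx : volume Bx < ⊤ := by
  refine lt_of_le_of_lt (measure_mono (t := Metric.closedBall (0 : Fr) 2) ?_)
    Metric.isBounded_closedBall.measure_lt_top
  intro N hN
  rw [mem_closedBall_zero_iff, pi_norm_le_iff_of_nonneg (by norm_num)]
  intro i
  exact (hN i).2.le

theorem fin_of (V : Fin 3 → Matrix (Fin 3) (Fin 3) ℝ)
    (hV : ∀ i a j, 0 ≤ V i a j ∧ V i a j ≤ 4) (hd : ∀ a b c, dt3 V a b c ≤ -1) :
    I (hc V) < ⊤ := by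
  unfold I
  refine lt_of_le_of_lt (setLIntegral_mono (g := fun _ => ENNReal.ofReal (4 ^ 9))
    measurable_const ?_) ?_
  · intro N hN
    unfold hc
    by_cases h : N ∈ cc V
    · rw [Set.indicator_of_mem h]
      exact rho_le V hV hd N h hN
    · rw [Set.indicator_of_notMem h]
      exact bot_le
  · rw [setLIntegral_const]
    exact ENNReal.mul_lt_top ENNReal.ofReal_lt_top vol_Bx

/-- an open subset of `co WA ∩ Bx` -/
def U : Set Fr := {N | (1 < N 0 0 ∧ N 0 0 < 2 ∧ 0 < N 0 2 ∧ N 0 2 < N 0 1 ∧ 2 * N 0 1 < N 0 0) ∧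
  (1 < N 1 1 ∧ N 1 1 < 2 ∧ 0 < N 1 0 ∧ N 1 0 < N 1 2 ∧ 2 * N 1 2 < N 1 1) ∧
  (1 < N 2 2 ∧ N 2 2 < 2 ∧ 0 < N 2 1 ∧ N 2 1 < N 2 0 ∧ 2 * N 2 0 < N 2 2) ∧
  0 < dt N ∧ dt N < 100}

theorem U_open : IsOpen U := by
  unfold U dt
  simp only [Set.ofPred_and]
  repeat' apply IsOpen.inter
  all_goals exact isOpen_lt (by fun_prop) (by fun_prop)

theorem U_ne : U.Nonempty := by
  refine ⟨![![3/2, 1/2, 1/4], ![1/4, 3/2, 1/2], ![1/2, 1/4, 3/2]], ?_⟩
  simp [U, dt]
  norm_num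

theorem norm_of {v : Fin 3 → ℝ} {x : ℝ} (i : Fin 3) (h1 : 1 < v i) (h2 : v i < 2)
    (h : ∀ j, 0 < v j ∧ v j ≤ v i) (hx : x = ‖v‖) : 1 ≤ x ∧ x < 2 := by
  subst hx
  constructor
  · have := norm_le_pi_norm v i
    rw [Real.norm_of_nonneg (h i).1.le] at this
    linarith
  · rw [pi_norm_lt_iff (by norm_num)]
    intro j
    rw [Real.norm_of_nonneg (h j).1.le]
    linarith [(h j).2]

theorem U_sub_Bx : U ⊆ Bx := by
  rintro N ⟨⟨a1, a2, a3, a4, a5⟩, ⟨b1, b2, b3, b4, b5⟩, ⟨c1, c2, c3, c4, c5⟩, -, -⟩ i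
  fin_cases i
  · refine norm_of 0 a1 a2 ?_ rfl
    intro j
    fin_cases j <;> constructor <;> simp <;> linarith
  · refine norm_of 1 b1 b2 ?_ rfl
    intro j
    fin_cases j <;> constructor <;> simp <;> linarith
  · refine norm_of 2 c1 c2 ?_ rfl
    intro j
    fin_cases j <;> constructor <;> simp <;> linarith

theorem U_sub_co : U ⊆ co WA := by
  rintro N ⟨⟨a1, a2, a3, a4, a5⟩, ⟨b1, b2, b3, b4, b5⟩, ⟨c1, c2, c3, c4, c5⟩, -, -⟩ i
  fin_cases i
  · refine ⟨![N 0 0 - 2 * N 0 1, N 0 1 - N 0 2, N 0 2], ?_, ?_⟩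
    · intro a
      fin_cases a <;> simp <;> linarith
    · funext j
      fin_cases j <;>
        simp [WA, Matrix.vecMul, dotProduct, Fin.sum_univ_three] <;> ring
  · refine ⟨![N 1 1 - 2 * N 1 2, N 1 2 - N 1 0, N 1 0], ?_, ?_⟩
    · intro a
      fin_cases a <;> simp <;> linarith
    · funext j
      fin_cases j <;>
        simp [WA, Matrix.vecMul, dotProduct, Fin.sum_univ_three] <;> ring
  · refine ⟨![N 2 2 - 2 * N 2 0, N 2 0 - N 2 1, N 2 1], ?_, ?_⟩
    · intro a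
      fin_cases a <;> simp <;> linarith
    · funext j
      fin_cases j <;>
        simp [WA, Matrix.vecMul, dotProduct, Fin.sum_univ_three] <;> ring

theorem pos : 0 < I (ho WA) := by
  have h1 : ∫⁻ N in U, ENNReal.ofReal ((100 ^ 3)⁻¹) ≤ I (ho WA) := by
    refine le_trans ?_ (lintegral_mono_set U_sub_Bx)
    refine setLIntegral_mono' U_open.measurableSet ?_
    intro N hN
    unfold ho
    rw [Set.indicator_of_mem (U_sub_co hN)]
    unfold rho
    refine ENNReal.ofReal_le_ofReal ?_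
    have h0 : 0 < dt N := hN.2.2.2.1
    have h1 : dt N < 100 := hN.2.2.2.2
    rw [abs_of_pos h0]
    gcongr
  refine lt_of_lt_of_le ?_ h1
  rw [setLIntegral_const]
  exact ENNReal.mul_pos (by simp) (U_open.measure_pos volume U_ne).ne'

theorem main : S_FIN := by
  refine ⟨fin_of VC ?_ ?_, fin_of VS ?_ ?_, pos⟩
  · intro i a j
    fin_cases i <;> fin_cases a <;> fin_cases j <;> simp [VC] <;> norm_num
  · intro a b c
    fin_cases a <;> fin_cases b <;> fin_cases c <;> simp [dt3, dt, VC] <;> norm_num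
  · intro i a j
    fin_cases i <;> fin_cases a <;> fin_cases j <;> simp [VS] <;> norm_num
  · intro a b c
    fin_cases a <;> fin_cases b <;> fin_cases c <;> simp [dt3, dt, VS] <;> norm_num

end Pool.Agent.R69.KM.Fin
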