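import Pool.Agent.R69.KM.Stm2

set_option autoImplicit false

open MeasureTheory
open scoped ENNReal

namespace Pool.Agent.R69.KM.Fina

open Pool.Agent.R69.Klein Pool.Agent.R69.KM

theorem cn_ER : Cn ER := by
  intro N hN i0 t ht
  obtain ⟨s, hs, hs'⟩ : ∃ s : Fin 3 → ℝ, (∀ r, 0 < s r) ∧
      ∀ r j, Function.update N i0 (t • N i0) r j = s r * N r j := by
    refine ⟨fun r => if r = i0 then t else 1, ?_, ?_⟩
    · intro r
      by_cases h : r = i0
      · simp [h, ht]
      · simp [h]
    · intro r j
      by_cases h : r = i0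
      · subst h; simp
      · simp [h]
  intro i
  obtain ⟨h1, h2, h3, h4, h5, h6⟩ := hN i
  simp only [hs']
  refine ⟨mul_nonneg (hs i).le h1, mul_nonneg (hs i).le h2, ?_, ?_, ?_, ?_⟩
  · have := mul_lt_mul_of_pos_left h3 (hs i); linarith
  · rcases h4 with h | h
    · left; have := mul_lt_mul_of_pos_left h (hs i); linarith
    · right; have := mul_lt_mul_of_pos_left h (hs (i + 2)); linarith
  · rcases h5 with h | h
    · left; have := mul_lt_mul_of_pos_left h (hs i); linarith
    · right; have := mul_lt_mul_of_pos_left h (hs (i + 1)); linarith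
  · rcases h6 with h | h
    · left; have := mul_lt_mul_of_pos_left h (hs (i + 1)); linarith
    · right; have := mul_lt_mul_of_pos_left h (hs (i + 2)); linarith

theorem meas_ER : MeasurableSet ER := by
  have h : ER = ⋂ i : Fin 3, ({N : Fr | 0 ≤ N i (i + 1)} ∩ ({N : Fr | 0 ≤ N i (i + 2)} ∩
      ({N : Fr | N i (i + 1) + N i (i + 2) < N i i} ∩
      (({N : Fr | 2 * N i (i + 1) < N i i} ∪ {N : Fr | 2 * N (i + 2) (i + 1) < N (i + 2) i}) ∩
      (({N : Fr | 2 * N i (i + 2) < N i i} ∪ {N : Fr | 2 * N (i + 1) (i + 2) < N (i + 1) i}) ∩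
      ({N : Fr | 3 * N (i + 1) i < N (i + 1) (i + 1) + N (i + 1) (i + 2)} ∪
      {N : Fr | 3 * N (i + 2) i < N (i + 2) (i + 2) + N (i + 2) (i + 1)})))))) := by
    ext N
    simp only [Set.mem_iInter]
    exact Iff.rfl
  rw [h]
  refine MeasurableSet.iInter fun i => ?_
  refine MeasurableSet.inter (measurableSet_le (by fun_prop) (by fun_prop)) ?_
  refine MeasurableSet.inter (measurableSet_le (by fun_prop) (by fun_prop)) ?_
  refine MeasurableSet.inter (measurableSet_lt (by fun_prop) (by fun_prop)) ?_
  refine MeasurableSet.inter (MeasurableSet.union (measurableSet_lt (by fun_prop) (by fun_prop))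
    (measurableSet_lt (by fun_prop) (by fun_prop))) ?_
  refine MeasurableSet.inter (MeasurableSet.union (measurableSet_lt (by fun_prop) (by fun_prop))
    (measurableSet_lt (by fun_prop) (by fun_prop))) ?_
  exact MeasurableSet.union (measurableSet_lt (by fun_prop) (by fun_prop))
    (measurableSet_lt (by fun_prop) (by fun_prop))

theorem diag_ge {N : Fr} (hN : N ∈ ER) (hB : N ∈ Bx) (i : Fin 3) : 1 ≤ N i i := by
  obtain ⟨h1, h2, h3, -⟩ := hN i
  refine (hB i).1.trans ?_
  have hii : 0 ≤ N i i := by linarith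
  rw [pi_norm_le_iff_of_nonneg hii]
  intro j
  rw [Real.norm_eq_abs]
  have hj : j = i ∨ j = i + 1 ∨ j = i + 2 := by
    fin_cases i <;> fin_cases j <;> decide
  rcases hj with rfl | rfl | rfl
  · rw [abs_of_nonneg hii]
  · rw [abs_of_nonneg h1]; linarith
  · rw [abs_of_nonneg h2]; linarith

theorem vol_Bx : volume Bx < ⊤ := by
  have hb : Bornology.IsBounded Bx := by
    refine (Metric.isBounded_closedBall (x := (0 : Fr)) (r := 2)).subset ?_
    intro N hN
    rw [mem_closedBall_zero_iff, pi_norm_le_iff_of_nonneg (by norm_num)]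
    intro i
    exact (hN i).2.le
  exact hb.measure_lt_top

theorem main : S_GEOA → S_DETL → S_SAT → S_FINA := by
  intro hG hD hS
  obtain ⟨k, hk, hkd⟩ := hD
  obtain ⟨-, -, hle⟩ := hS ER meas_ER cn_ER
  have hsub : withFace (n := 2) SX ⊆ sat ER := by
    intro c hc
    exact hG c hc
  have hI : I (ER.indicator rho) < ⊤ := by
    have h1 : I (ER.indicator rho) ≤ ∫⁻ _ in Bx, ENNReal.ofReal ((k ^ 3)⁻¹) := by
      unfold I
      have hmB : MeasurableSet Bx := by
        have h : Bx = ⋂ i : Fin 3, ({N : Fr | 1 ≤ ‖N i‖} ∩ {N : Fr | ‖N i‖ < 2}) := by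
          ext N
          simp only [Set.mem_iInter]
          exact Iff.rfl
        rw [h]
        refine MeasurableSet.iInter fun i => ?_
        exact (measurableSet_le (by fun_prop) (by fun_prop)).inter
          (measurableSet_lt (by fun_prop) (by fun_prop))
      refine setLIntegral_mono' hmB fun N hNB => ?_
      by_cases hN : N ∈ ER
      · rw [Set.indicator_of_mem hN]
        unfold rho
        apply ENNReal.ofReal_le_ofReal
        have hd : k ≤ dt N := by
          refine le_trans ?_ (hkd N hN)
          have a := diag_ge hN hNB 0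
          have b := diag_ge hN hNB 1
          have c := diag_ge hN hNB 2
          have : 1 ≤ N 0 0 * N 1 1 * N 2 2 :=
            one_le_mul_of_one_le_of_one_le (one_le_mul_of_one_le_of_one_le a b) c
          nlinarith
        have : k ≤ |dt N| := hd.trans (le_abs_self _)
        gcongr
      · rw [Set.indicator_of_notMem hN]
        exact bot_le
    refine lt_of_le_of_lt h1 ?_
    rw [setLIntegral_const]
    exact ENNReal.mul_lt_top ENNReal.ofReal_lt_top vol_Bx
  unfold S_FINA
  refine lt_of_le_of_lt ((measure_mono hsub).trans hle) ?_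
  exact ENNReal.mul_lt_top (by norm_num) hI

end Pool.Agent.R69.KM.Fina
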