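import Pool.Agent.R69.KM.Stm

/-!
KM-GEOB: a continued fraction with the unit square as a face comes from the region `SR`.
-/

set_option autoImplicit false

namespace Pool.Agent.R69.KM.Geob

open Pool.Agent.R69.Klein Pool.Agent.R69.KM

/-- the pairing of a covector and a vector -/
def pr (a x : Fin 3 → ℝ) : ℝ := a 0 * x 0 + a 1 * x 1 + a 2 * x 2

theorem dt_ne {u : Fr} (h : LinearIndependent ℝ u) : dt u ≠ 0 := by
  rw [dt_eq]
  have h2 : LinearIndependent ℝ (Matrix.of u).row := h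
  rw [Matrix.linearIndependent_rows_iff_isUnit] at h2
  rw [Matrix.isUnit_iff_isUnit_det] at h2
  exact h2.ne_zero

/-- the dual basis, up to the factor `dt u ^ 2` -/
def du (u : Fr) : Fr := fun i j => dt u * ray u i j

theorem dt_du (u : Fr) : dt (du u) = dt u ^ 5 := by
  have h := dt_ray u
  have h1 : dt (du u) = dt u ^ 3 * dt (ray u) := by
    simp only [dt, du]
    ring
  rw [h1, h]
  ring

theorem ray_du (u : Fr) (i : Fin 3) : ray (du u) i = (dt u ^ 3) • u i := by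
  fin_cases i <;> funext j <;> fin_cases j <;>
    simp [du, ray, cr, dt] <;> ring

theorem line_smul {u : Sp 2} {t : ℝ} (ht : t ≠ 0) : line (t • u) = line u := by
  unfold line
  exact Submodule.span_singleton_smul_eq (IsUnit.mk0 t ht) u

theorem lns_du {u : Fr} (h : LinearIndependent ℝ u) (c : CF 2)
    (hc : c.1 = Set.range (fun i => line (u i))) : lns (du u) = c := by
  have hd := dt_ne h
  have h1 : dt (du u) ≠ 0 := by
    rw [dt_du]
    exact pow_ne_zero 5 hd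
  have hl : lns (du u) = (⟨Set.range (fun i => line (ray (du u) i)), ray (du u), li_ray h1, rfl⟩ :
      CF 2) := dif_pos h1
  have h2 : (fun i => line (ray (du u) i)) = (fun i => line (u i)) := by
    funext i
    rw [ray_du]
    exact line_smul (pow_ne_zero 3 hd)
  have h3 : (lns (du u)).1 = c.1 := by
    rw [hl, hc]
    exact congrArg Set.range h2
  exact Subtype.ext h3

theorem pr_du_nonneg {u : Fr} {x : Sp 2} (hx : x ∈ cone (n := 2) u) (i : Fin 3) :
    0 ≤ pr (du u i) x := by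
  obtain ⟨c, hc, rfl⟩ := hx
  have h : pr (du u i) (∑ j, c j • u j) = dt u ^ 2 * c i := by
    rw [Fin.sum_univ_three]
    fin_cases i <;> simp [pr, du, ray, cr, dt] <;> ring
  rw [h]
  exact mul_nonneg (sq_nonneg _) (hc i)

theorem mem_cone_du {u : Fr} (h : dt u ≠ 0) {x : Sp 2} (hx : ∀ i, 0 ≤ pr (du u i) x) :
    x ∈ cone (n := 2) u := by
  refine ⟨fun i => pr (du u i) x / dt u ^ 2, fun i => ?_, ?_⟩
  · exact div_nonneg (hx i) (sq_nonneg _)
  · have key : ∑ i, pr (du u i) x • u i = dt u ^ 2 • x := by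
      rw [Fin.sum_univ_three]
      funext j
      fin_cases j <;> simp [pr, du, ray, cr, dt] <;> ring
    have h2 : dt u ^ 2 ≠ 0 := pow_ne_zero 2 h
    have : ∑ i, (pr (du u i) x / dt u ^ 2) • u i = (dt u ^ 2)⁻¹ • ∑ i, pr (du u i) x • u i := by
      rw [Finset.smul_sum]
      refine Finset.sum_congr rfl fun i _ => ?_
      rw [smul_smul, div_eq_inv_mul]
    rw [this, key, smul_smul, inv_mul_cancel₀ h2, one_smul]

theorem SQ_bd {x : Sp 2} (hx : x ∈ SQ) : 0 ≤ x 1 ∧ x 1 ≤ 1 ∧ 0 ≤ x 2 ∧ x 2 ≤ 1 := by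
  have hc : Convex ℝ {x : Sp 2 | 0 ≤ x 1 ∧ x 1 ≤ 1 ∧ 0 ≤ x 2 ∧ x 2 ≤ 1} := by
    rintro x ⟨h1, h2, h3, h4⟩ y ⟨k1, k2, k3, k4⟩ a b ha hb hab
    simp only [Set.mem_ofPred_eq, Pi.add_apply, Pi.smul_apply, smul_eq_mul]
    refine ⟨by positivity, by nlinarith, by positivity, by nlinarith⟩
  have hs : ({![1, 0, 0], ![0, 1, 0], ![0, 0, 1], ![-1, 1, 1]} : Set (Sp 2)) ⊆
      {x : Sp 2 | 0 ≤ x 1 ∧ x 1 ≤ 1 ∧ 0 ≤ x 2 ∧ x 2 ≤ 1} := by
    intro y hy
    simp only [Set.mem_insert_iff, Set.mem_singleton_iff] at hy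
    rcases hy with rfl | rfl | rfl | rfl <;> simp
  exact convexHull_min hs hc hx

theorem main : S_GEOB := by
  intro c hc
  obtain ⟨u, hu, hcu, φ, b, hφ, hK, hF, hr⟩ := hc
  have hd : dt u ≠ 0 := dt_ne hu
  have hN : dt (du u) ≠ 0 := by
    rw [dt_du]
    exact pow_ne_zero 5 hd
  have hmem : ∀ x : Sp 2, x ∈ SQ ↔ (x ∈ hull u ∧ φ x = b) := by
    intro x
    rw [hF]
    rfl
  have hsub : ∀ x : Sp 2, x ∈ ({![1, 0, 0], ![0, 1, 0], ![0, 0, 1], ![-1, 1, 1]} : Set (Sp 2)) →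
      x ∈ SQ := fun x hx => subset_convexHull ℝ _ hx
  have h0 : (![1, 0, 0] : Sp 2) ∈ SQ := hsub _ (by simp)
  have h1 : (![0, 1, 0] : Sp 2) ∈ SQ := hsub _ (by simp)
  have h2 : (![0, 0, 1] : Sp 2) ∈ SQ := hsub _ (by simp)
  have h3 : (![-1, 1, 1] : Sp 2) ∈ SQ := hsub _ (by simp)
  have hφw : ∀ w : Sp 2, w 0 + w 1 + w 2 = 1 → φ w = b := by
    intro w hw
    have e : w = w 0 • (![1, 0, 0] : Sp 2) + w 1 • (![0, 1, 0] : Sp 2) +
        w 2 • (![0, 0, 1] : Sp 2) := by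
      funext j
      fin_cases j <;> simp
    rw [e, map_add, map_add, map_smul, map_smul, map_smul, ((hmem _).1 h0).2, ((hmem _).1 h1).2,
      ((hmem _).1 h2).2, ← add_smul, ← add_smul, hw, one_smul]
  have hneg : ∀ w : Sp 2, w 0 + w 1 + w 2 = 1 → IsInt w → w ∉ SQ →
      ∃ i, pr (du u i) w < 0 := by
    intro w hw hwi hws
    by_contra hcon
    push Not at hcon
    apply hws
    rw [hmem]
    refine ⟨subset_convexHull ℝ _ ⟨mem_cone_du hd hcon, hwi, ?_⟩, hφw w hw⟩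
    rintro rfl
    simp at hw
  have hpos : ∀ w : Sp 2, w ∈ SQ → ∀ i, 0 ≤ pr (du u i) w := fun w hw i =>
    pr_du_nonneg (hull_subset_cone u ((hmem w).1 hw).1) i
  have hint : ∀ p q r : ℤ, IsInt (![(p : ℝ), (q : ℝ), (r : ℝ)] : Sp 2) := by
    intro p q r i
    fin_cases i
    · exact ⟨p, by simp⟩
    · exact ⟨q, by simp⟩
    · exact ⟨r, by simp⟩
  have hnw : ∀ p q r : ℤ, p + q + r = 1 → (q < 0 ∨ 1 < q ∨ r < 0 ∨ 1 < r) →
      ∃ i, du u i 0 * p + du u i 1 * q + du u i 2 * r < 0 := by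
    intro p q r hs hor
    have hs' : (p : ℝ) + q + r = 1 := by exact_mod_cast hs
    obtain ⟨i, hi⟩ := hneg ![(p : ℝ), (q : ℝ), (r : ℝ)] (by simpa using hs') (hint p q r) (by
      intro hm
      have hb := SQ_bd hm
      simp at hb
      obtain ⟨b1, b2, b3, b4⟩ := hb
      have b1' : (0 : ℤ) ≤ q := by exact_mod_cast b1
      have b2' : q ≤ (1 : ℤ) := by exact_mod_cast b2
      have b3' : (0 : ℤ) ≤ r := by exact_mod_cast b3
      have b4' : r ≤ (1 : ℤ) := by exact_mod_cast b4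
      omega)
    refine ⟨i, ?_⟩
    simpa [pr] using hi
  refine ⟨du u, hN, lns_du hu c hcu, ?_⟩
  refine ⟨fun i => ⟨?_, ?_, ?_, ?_⟩, ?_, ?_, ?_, ?_, ?_, ?_, ?_, ?_⟩
  · simpa [pr] using hpos _ h0 i
  · simpa [pr] using hpos _ h1 i
  · simpa [pr] using hpos _ h2 i
  · have := hpos _ h3 i
    simp [pr] at this
    linarith
  · obtain ⟨i, hi⟩ := hnw 2 (-1) 0 (by norm_num) (by norm_num)
    refine ⟨i, ?_⟩
    push_cast at hi
    linarith
  · obtain ⟨i, hi⟩ := hnw 1 (-1) 1 (by norm_num) (by norm_num)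
    refine ⟨i, ?_⟩
    push_cast at hi
    linarith
  · obtain ⟨i, hi⟩ := hnw (-1) 0 2 (by norm_num) (by norm_num)
    refine ⟨i, ?_⟩
    push_cast at hi
    linarith
  · obtain ⟨i, hi⟩ := hnw (-2) 1 2 (by norm_num) (by norm_num)
    refine ⟨i, ?_⟩
    push_cast at hi
    linarith
  · obtain ⟨i, hi⟩ := hnw (-2) 2 1 (by norm_num) (by norm_num)
    refine ⟨i, ?_⟩
    push_cast at hi
    linarith
  · obtain ⟨i, hi⟩ := hnw (-1) 2 0 (by norm_num) (by norm_num)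
    refine ⟨i, ?_⟩
    push_cast at hi
    linarith
  · obtain ⟨i, hi⟩ := hnw 1 1 (-1) (by norm_num) (by norm_num)
    refine ⟨i, ?_⟩
    push_cast at hi
    linarith
  · obtain ⟨i, hi⟩ := hnw 2 0 (-1) (by norm_num) (by norm_num)
    refine ⟨i, ?_⟩
    push_cast at hi
    linarith

end Pool.Agent.R69.KM.Geob
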