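import Pool.Agent.R69.KM.Stm2
import Pool.Agent.R69.KM.Geob

/-!
KM2-GEOA: a continued fraction with the unit triangle as a face comes from the region `ER`.
-/

set_option autoImplicit false

namespace Pool.Agent.R69.KM.Geoa

open Pool.Agent.R69.Klein Pool.Agent.R69.KM
open Pool.Agent.R69.KM.Geob (pr dt_ne du dt_du lns_du pr_du_nonneg mem_cone_du)

theorem SX_bd {x : Sp 2} (hx : x ∈ SX) : 0 ≤ x 0 ∧ 0 ≤ x 1 ∧ 0 ≤ x 2 := by
  have hc : Convex ℝ {x : Sp 2 | 0 ≤ x 0 ∧ 0 ≤ x 1 ∧ 0 ≤ x 2} := by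
    rintro x ⟨h1, h2, h3⟩ y ⟨k1, k2, k3⟩ a b ha hb hab
    simp only [Set.mem_ofPred_eq, Pi.add_apply, Pi.smul_apply, smul_eq_mul]
    refine ⟨by positivity, by positivity, by positivity⟩
  have hs : ({![1, 0, 0], ![0, 1, 0], ![0, 0, 1]} : Set (Sp 2)) ⊆
      {x : Sp 2 | 0 ≤ x 0 ∧ 0 ≤ x 1 ∧ 0 ≤ x 2} := by
    intro y hy
    simp only [Set.mem_insert_iff, Set.mem_singleton_iff] at hy
    rcases hy with rfl | rfl | rfl <;> simp
  exact convexHull_min hs hc hx

theorem inj_cases : ∀ s : Fin 3 → Fin 3, Function.Injective s →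
    s = ![0, 1, 2] ∨ s = ![0, 2, 1] ∨ s = ![1, 0, 2] ∨ s = ![1, 2, 0] ∨ s = ![2, 0, 1] ∨
      s = ![2, 1, 0] := by
  decide

theorem du_perm (u : Fr) (s : Fin 3 → Fin 3) (hs : Function.Injective s) :
    du (fun i => u (s i)) = fun i => du u (s i) := by
  rcases inj_cases s hs with rfl | rfl | rfl | rfl | rfl | rfl <;>
    funext i j <;> fin_cases i <;> fin_cases j <;>
    simp [du, ray, cr, dt, -mul_eq_mul_left_iff, -mul_eq_mul_right_iff] <;> ring

theorem main : S_GEOA := by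
  intro c hc
  obtain ⟨u, hu, hcu, φ, b, hφ, hK, hF, hr⟩ := hc
  have hd : dt u ≠ 0 := dt_ne hu
  have hmem : ∀ x : Sp 2, x ∈ SX ↔ (x ∈ hull u ∧ φ x = b) := by
    intro x
    rw [hF]
    rfl
  have hsub : ∀ x : Sp 2, x ∈ ({![1, 0, 0], ![0, 1, 0], ![0, 0, 1]} : Set (Sp 2)) →
      x ∈ SX := fun x hx => subset_convexHull ℝ _ hx
  have h0 : (![1, 0, 0] : Sp 2) ∈ SX := hsub _ (by simp)
  have h1 : (![0, 1, 0] : Sp 2) ∈ SX := hsub _ (by simp)
  have h2 : (![0, 0, 1] : Sp 2) ∈ SX := hsub _ (by simp)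
  have hφw : ∀ w : Sp 2, w 0 + w 1 + w 2 = 1 → φ w = b := by
    intro w hw
    have e : w = w 0 • (![1, 0, 0] : Sp 2) + w 1 • (![0, 1, 0] : Sp 2) +
        w 2 • (![0, 0, 1] : Sp 2) := by
      funext j
      fin_cases j <;> simp
    rw [e, map_add, map_add, map_smul, map_smul, map_smul, ((hmem _).1 h0).2, ((hmem _).1 h1).2,
      ((hmem _).1 h2).2, ← add_smul, ← add_smul, hw, one_smul]
  have hneg : ∀ w : Sp 2, w 0 + w 1 + w 2 = 1 → IsInt w → w ∉ SX →
      ∃ i, pr (du u i) w < 0 := by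
    intro w hw hwi hws
    by_contra hcon
    push Not at hcon
    apply hws
    rw [hmem]
    refine ⟨subset_convexHull ℝ _ ⟨mem_cone_du hd hcon, hwi, ?_⟩, hφw w hw⟩
    rintro rfl
    simp at hw
  have hpos : ∀ w : Sp 2, w ∈ SX → ∀ i, 0 ≤ pr (du u i) w := fun w hw i =>
    pr_du_nonneg (hull_subset_cone u ((hmem w).1 hw).1) i
  have hint : ∀ p q r : ℤ, IsInt (![(p : ℝ), (q : ℝ), (r : ℝ)] : Sp 2) := by
    intro p q r i
    fin_cases i
    · exact ⟨p, by simp⟩
    · exact ⟨q, by simp⟩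
    · exact ⟨r, by simp⟩
  have hnw : ∀ p q r : ℤ, p + q + r = 1 → (p < 0 ∨ q < 0 ∨ r < 0) →
      ∃ i, du u i 0 * p + du u i 1 * q + du u i 2 * r < 0 := by
    intro p q r hs hor
    have hs' : (p : ℝ) + q + r = 1 := by exact_mod_cast hs
    obtain ⟨i, hi⟩ := hneg ![(p : ℝ), (q : ℝ), (r : ℝ)] (by simpa using hs') (hint p q r) (by
      intro hm
      have hb := SX_bd hm
      simp at hb
      obtain ⟨b1, b2, b3⟩ := hb
      have b1' : (0 : ℤ) ≤ p := by exact_mod_cast b1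
      have b2' : (0 : ℤ) ≤ q := by exact_mod_cast b2
      have b3' : (0 : ℤ) ≤ r := by exact_mod_cast b3
      omega)
    refine ⟨i, ?_⟩
    simpa [pr] using hi
  have hP0 : ∀ i, 0 ≤ du u i 0 := fun i => by simpa [pr] using hpos _ h0 i
  have hP1 : ∀ i, 0 ≤ du u i 1 := fun i => by simpa [pr] using hpos _ h1 i
  have hP2 : ∀ i, 0 ≤ du u i 2 := fun i => by simpa [pr] using hpos _ h2 i
  obtain ⟨r0, g0⟩ := hnw (-1) 1 1 (by norm_num) (by norm_num)
  obtain ⟨r1, g1⟩ := hnw 1 (-1) 1 (by norm_num) (by norm_num)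
  obtain ⟨r2, g2⟩ := hnw 1 1 (-1) (by norm_num) (by norm_num)
  push_cast at g0 g1 g2
  have n01 : r0 ≠ r1 := by
    rintro rfl
    linarith [hP2 r0]
  have n02 : r0 ≠ r2 := by
    rintro rfl
    linarith [hP1 r0]
  have n12 : r1 ≠ r2 := by
    rintro rfl
    linarith [hP0 r1]
  have hinj : Function.Injective (![r0, r1, r2] : Fin 3 → Fin 3) := by
    intro i j hij
    fin_cases i <;> fin_cases j <;> simp at hij ⊢
    · exact n01 hij
    · exact n02 hij
    · exact n01 hij.symm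
    · exact n12 hij
    · exact n02 hij.symm
    · exact n12 hij.symm
  have hsurj : Function.Surjective (![r0, r1, r2] : Fin 3 → Fin 3) :=
    Finite.injective_iff_surjective.1 hinj
  obtain ⟨s, hs⟩ : ∃ s, s = (![r0, r1, r2] : Fin 3 → Fin 3) := ⟨_, rfl⟩
  have s0 : s 0 = r0 := by rw [hs]; rfl
  have s1 : s 1 = r1 := by rw [hs]; rfl
  have s2 : s 2 = r2 := by rw [hs]; rfl
  rw [← hs] at hinj hsurj
  obtain ⟨N, hN⟩ : ∃ N : Fr, N = fun i => du u (s i) := ⟨_, rfl⟩
  have hNi : ∀ i j, N i j = du u (s i) j := fun i j => by rw [hN]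
  have hNdu : N = du (fun i => u (s i)) := by rw [hN, du_perm u s hinj]
  have hu' : LinearIndependent ℝ (fun i => u (s i)) := hu.comp s hinj
  have q0 : ∀ i, 0 ≤ N i 0 := fun i => by rw [hNi]; exact hP0 _
  have q1 : ∀ i, 0 ≤ N i 1 := fun i => by rw [hNi]; exact hP1 _
  have q2 : ∀ i, 0 ≤ N i 2 := fun i => by rw [hNi]; exact hP2 _
  have d0 : N 0 1 + N 0 2 < N 0 0 := by
    rw [hNi, hNi, hNi, s0]; linarith
  have d1 : N 1 2 + N 1 0 < N 1 1 := by
    rw [hNi, hNi, hNi, s1]; linarith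
  have d2 : N 2 0 + N 2 1 < N 2 2 := by
    rw [hNi, hNi, hNi, s2]; linarith
  have hw : ∀ p q r : ℤ, p + q + r = 1 → (p < 0 ∨ q < 0 ∨ r < 0) →
      N 0 0 * p + N 0 1 * q + N 0 2 * r < 0 ∨ N 1 0 * p + N 1 1 * q + N 1 2 * r < 0 ∨
        N 2 0 * p + N 2 1 * q + N 2 2 * r < 0 := by
    intro p q r h3 h4
    obtain ⟨i, hi⟩ := hnw p q r h3 h4
    obtain ⟨j, rfl⟩ := hsurj i
    rw [← hNi, ← hNi, ← hNi] at hi
    fin_cases j
    · exact Or.inl hi
    · exact Or.inr (Or.inl hi)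
    · exact Or.inr (Or.inr hi)
  have a0 := q0 0; have a1 := q0 1; have a2 := q0 2
  have b0 := q1 0; have b1 := q1 1; have b2 := q1 2
  have c0 := q2 0; have c1 := q2 1; have c2 := q2 2
  refine ⟨N, ?_, ?_, ?_⟩
  · have w1 := hw (-1) 2 0 (by norm_num) (by norm_num)
    have w2 := hw (-1) 0 2 (by norm_num) (by norm_num)
    have w3 := hw 0 (-1) 2 (by norm_num) (by norm_num)
    have w4 := hw 2 (-1) 0 (by norm_num) (by norm_num)
    have w5 := hw 2 0 (-1) (by norm_num) (by norm_num)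
    have w6 := hw 0 2 (-1) (by norm_num) (by norm_num)
    have v1 := hw 3 (-1) (-1) (by norm_num) (by norm_num)
    have v2 := hw (-1) 3 (-1) (by norm_num) (by norm_num)
    have v3 := hw (-1) (-1) 3 (by norm_num) (by norm_num)
    push_cast at w1 w2 w3 w4 w5 w6 v1 v2 v3
    intro i
    fin_cases i
    · refine ⟨b0, c0, d0, ?_, ?_, ?_⟩
      · change 2 * N 0 1 < N 0 0 ∨ 2 * N 2 1 < N 2 0
        rcases w1 with h | h | h
        · left; linarith
        · exfalso; linarith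
        · right; linarith
      · change 2 * N 0 2 < N 0 0 ∨ 2 * N 1 2 < N 1 0
        rcases w2 with h | h | h
        · left; linarith
        · right; linarith
        · exfalso; linarith
      · change 3 * N 1 0 < N 1 1 + N 1 2 ∨ 3 * N 2 0 < N 2 2 + N 2 1
        rcases v1 with h | h | h
        · exfalso; linarith
        · left; linarith
        · right; linarith
    · refine ⟨c1, a1, d1, ?_, ?_, ?_⟩
      · change 2 * N 1 2 < N 1 1 ∨ 2 * N 0 2 < N 0 1
        rcases w3 with h | h | h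
        · right; linarith
        · left; linarith
        · exfalso; linarith
      · change 2 * N 1 0 < N 1 1 ∨ 2 * N 2 0 < N 2 1
        rcases w4 with h | h | h
        · exfalso; linarith
        · left; linarith
        · right; linarith
      · change 3 * N 2 1 < N 2 2 + N 2 0 ∨ 3 * N 0 1 < N 0 0 + N 0 2
        rcases v2 with h | h | h
        · right; linarith
        · exfalso; linarith
        · left; linarith
    · refine ⟨a2, b2, d2, ?_, ?_, ?_⟩
      · change 2 * N 2 0 < N 2 2 ∨ 2 * N 1 0 < N 1 2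
        rcases w5 with h | h | h
        · exfalso; linarith
        · right; linarith
        · left; linarith
      · change 2 * N 2 1 < N 2 2 ∨ 2 * N 0 1 < N 0 2
        rcases w6 with h | h | h
        · right; linarith
        · exfalso; linarith
        · left; linarith
      · change 3 * N 0 2 < N 0 0 + N 0 1 ∨ 3 * N 1 2 < N 1 1 + N 1 0
        rcases v3 with h | h | h
        · left; linarith
        · right; linarith
        · exfalso; linarith
  · rw [hNdu, dt_du]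
    exact pow_ne_zero 5 (dt_ne hu')
  · rw [hNdu]
    refine lns_du hu' c ?_
    rw [hcu]
    exact (hsurj.range_comp (fun i => line (u i))).symm

end Pool.Agent.R69.KM.Geoa
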