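import Pool.Agent.R69.KM.Stm

set_option autoImplicit false

namespace Pool.Agent.R69.KM.Inc

open Pool.Agent.R69.KM

/-- the region, spelled out -/
theorem mem_ER {N : Fr}
    (h0 : 0 ≤ N 0 1 ∧ 0 ≤ N 0 2 ∧ N 0 1 + N 0 2 < N 0 0 ∧
      (2 * N 0 1 < N 0 0 ∨ 2 * N 2 1 < N 2 0) ∧
      (2 * N 0 2 < N 0 0 ∨ 2 * N 1 2 < N 1 0) ∧
      (3 * N 1 0 < N 1 1 + N 1 2 ∨ 3 * N 2 0 < N 2 2 + N 2 1))
    (h1 : 0 ≤ N 1 2 ∧ 0 ≤ N 1 0 ∧ N 1 2 + N 1 0 < N 1 1 ∧
      (2 * N 1 2 < N 1 1 ∨ 2 * N 0 2 < N 0 1) ∧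
      (2 * N 1 0 < N 1 1 ∨ 2 * N 2 0 < N 2 1) ∧
      (3 * N 2 1 < N 2 2 + N 2 0 ∨ 3 * N 0 1 < N 0 0 + N 0 2))
    (h2 : 0 ≤ N 2 0 ∧ 0 ≤ N 2 1 ∧ N 2 0 + N 2 1 < N 2 2 ∧
      (2 * N 2 0 < N 2 2 ∨ 2 * N 1 0 < N 1 2) ∧
      (2 * N 2 1 < N 2 2 ∨ 2 * N 0 1 < N 0 2) ∧
      (3 * N 0 2 < N 0 0 + N 0 1 ∨ 3 * N 1 2 < N 1 1 + N 1 0)) : N ∈ ER := by
  intro i
  fin_cases i
  · exact h0
  · exact h1
  · exact h2

theorem in_WC : ∀ N ∈ co WC, N ∈ ER ∧ 0 < dt N := by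
  intro N hN
  obtain ⟨x, hx, ex⟩ := hN 0
  obtain ⟨y, hy, ey⟩ := hN 1
  obtain ⟨z, hz, ez⟩ := hN 2
  have x0 := hx 0
  have x1 := hx 1
  have x2 := hx 2
  have y0 := hy 0
  have y1 := hy 1
  have y2 := hy 2
  have z0 := hz 0
  have z1 := hz 1
  have z2 := hz 2
  have n00 : N 0 0 = 2 * x 0 + (9/4) * x 1 + (9/2) * x 2 := by
    rw [ex]
    simp [WC, Matrix.vecMul, dotProduct, Fin.sum_univ_three]
    try ring
  have n01 : N 0 1 = 1 * x 0 + (3/4) * x 1 + 0 * x 2 := by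
    rw [ex]
    simp [WC, Matrix.vecMul, dotProduct, Fin.sum_univ_three]
    try ring
  have n02 : N 0 2 = 1 * x 0 + 0 * x 1 + 0 * x 2 := by
    rw [ex]
    simp [WC, Matrix.vecMul, dotProduct, Fin.sum_univ_three]
    try ring
  have n10 : N 1 0 = 0 * y 0 + (10/9) * y 1 + 0 * y 2 := by
    rw [ey]
    simp [WC, Matrix.vecMul, dotProduct, Fin.sum_univ_three]
    try ring
  have n11 : N 1 1 = 1 * y 0 + (20/9) * y 1 + 4 * y 2 := by
    rw [ey]
    simp [WC, Matrix.vecMul, dotProduct, Fin.sum_univ_three]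
    try ring
  have n12 : N 1 2 = 0 * y 0 + (10/9) * y 1 + 2 * y 2 := by
    rw [ey]
    simp [WC, Matrix.vecMul, dotProduct, Fin.sum_univ_three]
    try ring
  have n20 : N 2 0 = 0 * z 0 + (3/5) * z 1 + 0 * z 2 := by
    rw [ez]
    simp [WC, Matrix.vecMul, dotProduct, Fin.sum_univ_three]
    try ring
  have n21 : N 2 1 = 0 * z 0 + (3/5) * z 1 + (2/3) * z 2 := by
    rw [ez]
    simp [WC, Matrix.vecMul, dotProduct, Fin.sum_univ_three]
    try ring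
  have n22 : N 2 2 = (4/9) * z 0 + (6/5) * z 1 + (4/3) * z 2 := by
    rw [ez]
    simp [WC, Matrix.vecMul, dotProduct, Fin.sum_univ_three]
    try ring
  refine ⟨mem_ER ?_ ?_ ?_, ?_⟩
  · refine ⟨by linarith, by linarith, by linarith, ?_, ?_, ?_⟩ <;>
      first | (left; linarith) | (right; linarith)
  · refine ⟨by linarith, by linarith, by linarith, ?_, ?_, ?_⟩ <;>
      first | (left; linarith) | (right; linarith)
  · refine ⟨by linarith, by linarith, by linarith, ?_, ?_, ?_⟩ <;>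
      first | (left; linarith) | (right; linarith)
  · have hd : dt N = (8/9) * (x 0 * y 0 * z 0) +
      (9/5) * (x 0 * y 0 * z 1) +
      (8/3) * (x 0 * y 0 * z 2) +
      (40/27) * (x 0 * y 1 * z 0) +
      (8/3) * (x 0 * y 1 * z 1) +
      (100/27) * (x 0 * y 1 * z 2) +
      (32/9) * (x 0 * y 2 * z 0) +
      6 * (x 0 * y 2 * z 1) +
      8 * (x 0 * y 2 * z 2) +
      1 * (x 1 * y 0 * z 0) +
      (27/10) * (x 1 * y 0 * z 1) +
      3 * (x 1 * y 0 * z 2) +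
      (50/27) * (x 1 * y 1 * z 0) +
      4 * (x 1 * y 1 * z 1) +
      (35/9) * (x 1 * y 1 * z 2) +
      4 * (x 1 * y 2 * z 0) +
      9 * (x 1 * y 2 * z 1) +
      9 * (x 1 * y 2 * z 2) +
      2 * (x 2 * y 0 * z 0) +
      (27/5) * (x 2 * y 0 * z 1) +
      6 * (x 2 * y 0 * z 2) +
      (40/9) * (x 2 * y 1 * z 0) +
      9 * (x 2 * y 1 * z 1) +
      10 * (x 2 * y 1 * z 2) +
      8 * (x 2 * y 2 * z 0) +
      (81/5) * (x 2 * y 2 * z 1) +
      18 * (x 2 * y 2 * z 2) := by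
      unfold dt
      rw [n00, n01, n02, n10, n11, n12, n20, n21, n22]
      ring
    rw [hd]
    positivity

theorem in_WS : ∀ N ∈ co WS, N ∈ ER ∧ 0 < dt N := by
  intro N hN
  obtain ⟨x, hx, ex⟩ := hN 0
  obtain ⟨y, hy, ey⟩ := hN 1
  obtain ⟨z, hz, ez⟩ := hN 2
  have x0 := hx 0
  have x1 := hx 1
  have x2 := hx 2
  have y0 := hy 0
  have y1 := hy 1
  have y2 := hy 2
  have z0 := hz 0
  have z1 := hz 1
  have z2 := hz 2
  have n00 : N 0 0 = 1 * x 0 + (15/7) * x 1 + (15/4) * x 2 := by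
    rw [ex]
    simp [WS, Matrix.vecMul, dotProduct, Fin.sum_univ_three]
    try ring
  have n01 : N 0 1 = 1 * x 0 + (15/14) * x 1 + (15/8) * x 2 := by
    rw [ex]
    simp [WS, Matrix.vecMul, dotProduct, Fin.sum_univ_three]
    try ring
  have n02 : N 0 2 = 0 * x 0 + (15/14) * x 1 + 0 * x 2 := by
    rw [ex]
    simp [WS, Matrix.vecMul, dotProduct, Fin.sum_univ_three]
    try ring
  have n10 : N 1 0 = 1 * y 0 + 0 * y 1 + 0 * y 2 := by
    rw [ey]
    simp [WS, Matrix.vecMul, dotProduct, Fin.sum_univ_three]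
    try ring
  have n11 : N 1 1 = 2 * y 0 + (21/8) * y 1 + (14/3) * y 2 := by
    rw [ey]
    simp [WS, Matrix.vecMul, dotProduct, Fin.sum_univ_three]
    try ring
  have n12 : N 1 2 = 1 * y 0 + 0 * y 1 + (7/3) * y 2 := by
    rw [ey]
    simp [WS, Matrix.vecMul, dotProduct, Fin.sum_univ_three]
    try ring
  have n20 : N 2 0 = (32/105) * z 0 + 0 * z 1 + (4/5) * z 2 := by
    rw [ez]
    simp [WS, Matrix.vecMul, dotProduct, Fin.sum_univ_three]
    try ring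
  have n21 : N 2 1 = 0 * z 0 + 0 * z 1 + (2/5) * z 2 := by
    rw [ez]
    simp [WS, Matrix.vecMul, dotProduct, Fin.sum_univ_three]
    try ring
  have n22 : N 2 2 = (64/105) * z 0 + (8/9) * z 1 + (8/5) * z 2 := by
    rw [ez]
    simp [WS, Matrix.vecMul, dotProduct, Fin.sum_univ_three]
    try ring
  refine ⟨mem_ER ?_ ?_ ?_, ?_⟩
  · refine ⟨by linarith, by linarith, by linarith, ?_, ?_, ?_⟩ <;>
      first | (left; linarith) | (right; linarith)
  · refine ⟨by linarith, by linarith, by linarith, ?_, ?_, ?_⟩ <;>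
      first | (left; linarith) | (right; linarith)
  · refine ⟨by linarith, by linarith, by linarith, ?_, ?_, ?_⟩ <;>
      first | (left; linarith) | (right; linarith)
  · have hd : dt N = (32/35) * (x 0 * y 0 * z 0) +
      (8/9) * (x 0 * y 0 * z 1) +
      2 * (x 0 * y 0 * z 2) +
      (8/5) * (x 0 * y 1 * z 0) +
      (7/3) * (x 0 * y 1 * z 1) +
      (21/5) * (x 0 * y 1 * z 2) +
      (32/9) * (x 0 * y 2 * z 0) +
      (112/27) * (x 0 * y 2 * z 1) +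
      (42/5) * (x 0 * y 2 * z 2) +
      (80/49) * (x 1 * y 0 * z 0) +
      (20/7) * (x 1 * y 0 * z 1) +
      (27/7) * (x 1 * y 0 * z 2) +
      (18/7) * (x 1 * y 1 * z 0) +
      5 * (x 1 * y 1 * z 1) +
      (27/4) * (x 1 * y 1 * z 2) +
      (16/3) * (x 1 * y 2 * z 0) +
      (80/9) * (x 1 * y 2 * z 1) +
      12 * (x 1 * y 2 * z 2) +
      4 * (x 2 * y 0 * z 0) +
      5 * (x 2 * y 0 * z 1) +
      9 * (x 2 * y 0 * z 2) +
      6 * (x 2 * y 1 * z 0) +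
      (35/4) * (x 2 * y 1 * z 1) +
      (63/4) * (x 2 * y 1 * z 2) +
      12 * (x 2 * y 2 * z 0) +
      (140/9) * (x 2 * y 2 * z 1) +
      28 * (x 2 * y 2 * z 2) := by
      unfold dt
      rw [n00, n01, n02, n10, n11, n12, n20, n21, n22]
      ring
    rw [hd]
    positivity

theorem in_WA : ∀ N ∈ co WA, N ∈ ER ∧ 0 < dt N := by
  intro N hN
  obtain ⟨x, hx, ex⟩ := hN 0
  obtain ⟨y, hy, ey⟩ := hN 1
  obtain ⟨z, hz, ez⟩ := hN 2
  have x0 := hx 0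
  have x1 := hx 1
  have x2 := hx 2
  have y0 := hy 0
  have y1 := hy 1
  have y2 := hy 2
  have z0 := hz 0
  have z1 := hz 1
  have z2 := hz 2
  have n00 : N 0 0 = 1 * x 0 + 2 * x 1 + 2 * x 2 := by
    rw [ex]
    simp [WA, Matrix.vecMul, dotProduct, Fin.sum_univ_three]
    try ring
  have n01 : N 0 1 = 0 * x 0 + 1 * x 1 + 1 * x 2 := by
    rw [ex]
    simp [WA, Matrix.vecMul, dotProduct, Fin.sum_univ_three]
    try ring
  have n02 : N 0 2 = 0 * x 0 + 0 * x 1 + 1 * x 2 := by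
    rw [ex]
    simp [WA, Matrix.vecMul, dotProduct, Fin.sum_univ_three]
    try ring
  have n10 : N 1 0 = 0 * y 0 + 0 * y 1 + 1 * y 2 := by
    rw [ey]
    simp [WA, Matrix.vecMul, dotProduct, Fin.sum_univ_three]
    try ring
  have n11 : N 1 1 = 1 * y 0 + 2 * y 1 + 2 * y 2 := by
    rw [ey]
    simp [WA, Matrix.vecMul, dotProduct, Fin.sum_univ_three]
    try ring
  have n12 : N 1 2 = 0 * y 0 + 1 * y 1 + 1 * y 2 := by
    rw [ey]
    simp [WA, Matrix.vecMul, dotProduct, Fin.sum_univ_three]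
    try ring
  have n20 : N 2 0 = 0 * z 0 + 1 * z 1 + 1 * z 2 := by
    rw [ez]
    simp [WA, Matrix.vecMul, dotProduct, Fin.sum_univ_three]
    try ring
  have n21 : N 2 1 = 0 * z 0 + 0 * z 1 + 1 * z 2 := by
    rw [ez]
    simp [WA, Matrix.vecMul, dotProduct, Fin.sum_univ_three]
    try ring
  have n22 : N 2 2 = 1 * z 0 + 2 * z 1 + 2 * z 2 := by
    rw [ez]
    simp [WA, Matrix.vecMul, dotProduct, Fin.sum_univ_three]
    try ring
  refine ⟨mem_ER ?_ ?_ ?_, ?_⟩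
  · refine ⟨by linarith, by linarith, by linarith, ?_, ?_, ?_⟩ <;>
      first | (left; linarith) | (right; linarith)
  · refine ⟨by linarith, by linarith, by linarith, ?_, ?_, ?_⟩ <;>
      first | (left; linarith) | (right; linarith)
  · refine ⟨by linarith, by linarith, by linarith, ?_, ?_, ?_⟩ <;>
      first | (left; linarith) | (right; linarith)
  · have hd : dt N = 1 * (x 0 * y 0 * z 0) +
      2 * (x 0 * y 0 * z 1) +
      2 * (x 0 * y 0 * z 2) +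
      2 * (x 0 * y 1 * z 0) +
      4 * (x 0 * y 1 * z 1) +
      3 * (x 0 * y 1 * z 2) +
      2 * (x 0 * y 2 * z 0) +
      4 * (x 0 * y 2 * z 1) +
      3 * (x 0 * y 2 * z 2) +
      2 * (x 1 * y 0 * z 0) +
      4 * (x 1 * y 0 * z 1) +
      4 * (x 1 * y 0 * z 2) +
      4 * (x 1 * y 1 * z 0) +
      9 * (x 1 * y 1 * z 1) +
      7 * (x 1 * y 1 * z 2) +
      3 * (x 1 * y 2 * z 0) +
      7 * (x 1 * y 2 * z 1) +
      5 * (x 1 * y 2 * z 2) +
      2 * (x 2 * y 0 * z 0) +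
      3 * (x 2 * y 0 * z 1) +
      3 * (x 2 * y 0 * z 2) +
      4 * (x 2 * y 1 * z 0) +
      7 * (x 2 * y 1 * z 1) +
      5 * (x 2 * y 1 * z 2) +
      3 * (x 2 * y 2 * z 0) +
      5 * (x 2 * y 2 * z 1) +
      4 * (x 2 * y 2 * z 2) := by
      unfold dt
      rw [n00, n01, n02, n10, n11, n12, n20, n21, n22]
      ring
    rw [hd]
    positivity

theorem main : S_INC := ⟨in_WC, in_WS, in_WA⟩

end Pool.Agent.R69.KM.Inc
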