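import Pool.Agent.R69.KM.Stm

/-!
Project KM, piece INV: invariance of the Möbius measure.
-/

set_option autoImplicit false

open MeasureTheory
open scoped ENNReal

namespace Pool.Agent.R69.KM.Inv

open Pool.Agent.R69.Klein Pool.Agent.R69.KM

theorem continuous_dt : Continuous dt := by unfold dt; fun_prop

theorem measurable_rho : Measurable rho := by
  unfold rho
  exact ENNReal.measurable_ofReal.comp ((continuous_dt.abs.pow 3).measurable.inv)

theorem lns_val {N : Fr} (h : dt N ≠ 0) :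
    (lns N).1 = Set.range (fun i => line (ray N i)) := by
  have h1 : lns N = ⟨Set.range (fun i => line (ray N i)), ray N, li_ray h, rfl⟩ := dif_pos h
  rw [h1]

theorem lns_neg {N : Fr} (h : ¬ (dt N ≠ 0)) : lns N = std0 := dif_neg h

theorem line_smul {c : ℝ} (hc : c ≠ 0) (x : Sp 2) : line (c • x) = line x := by
  unfold line
  exact Submodule.span_singleton_smul_eq (IsUnit.mk0 c hc) x

theorem ray_update (N : Fr) (i : Fin 3) (t : ℝ) (j : Fin 3) :
    ray (Function.update N i (t • N i)) j = (if j = i then (1 : ℝ) else t) • ray N j := by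
  fin_cases i <;> fin_cases j <;>
    (ext k; fin_cases k <;> simp [ray, cr, Function.update] <;> ring)

theorem dt_update (N : Fr) (i : Fin 3) (t : ℝ) :
    dt (Function.update N i (t • N i)) = t * dt N := by
  fin_cases i <;> simp [dt, Function.update] <;> ring

theorem lns_update (N : Fr) (i : Fin 3) {t : ℝ} (ht : t ≠ 0) (h : dt N ≠ 0) :
    lns (Function.update N i (t • N i)) = lns N := by
  apply Subtype.ext
  rw [lns_val h, lns_val (by rw [dt_update]; exact mul_ne_zero ht h)]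
  congr 1
  funext j
  rw [ray_update]
  apply line_smul
  split_ifs
  · exact one_ne_zero
  · exact ht

/-- the action of a matrix on the rows -/
def Ph (G : Matrix (Fin 3) (Fin 3) ℝ) (N : Fr) : Fr := fun i => Matrix.vecMul (N i) G

theorem continuous_Ph (G : Matrix (Fin 3) (Fin 3) ℝ) : Continuous (Ph G) := by
  unfold Ph Matrix.vecMul dotProduct
  fun_prop

theorem dt_Ph (G : Matrix (Fin 3) (Fin 3) ℝ) (N : Fr) : dt (Ph G N) = dt N * G.det := by
  rw [dt_eq, dt_eq, ← Matrix.det_mul]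
  congr 1

theorem cr_Ph (G : Matrix (Fin 3) (Fin 3) ℝ) (u v : Fin 3 → ℝ) :
    Matrix.mulVec G (cr (Matrix.vecMul u G) (Matrix.vecMul v G)) = G.det • cr u v := by
  ext k
  fin_cases k <;>
    simp [cr, Matrix.mulVec, Matrix.vecMul, dotProduct, Fin.sum_univ_three,
      Matrix.det_fin_three] <;> ring

theorem ray_Ph (G : Matrix (Fin 3) (Fin 3) ℝ) (N : Fr) (j : Fin 3) :
    Matrix.mulVec G (ray (Ph G N) j) = G.det • ray N j := by
  fin_cases j
  · exact cr_Ph G (N 1) (N 2)
  · exact cr_Ph G (N 2) (N 0)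
  · exact cr_Ph G (N 0) (N 1)

/-- the matrix of the inverse -/
noncomputable def GM (g : Sp 2 ≃ₗ[ℝ] Sp 2) : Matrix (Fin 3) (Fin 3) ℝ :=
  LinearMap.toMatrix' g.symm.toLinearMap

theorem GM_mulVec (g : Sp 2 ≃ₗ[ℝ] Sp 2) (x : Sp 2) : Matrix.mulVec (GM g) x = g.symm x := by
  unfold GM
  rw [LinearMap.toMatrix'_mulVec]
  rfl

theorem GM_det (g : Sp 2 ≃ₗ[ℝ] Sp 2) : (GM g).det ≠ 0 := by
  have h : GM g * LinearMap.toMatrix' g.toLinearMap = 1 := by
    unfold GM
    rw [← LinearMap.toMatrix'_comp]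
    have : g.symm.toLinearMap ∘ₗ g.toLinearMap = LinearMap.id := by
      ext x; simp
    rw [this, LinearMap.toMatrix'_id]
  intro h0
  have h1 := congrArg Matrix.det h
  rw [Matrix.det_mul, h0, zero_mul, Matrix.det_one] at h1
  exact zero_ne_one h1

theorem act_lns (g : Sp 2 ≃ₗ[ℝ] Sp 2) {N : Fr} (h : dt N ≠ 0) :
    act g (lns N) = lns (Ph (GM g) N) := by
  apply Subtype.ext
  rw [act_range g (lns N) (lns_val h),
    lns_val (by rw [dt_Ph]; exact mul_ne_zero h (GM_det g))]
  congr 1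
  funext j
  have h1 : ray (Ph (GM g) N) j = (GM g).det • g (ray N j) := by
    apply g.symm.injective
    rw [← GM_mulVec, ray_Ph, map_smul, LinearEquiv.symm_apply_apply]
  rw [h1]
  exact (line_smul (GM_det g) _).symm

theorem measurable_lns : Measurable lns := fun _ h => h

theorem measurableSet_dt : MeasurableSet {N : Fr | dt N ≠ 0} :=
  (continuous_dt.measurable (measurableSet_singleton 0)).compl

theorem rho_zero {N : Fr} (h : dt N = 0) : rho N = 0 := by
  unfold rho
  rw [h]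
  simp

theorem fm_eq {S : Set Fr} (hS : MeasurableSet S) : fm S = I (S.indicator rho) := by
  unfold fm I
  rw [withDensity_apply _ hS, ← lintegral_indicator hS]

theorem ind_eq (S : Set Fr) : S.indicator rho = (S ∩ {N | dt N ≠ 0}).indicator rho := by
  funext N
  by_cases h : dt N = 0
  · rw [Set.indicator_of_notMem (show N ∉ S ∩ {N | dt N ≠ 0} from fun hh => hh.2 h)]
    by_cases hS : N ∈ S
    · rw [Set.indicator_of_mem hS, rho_zero h]
    · rw [Set.indicator_of_notMem hS]
  · by_cases hS : N ∈ S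
    · rw [Set.indicator_of_mem hS,
        Set.indicator_of_mem (show N ∈ S ∩ {N | dt N ≠ 0} from ⟨hS, h⟩)]
    · rw [Set.indicator_of_notMem hS, Set.indicator_of_notMem fun hh => hS hh.1]

theorem rho_mul {N N' : Fr} {c : ℝ} (h : dt N' = c * dt N) :
    rho N' = ENNReal.ofReal ((|c| ^ 3)⁻¹) * rho N := by
  unfold rho
  rw [h, ← ENNReal.ofReal_mul (by positivity), abs_mul, mul_pow, mul_inv]

theorem hom_ind (A : Set (CF 2)) : Hom ((lns ⁻¹' A ∩ {N | dt N ≠ 0}).indicator rho) := by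
  intro N i t ht
  have hd := dt_update N i t
  by_cases h : N ∈ lns ⁻¹' A ∩ {N | dt N ≠ 0}
  · have h' : Function.update N i (t • N i) ∈ lns ⁻¹' A ∩ {N | dt N ≠ 0} := by
      refine ⟨?_, ?_⟩
      · change lns _ ∈ A
        rw [lns_update N i ht.ne' h.2]
        exact h.1
      · change dt _ ≠ 0
        rw [hd]
        exact mul_ne_zero ht.ne' h.2
    rw [Set.indicator_of_mem h, Set.indicator_of_mem h', rho_mul hd, abs_of_pos ht]
  · have h' : Function.update N i (t • N i) ∉ lns ⁻¹' A ∩ {N | dt N ≠ 0} := by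
      rintro ⟨h1, h2⟩
      change dt _ ≠ 0 at h2
      rw [hd] at h2
      have h3 : dt N ≠ 0 := right_ne_zero_of_mul h2
      change lns _ ∈ A at h1
      rw [lns_update N i ht.ne' h3] at h1
      exact h ⟨h1, h3⟩
    rw [Set.indicator_of_notMem h, Set.indicator_of_notMem h', mul_zero]

theorem preimage_eq (g : Sp 2 ≃ₗ[ℝ] Sp 2) (A : Set (CF 2)) :
    lns ⁻¹' (act g ⁻¹' A) ∩ {N | dt N ≠ 0} = Ph (GM g) ⁻¹' (lns ⁻¹' A) ∩ {N | dt N ≠ 0} := by
  ext N
  constructor
  · rintro ⟨h1, h2⟩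
    refine ⟨?_, h2⟩
    change lns (Ph (GM g) N) ∈ A
    rw [← act_lns g h2]
    exact h1
  · rintro ⟨h1, h2⟩
    refine ⟨?_, h2⟩
    change act g (lns N) ∈ A
    rw [act_lns g h2]
    exact h1

theorem measurable_act (g : Sp 2 ≃ₗ[ℝ] Sp 2) : Measurable (act (n := 2) g) := by
  intro A hA
  have hB : MeasurableSet (lns ⁻¹' A) := hA
  change MeasurableSet (lns ⁻¹' (act g ⁻¹' A))
  have h1 : lns ⁻¹' (act g ⁻¹' A) = (lns ⁻¹' (act g ⁻¹' A) ∩ {N | dt N ≠ 0}) ∪
      (lns ⁻¹' (act g ⁻¹' A) ∩ {N | dt N ≠ 0}ᶜ) := (Set.inter_union_compl _ _).symm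
  rw [h1, preimage_eq]
  refine (((continuous_Ph _).measurable hB).inter measurableSet_dt).union ?_
  by_cases h2 : act g std0 ∈ A
  · have : lns ⁻¹' (act g ⁻¹' A) ∩ {N | dt N ≠ 0}ᶜ = {N | dt N ≠ 0}ᶜ := by
      refine Set.inter_eq_right.2 fun N hN => ?_
      have hN' : ¬ (dt N ≠ 0) := hN
      change act g (lns N) ∈ A
      rw [lns_neg hN']
      exact h2
    rw [this]
    exact measurableSet_dt.compl
  · have : lns ⁻¹' (act g ⁻¹' A) ∩ {N | dt N ≠ 0}ᶜ = ∅ := by
      refine Set.eq_empty_of_forall_notMem fun N hN => ?_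
      have hN' : ¬ (dt N ≠ 0) := hN.2
      have h3 : act g (lns N) ∈ A := hN.1
      rw [lns_neg hN'] at h3
      exact h2 h3
    rw [this]
    exact MeasurableSet.empty

theorem main (hrow : S_ROW) : S_INV := by
  intro g
  refine ⟨measurable_act g, ?_⟩
  ext A hA
  rw [Measure.map_apply (measurable_act g) hA]
  unfold mob
  have hA' : MeasurableSet (act g ⁻¹' A) := measurable_act g hA
  rw [Measure.map_apply measurable_lns hA', Measure.map_apply measurable_lns hA,
    fm_eq (measurable_lns hA'), fm_eq (measurable_lns hA), ind_eq, ind_eq (lns ⁻¹' A), preimage_eq]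
  set f := (lns ⁻¹' A ∩ {N | dt N ≠ 0}).indicator rho with hf
  have hfm : Measurable f := measurable_rho.indicator ((measurable_lns hA).inter measurableSet_dt)
  have hdet := GM_det g
  have key : (Ph (GM g) ⁻¹' (lns ⁻¹' A) ∩ {N | dt N ≠ 0}).indicator rho =
      fun N => ENNReal.ofReal (|(GM g).det| ^ 3) * f (fun i => Matrix.vecMul (N i) (GM g)) := by
    funext N
    change _ = ENNReal.ofReal (|(GM g).det| ^ 3) * f (Ph (GM g) N)
    have hd : dt (Ph (GM g) N) = (GM g).det * dt N := by rw [dt_Ph, mul_comm]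
    by_cases h : N ∈ Ph (GM g) ⁻¹' (lns ⁻¹' A) ∩ {N | dt N ≠ 0}
    · have h' : Ph (GM g) N ∈ lns ⁻¹' A ∩ {N | dt N ≠ 0} := by
        refine ⟨h.1, ?_⟩
        change dt _ ≠ 0
        rw [hd]
        exact mul_ne_zero hdet h.2
      rw [Set.indicator_of_mem h, hf, Set.indicator_of_mem h', rho_mul hd, ← mul_assoc,
        ← ENNReal.ofReal_mul (by positivity), mul_inv_cancel₀ (by positivity),
        ENNReal.ofReal_one, one_mul]
    · have h' : Ph (GM g) N ∉ lns ⁻¹' A ∩ {N | dt N ≠ 0} := by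
        rintro ⟨h1, h2⟩
        change dt _ ≠ 0 at h2
        rw [hd] at h2
        exact h ⟨h1, right_ne_zero_of_mul h2⟩
      rw [Set.indicator_of_notMem h, hf, Set.indicator_of_notMem h', mul_zero]
  rw [key]
  have hr := hrow f hfm (hom_ind A) (fun _ => GM g) (fun _ => hdet)
  unfold I at hr ⊢
  rw [lintegral_const_mul' _ _ ENNReal.ofReal_ne_top, hr, ← mul_assoc,
    ← ENNReal.ofReal_mul (by positivity)]
  have : |(GM g).det| ^ 3 * (|(GM g).det| * |(GM g).det| * |(GM g).det|)⁻¹ = 1 := by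
    have h0 : |(GM g).det| ≠ 0 := abs_ne_zero.2 hdet
    field_simp
  rw [this, ENNReal.ofReal_one, one_mul]

end Pool.Agent.R69.KM.Inv
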