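import Pool.Agent.R69.KM.Stm2

/-!
KM2-KEY: linear algebra of a face.
-/

set_option autoImplicit false

namespace Pool.Agent.R69.KM.Key

open Pool.Agent.R69.Klein Pool.Agent.R69.KM

theorem vl_ray (N : Fr) (i j : Fin 3) : vl (N i) (ray N j) = if i = j then dt N else 0 := by
  fin_cases i <;> fin_cases j <;> simp [vl, ray, cr, dt] <;> ring

theorem vl_smul (n x : Fin 3 → ℝ) (t : ℝ) : vl n (t • x) = t * vl n x := by
  simp only [vl, Pi.smul_apply, smul_eq_mul]
  ring

theorem vl_sum (n : Fin 3 → ℝ) (x : Fin 3 → (Fin 3 → ℝ)) :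
    vl n (∑ i, x i) = ∑ i, vl n (x i) := by
  simp only [vl, Fin.sum_univ_three, Pi.add_apply]
  ring

theorem cramer (N : Fr) (x : Fin 3 → ℝ) : ∑ i, vl (N i) x • ray N i = dt N • x := by
  rw [Fin.sum_univ_three]
  funext j
  fin_cases j <;> simp [vl, ray, cr, dt] <;> ring

/-- the cone of `v`, if the lines of `v` are the lines of `ray N` and the cone contains the unit
vectors, on which the rows have positive diagonal entries -/
theorem cone_eq {N : Fr} (hN : dt N ≠ 0) (hd : ∀ i, 0 < N i i) {v : Fin 3 → Sp 2}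
    (hv : LinearIndependent ℝ v)
    (hl : Set.range (fun i => line (v i)) ⊆ Set.range (fun i => line (ray N i)))
    (he : ∀ i : Fin 3, (Pi.single i 1 : Sp 2) ∈ cone (n := 2) v) (x : Sp 2) :
    x ∈ cone (n := 2) v ↔ ∀ i, 0 ≤ vl (N i) x := by
  have h1 : ∀ i, ∃ j, ∃ c : ℝ, v i = c • ray N j := by
    intro i
    obtain ⟨j, hj⟩ := hl ⟨i, rfl⟩
    refine ⟨j, ?_⟩
    have h2 : v i ∈ line (ray N j) := by
      have hj' : line (ray N j) = line (v i) := hj
      rw [hj']
      exact Submodule.mem_span_singleton_self (v i)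
    obtain ⟨c, hc⟩ := Submodule.mem_span_singleton.1 h2
    exact ⟨c, hc.symm⟩
  choose σ c hc using h1
  have hvne : ∀ i, v i ≠ 0 := fun i => hv.ne_zero i
  have hcne : ∀ i, c i ≠ 0 := by
    intro i h0
    apply hvne i
    rw [hc i, h0, zero_smul]
  have hinj : Function.Injective σ := by
    intro i j hij
    by_contra hne
    have hp : c j • v i + (-c i) • v j = 0 := by
      rw [hc i, hc j, hij, smul_smul, smul_smul, ← add_smul]
      have : c j * c i + -c i * c j = 0 := by ring
      rw [this, zero_smul]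
    have h3 := Fintype.linearIndependent_iff.1 hv
      (fun k => (if k = i then c j else 0) + (if k = j then -c i else 0)) (by
        rw [← hp]
        simp [add_smul, Finset.sum_add_distrib, ite_smul])
    have h4 := h3 i
    rw [if_pos rfl, if_neg hne, add_zero] at h4
    exact hcne j h4
  have hsurj : Function.Surjective σ := Finite.surjective_of_injective hinj
  have hval : ∀ a : Fin 3 → ℝ, ∀ i, vl (N (σ i)) (∑ j, a j • v j) = a i * (c i * dt N) := by
    intro a i
    rw [vl_sum, Finset.sum_eq_single i]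
    · rw [vl_smul, hc i, vl_smul, vl_ray, if_pos rfl]
    · intro j _ hji
      rw [vl_smul, hc j, vl_smul, vl_ray, if_neg (fun h => hji (hinj h).symm)]
      ring
    · intro h
      exact absurd (Finset.mem_univ i) h
  have hpos : ∀ i, 0 < c i * dt N := by
    intro i
    obtain ⟨a, ha, hax⟩ := he (σ i)
    have h5 := hval a i
    have h6 : vl (N (σ i)) (Pi.single (σ i) 1 : Sp 2) = N (σ i) (σ i) := by
      generalize σ i = s
      fin_cases s <;> simp [vl]
    have h7 : vl (N (σ i)) (∑ j, a j • v j) = N (σ i) (σ i) := by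
      rw [← h6]
      exact congrArg _ hax
    have h8 : 0 < a i * (c i * dt N) := by
      rw [← h5, h7]
      exact hd (σ i)
    exact pos_of_mul_pos_right h8 (ha i)
  constructor
  · rintro ⟨a, ha, rfl⟩ j
    obtain ⟨i, rfl⟩ := hsurj j
    have h5 := hval a i
    have h9 : 0 ≤ a i * (c i * dt N) := mul_nonneg (ha i) (hpos i).le
    rw [← h5] at h9
    exact h9
  · intro hx
    refine ⟨fun i => vl (N (σ i)) x / (c i * dt N), fun i => div_nonneg (hx _) (hpos i).le, ?_⟩
    have h10 : ∀ i, (vl (N (σ i)) x / (c i * dt N)) • v i =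
        (dt N)⁻¹ • (vl (N (σ i)) x • ray N (σ i)) := by
      intro i
      rw [hc i, smul_smul, smul_smul]
      congr 1
      have := hcne i
      field_simp
    have h11 : ∑ i, (vl (N (σ i)) x / (c i * dt N)) • v i =
        ∑ i, (dt N)⁻¹ • (vl (N (σ i)) x • ray N (σ i)) := Finset.sum_congr rfl fun i _ => h10 i
    have h12 : ∑ i, (dt N)⁻¹ • (vl (N (σ i)) x • ray N (σ i)) =
        ∑ i, (dt N)⁻¹ • (vl (N i) x • ray N i) :=
      (Equiv.ofBijective σ ⟨hinj, hsurj⟩).sum_comp
        (fun i => (dt N)⁻¹ • (vl (N i) x • ray N i))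
    have h13 : ∑ i, (dt N)⁻¹ • (vl (N i) x • ray N i) = x := by
      rw [← Finset.smul_sum, cramer, smul_smul, inv_mul_cancel₀ hN, one_smul]
    exact h11.trans (h12.trans h13)

theorem main : S_KEY := by
  intro A F hF N hNE hN hface
  obtain ⟨u, hu, hcu, φ, b, hφ, hK, hFe, hr⟩ := hface
  have hdiag : ∀ i : Fin 3, 0 < N i i := by
    intro i
    obtain ⟨h1, h2, h3, -⟩ := hNE i
    linarith
  have hmem : ∀ x : Sp 2, x ∈ F ↔ (x ∈ hull u ∧ φ x = b) := by
    intro x
    rw [hFe]
    rfl
  -- the lines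
  have hl1 : (act A.symm (act A (lns N))).1 = Set.range (fun i => line (A.symm (u i))) :=
    act_range A.symm _ hcu
  rw [act_symm_act] at hl1
  have hl2 : (lns N).1 = Set.range (fun i => line (ray N i)) := by
    have hl : lns N = (⟨Set.range (fun i => line (ray N i)), ray N, li_ray hN, rfl⟩ : CF 2) :=
      dif_pos hN
    rw [hl]
  have hv : LinearIndependent ℝ (fun i => A.symm (u i)) := li_map A.symm hu
  have hcone : ∀ x : Sp 2, x ∈ cone (n := 2) (fun i => A.symm (u i)) ↔ A x ∈ cone u := by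
    intro x
    constructor
    · rintro ⟨a, ha, rfl⟩
      refine ⟨a, ha, ?_⟩
      rw [map_sum]
      refine Finset.sum_congr rfl fun i _ => ?_
      rw [map_smul, LinearEquiv.apply_symm_apply]
    · rintro ⟨a, ha, hax⟩
      refine ⟨a, ha, ?_⟩
      apply A.injective
      rw [← hax, map_sum]
      refine Finset.sum_congr rfl fun i _ => ?_
      rw [map_smul, LinearEquiv.apply_symm_apply]
  have hke : ∀ x : Sp 2, A x ∈ cone u ↔ ∀ i, 0 ≤ vl (N i) x := by
    intro x
    rw [← hcone x]
    refine cone_eq hN hdiag hv (by rw [← hl1, ← hl2]) (fun i => ?_) x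
    rw [hcone]
    exact hull_subset_cone u ((hmem _).1 (hF i).2).1
  have hφx : ∀ x : Sp 2, φ (A x) = (x 0 + x 1 + x 2) * b := by
    intro x
    have e : x = x 0 • (Pi.single 0 1 : Sp 2) + x 1 • (Pi.single 1 1 : Sp 2) +
        x 2 • (Pi.single 2 1 : Sp 2) := by
      funext j
      fin_cases j <;> simp
    have hb : ∀ i : Fin (2 + 1), φ (A (Pi.single i 1)) = b := fun i => ((hmem _).1 (hF i).2).2
    have h0 := hb 0
    have h1 := hb 1
    have h2 := hb 2
    conv_lhs => rw [e]
    simp only [map_add, map_smul, smul_eq_mul]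
    rw [h0, h1, h2]
    ring
  have hpt : ∀ x : Sp 2, IsInt (A x) → x ≠ 0 → (∀ i, 0 ≤ vl (N i) x) → A x ∈ hull u := by
    intro x hx hx0 hxn
    refine subset_convexHull ℝ _ ⟨(hke x).2 hxn, hx, fun h => hx0 ?_⟩
    exact (LinearEquiv.map_eq_zero_iff A).1 h
  have hb0 : 0 < b := by
    have h1 : b ≤ φ (A ((2 : ℝ) • (Pi.single 0 1 : Sp 2))) := by
      apply hK
      apply hpt
      · intro j
        obtain ⟨m, hm⟩ := (hF 0).1 j
        refine ⟨2 * m, ?_⟩
        have hm' : A (Pi.single 0 1 : Sp 2) j = m := hm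
        rw [map_smul, Pi.smul_apply, smul_eq_mul, hm']
        push_cast
        ring
      · intro h
        have := congrFun h 0
        simp at this
      · intro i
        obtain ⟨h1, h2, h3, -⟩ := hNE i
        rw [vl_smul]
        have h4 : 0 ≤ vl (N i) (Pi.single 0 1 : Sp 2) := by
          have h5 := (hke (Pi.single 0 1)).1
            (hull_subset_cone u ((hmem _).1 (hF 0).2).1)
          exact h5 i
        linarith
    rw [hφx] at h1
    simp at h1
    rcases (show 0 ≤ b by linarith).lt_or_eq with h | h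
    · exact h
    · exfalso
      apply hφ
      apply LinearMap.ext
      intro y
      obtain ⟨x, rfl⟩ := A.surjective y
      rw [hφx x, ← h]
      simp
  refine ⟨fun x hx hx0 hxn => ⟨?_, fun hs => ?_⟩, fun x hx => ?_⟩
  · have h1 := hK _ (hpt x hx hx0 hxn)
    rw [hφx] at h1
    by_contra hcon
    push Not at hcon
    nlinarith
  · rw [hmem]
    refine ⟨hpt x hx hx0 hxn, ?_⟩
    rw [hφx, hs, one_mul]
  · obtain ⟨h1, h2⟩ := (hmem _).1 hx
    rw [hφx] at h2
    refine ⟨?_, (hke x).1 (hull_subset_cone u h1)⟩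
    have h3 : (x 0 + x 1 + x 2 - 1) * b = 0 := by linarith
    rcases mul_eq_zero.1 h3 with h | h
    · linarith
    · exact absurd h hb0.ne'

end Pool.Agent.R69.KM.Key
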