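import Pool.Agent.R69.KM.Stm

/-!
Project KM: KM-LAT, integer points of the cone in the plane `x₀ + x₁ + x₂ = 1`.
-/

set_option autoImplicit false

namespace Pool.Agent.R69.KM.Lat

open Pool.Agent.R69.KM

/-- one negative coordinate, the others at most `m` -/
theorem lemA {nii nij nil m xj xl : ℝ} (h1 : 0 ≤ nij) (h2 : 0 ≤ nil) (h3 : nij + nil < nii)
    (hm : 0 < m) (hj : xj ≤ m) (hl : xl ≤ m) (hr : 0 ≤ nii * (-m) + nij * xj + nil * xl) :
    False := by
  have e1 : nij * xj ≤ nij * m := mul_le_mul_of_nonneg_left hj h1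
  have e2 : nil * xl ≤ nil * m := mul_le_mul_of_nonneg_left hl h2
  have e3 : 0 < (nii - nij - nil) * m := mul_pos (by linarith) hm
  nlinarith

/-- one negative coordinate, one zero -/
theorem lemB {nii nij nli nlj m : ℝ} (h1 : 0 ≤ nij) (h2 : 0 ≤ nlj) (hm : 1 ≤ m)
    (hc : 2 * nij < nii ∨ 2 * nlj < nli) (hr : 0 ≤ nii * (-m) + nij * (1 + m))
    (hr' : 0 ≤ nli * (-m) + nlj * (1 + m)) : False := by
  rcases hc with h | h
  · have e1 : nij * (1 + m) ≤ nij * (2 * m) := mul_le_mul_of_nonneg_left (by linarith) h1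
    have e2 : 0 < (nii - 2 * nij) * m := mul_pos (by linarith) (by linarith)
    nlinarith
  · have e1 : nlj * (1 + m) ≤ nlj * (2 * m) := mul_le_mul_of_nonneg_left (by linarith) h2
    have e2 : 0 < (nli - 2 * nlj) * m := mul_pos (by linarith) (by linarith)
    nlinarith

/-- two negative coordinates, first case -/
theorem lemC1 {nii nij nil m k : ℝ} (h1 : 0 ≤ nij) (h3 : nij < nii) (hm : 1 ≤ m)
    (hk : 1 ≤ k) (hc : 2 * nil < nij) (hr : nii * m + nij * k ≤ nil * (1 + m + k)) : False := by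
  have e1 : 0 < (nij - 2 * nil) * (1 + m + k) := mul_pos (by linarith) (by linarith)
  have e2 : 0 ≤ nij * (k - 1) := mul_nonneg h1 (by linarith)
  have e3 : 0 < (nii - nij) * m := mul_pos (by linarith) (by linarith)
  have e4 : 0 ≤ nij * m := mul_nonneg h1 (by linarith)
  nlinarith

/-- two negative coordinates, second case -/
theorem lemC2 {nii nij nil m k : ℝ} (h1 : 0 ≤ nij) (h3 : nij < nii)
    (hk : 1 ≤ k) (hm : 1 ≤ m) (hc : 2 * nil < nii) (hr : nii * m + nij * k ≤ nil * (1 + m + k)) :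
    m < 1 + k := by
  by_contra h
  push Not at h
  have e1 : 0 < (nii - 2 * nil) * (1 + m + k) := mul_pos (by linarith) (by linarith)
  have e2 : 0 ≤ nij * k := mul_nonneg h1 (by linarith)
  have e3 : 0 ≤ nii * (m - 1 - k) := mul_nonneg (by linarith) (by linarith)
  nlinarith

/-- two equal negative coordinates -/
theorem lemC3 {nii nij nil m : ℝ} (h1 : 0 ≤ nij) (h3 : nij < nii) (hm : 1 ≤ m)
    (hc : 3 * nil < nii + nij) (hr : nii * m + nij * m ≤ nil * (1 + m + m)) : False := by
  have e1 : 0 < (nii + nij - 3 * nil) * (1 + m + m) := mul_pos (by linarith) (by linarith)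
  have e2 : 0 ≤ (nii + nij) * (m - 1) := mul_nonneg (by linarith) (by linarith)
  nlinarith

/-- two negative coordinates -/
theorem lemC {nii nij nil njj nji njl : ℝ} (hij : 0 ≤ nij) (hil : 0 ≤ nil) (hji : 0 ≤ nji)
    (hjl : 0 ≤ njl) (hi : nij + nil < nii) (hj : nji + njl < njj)
    (c1 : 2 * njl < njj ∨ 2 * nil < nij) (c2 : 2 * nil < nii ∨ 2 * njl < nji)
    (c3 : 3 * nil < nii + nij ∨ 3 * njl < njj + nji) {m k : ℤ} (hm : 1 ≤ m) (hk : 1 ≤ k)
    (ri : 0 ≤ nii * (-m) + nij * (-k) + nil * (1 + m + k))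
    (rj : 0 ≤ njj * (-k) + nji * (-m) + njl * (1 + m + k)) : False := by
  have hm' : (1 : ℝ) ≤ m := by exact_mod_cast hm
  have hk' : (1 : ℝ) ≤ k := by exact_mod_cast hk
  have ri' : nii * m + nij * k ≤ nil * (1 + m + k) := by linarith
  have rj' : njj * k + nji * m ≤ njl * (1 + k + m) := by linarith
  rcases c1 with c1 | c1
  · rcases c2 with c2 | c2
    · have e1 : (m : ℝ) < 1 + k := lemC2 hij (by linarith) hk' hm' c2 ri'
      have e2 : (k : ℝ) < 1 + m := lemC2 hji (by linarith) hm' hk' c1 rj'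
      have e3 : m < 1 + k := by exact_mod_cast e1
      have e4 : k < 1 + m := by exact_mod_cast e2
      have e5 : m = k := by omega
      subst e5
      rcases c3 with c3 | c3
      · exact lemC3 hij (by linarith) hm' c3 ri'
      · exact lemC3 hji (by linarith) hm' c3 rj'
    · exact lemC1 hji (by linarith) hk' hm' c2 rj'
  · exact lemC1 hij (by linarith) hm' hk' c1 ri'

/-- two negative coordinates, sum at most zero -/
theorem lemD1 {nii nij nil m k : ℝ} (h1 : 0 ≤ nij) (h3 : nij < nii) (hm : 0 < m)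
    (hk : 0 < k) (hc : 2 * nil < nij) (hr : nii * m + nij * k ≤ nil * (m + k)) : False := by
  have e1 : 0 < (nij - 2 * nil) * (m + k) := mul_pos (by linarith) (by linarith)
  have e2 : 0 ≤ nij * k := mul_nonneg h1 (by linarith)
  have e3 : 0 < (nii - nij) * m := mul_pos (by linarith) (by linarith)
  have e4 : 0 ≤ nij * m := mul_nonneg h1 (by linarith)
  nlinarith

theorem lemD2 {nii nij nil m k : ℝ} (h1 : 0 ≤ nij) (h3 : nij < nii)
    (hk : 0 < k) (hm : 0 < m) (hc : 2 * nil < nii) (hr : nii * m + nij * k ≤ nil * (m + k)) :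
    m < k := by
  by_contra h
  push Not at h
  have e1 : 0 < (nii - 2 * nil) * (m + k) := mul_pos (by linarith) (by linarith)
  have e2 : 0 ≤ nij * k := mul_nonneg h1 (by linarith)
  have e3 : 0 ≤ nii * (m - k) := mul_nonneg (by linarith) (by linarith)
  nlinarith

theorem lemD {nii nij nil njj nji njl : ℝ} (hij : 0 ≤ nij) (hil : 0 ≤ nil) (hji : 0 ≤ nji)
    (hjl : 0 ≤ njl) (hi : nij + nil < nii) (hj : nji + njl < njj)
    (c1 : 2 * njl < njj ∨ 2 * nil < nij) (c2 : 2 * nil < nii ∨ 2 * njl < nji)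
    {xi xj xl : ℝ} (hxi : xi < 0) (hxj : xj < 0) (hs : xi + xj + xl ≤ 0)
    (ri : 0 ≤ nii * xi + nij * xj + nil * xl)
    (rj : 0 ≤ njj * xj + nji * xi + njl * xl) : False := by
  have hl : xl ≤ -xi + -xj := by linarith
  have f1 : nil * xl ≤ nil * (-xi + -xj) := mul_le_mul_of_nonneg_left hl hil
  have f2 : njl * xl ≤ njl * (-xi + -xj) := mul_le_mul_of_nonneg_left hl hjl
  have ri' : nii * (-xi) + nij * (-xj) ≤ nil * (-xi + -xj) := by linarith
  have rj' : njj * (-xj) + nji * (-xi) ≤ njl * (-xj + -xi) := by linarith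
  rcases c1 with c1 | c1
  · rcases c2 with c2 | c2
    · have e1 : -xi < -xj := lemD2 hij (by linarith) (by linarith) (by linarith) c2 ri'
      have e2 : -xj < -xi := lemD2 hji (by linarith) (by linarith) (by linarith) c1 rj'
      linarith
    · exact lemD1 hji (by linarith) (by linarith) (by linarith) c2 rj'
  · exact lemD1 hij (by linarith) (by linarith) (by linarith) c1 ri'

/-- one negative integer coordinate -/
theorem oneNeg {nii nij nil nji njl nli nlj : ℝ} (hij : 0 ≤ nij) (hil : 0 ≤ nil)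
    (hjl : 0 ≤ njl) (hlj : 0 ≤ nlj)
    (hi : nij + nil < nii) (c1 : 2 * nij < nii ∨ 2 * nlj < nli)
    (c2 : 2 * nil < nii ∨ 2 * njl < nji) {xi xj xl : ℤ} (hxi : xi < 0) (hxj : 0 ≤ xj)
    (hxl : 0 ≤ xl) (hs : xi + xj + xl = 1) {njj nll : ℝ}
    (ri : 0 ≤ nii * xi + nij * xj + nil * xl)
    (rj : 0 ≤ nji * xi + njj * xj + njl * xl)
    (rl : 0 ≤ nli * xi + nlj * xj + nll * xl) : False := by
  have hm : (1 : ℝ) ≤ -xi := by
    have : 1 ≤ -xi := by omega
    exact_mod_cast this
  by_cases h1 : xj = 0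
  · have h2 : xl = 1 + -xi := by omega
    subst h1
    subst h2
    push_cast at ri rj
    refine lemB (m := -(xi : ℝ)) (nii := nii) (nij := nil) (nli := nji) (nlj := njl) hil hjl hm c2
      ?_ ?_
    · linarith
    · linarith
  · by_cases h2 : xl = 0
    · have h3 : xj = 1 + -xi := by omega
      subst h2
      subst h3
      push_cast at ri rl
      refine lemB (m := -(xi : ℝ)) (nii := nii) (nij := nij) (nli := nli) (nlj := nlj) hij hlj hm
        c1 ?_ ?_
      · linarith
      · linarith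
    · have h3 : xj ≤ -xi := by omega
      have h4 : xl ≤ -xi := by omega
      have h3' : (xj : ℝ) ≤ -xi := by exact_mod_cast h3
      have h4' : (xl : ℝ) ≤ -xi := by exact_mod_cast h4
      refine lemA (m := -(xi : ℝ)) hij hil hi (by linarith) h3' h4' ?_
      linarith

theorem main : S_LAT := by
  intro N hN
  have h0 : 0 ≤ N 0 1 ∧ 0 ≤ N 0 2 ∧ N 0 1 + N 0 2 < N 0 0 ∧
      (2 * N 0 1 < N 0 0 ∨ 2 * N 2 1 < N 2 0) ∧ (2 * N 0 2 < N 0 0 ∨ 2 * N 1 2 < N 1 0) ∧
      (3 * N 1 0 < N 1 1 + N 1 2 ∨ 3 * N 2 0 < N 2 2 + N 2 1) := hN 0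
  have h1 : 0 ≤ N 1 2 ∧ 0 ≤ N 1 0 ∧ N 1 2 + N 1 0 < N 1 1 ∧
      (2 * N 1 2 < N 1 1 ∨ 2 * N 0 2 < N 0 1) ∧ (2 * N 1 0 < N 1 1 ∨ 2 * N 2 0 < N 2 1) ∧
      (3 * N 2 1 < N 2 2 + N 2 0 ∨ 3 * N 0 1 < N 0 0 + N 0 2) := hN 1
  have h2 : 0 ≤ N 2 0 ∧ 0 ≤ N 2 1 ∧ N 2 0 + N 2 1 < N 2 2 ∧
      (2 * N 2 0 < N 2 2 ∨ 2 * N 1 0 < N 1 2) ∧ (2 * N 2 1 < N 2 2 ∨ 2 * N 0 1 < N 0 2) ∧
      (3 * N 0 2 < N 0 0 + N 0 1 ∨ 3 * N 1 2 < N 1 1 + N 1 0) := hN 2
  obtain ⟨a1, a2, a3, a4, a5, a6⟩ := h0
  obtain ⟨b1, b2, b3, b4, b5, b6⟩ := h1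
  obtain ⟨d1, d2, d3, d4, d5, d6⟩ := h2
  constructor
  · intro x hs hr
    have r0 := hr 0
    have r1 := hr 1
    have r2 := hr 2
    rcases lt_or_ge (x 0) 0 with n0 | n0 <;> rcases lt_or_ge (x 1) 0 with n1 | n1 <;>
      rcases lt_or_ge (x 2) 0 with n2 | n2
    · omega
    · -- 0, 1 negative
      exfalso
      have e : x 2 = 1 + -x 0 + -x 1 := by omega
      rw [e] at r0 r1
      push_cast at r0 r1
      refine lemC (nii := N 0 0) (nij := N 0 1) (nil := N 0 2) (njj := N 1 1) (nji := N 1 0)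
        (njl := N 1 2) a1 a2 b2 b1 a3 (by linarith) b4 a5
        (by rcases d6 with h | h
            · left; linarith
            · right; linarith) (m := -x 0) (k := -x 1) (by omega) (by omega) ?_ ?_
      · push_cast; linarith
      · push_cast; linarith
    · -- 0, 2 negative
      exfalso
      have e : x 1 = 1 + -x 0 + -x 2 := by omega
      rw [e] at r0 r2
      push_cast at r0 r2
      refine lemC (nii := N 0 0) (nij := N 0 2) (nil := N 0 1) (njj := N 2 2) (nji := N 2 0)
        (njl := N 2 1) a2 a1 d1 d2 (by linarith) (by linarith) d5 a4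
        (by rcases b6 with h | h
            · right; linarith
            · left; linarith) (m := -x 0) (k := -x 2) (by omega) (by omega) ?_ ?_
      · push_cast; linarith
      · push_cast; linarith
    · -- 0 negative
      exfalso
      exact oneNeg (nii := N 0 0) (nij := N 0 1) (nil := N 0 2) (nji := N 1 0) (njl := N 1 2)
        (nli := N 2 0) (nlj := N 2 1) (njj := N 1 1) (nll := N 2 2) a1 a2 b1 d2 a3 a4 a5 n0 n1 n2
        hs r0 r1 r2
    · -- 1, 2 negative
      exfalso
      have e : x 0 = 1 + -x 1 + -x 2 := by omega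
      rw [e] at r1 r2
      push_cast at r1 r2
      refine lemC (nii := N 1 1) (nij := N 1 2) (nil := N 1 0) (njj := N 2 2) (nji := N 2 1)
        (njl := N 2 0) b1 b2 d2 d1 (by linarith) (by linarith) d4 b5
        (by rcases a6 with h | h
            · left; linarith
            · right; linarith) (m := -x 1) (k := -x 2) (by omega) (by omega) ?_ ?_
      · push_cast; linarith
      · push_cast; linarith
    · -- 1 negative
      exfalso
      exact oneNeg (nii := N 1 1) (nij := N 1 2) (nil := N 1 0) (nji := N 2 1) (njl := N 2 0)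
        (nli := N 0 1) (nlj := N 0 2) (njj := N 2 2) (nll := N 0 0) b1 b2 d1 a2 b3 b4 b5 n1 n2 n0
        (by omega) (by linarith) (by linarith) (by linarith)
    · -- 2 negative
      exfalso
      exact oneNeg (nii := N 2 2) (nij := N 2 0) (nil := N 2 1) (nji := N 0 2) (njl := N 0 1)
        (nli := N 1 2) (nlj := N 1 0) (njj := N 0 0) (nll := N 1 1) d1 d2 a1 b2 d3 d4 d5 n2 n0 n1
        (by omega) (by linarith) (by linarith) (by linarith)
    · -- all nonnegative
      have hcase : (x 0 = 1 ∧ x 1 = 0 ∧ x 2 = 0) ∨ (x 0 = 0 ∧ x 1 = 1 ∧ x 2 = 0) ∨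
          (x 0 = 0 ∧ x 1 = 0 ∧ x 2 = 1) := by omega
      rcases hcase with ⟨e0, e1, e2⟩ | ⟨e0, e1, e2⟩ | ⟨e0, e1, e2⟩
      · left
        funext i
        fin_cases i
        · exact e0
        · exact e1
        · exact e2
      · right; left
        funext i
        fin_cases i
        · exact e0
        · exact e1
        · exact e2
      · right; right
        funext i
        fin_cases i
        · exact e0
        · exact e1
        · exact e2
  · intro x hr hx
    by_contra hs
    push Not at hs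
    have r0 := hr 0
    have r1 := hr 1
    have r2 := hr 2
    rcases lt_or_ge (x 0) 0 with n0 | n0
    · rcases lt_or_ge (x 1) 0 with n1 | n1
      · exact lemD (nii := N 0 0) (nij := N 0 1) (nil := N 0 2) (njj := N 1 1) (nji := N 1 0)
          (njl := N 1 2) a1 a2 b2 b1 a3 (by linarith) b4 a5 n0 n1 hs (by linarith) (by linarith)
      · rcases lt_or_ge (x 2) 0 with n2 | n2
        · exact lemD (nii := N 0 0) (nij := N 0 2) (nil := N 0 1) (njj := N 2 2) (nji := N 2 0)
            (njl := N 2 1) a2 a1 d1 d2 (by linarith) (by linarith) d5 a4 n0 n2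
            (xl := x 1) (by linarith) (by linarith) (by linarith)
        · exact lemA (m := - x 0) a1 a2 a3 (by linarith) (xj := x 1) (xl := x 2) (by linarith)
            (by linarith) (by linarith)
    · rcases lt_or_ge (x 1) 0 with n1 | n1
      · rcases lt_or_ge (x 2) 0 with n2 | n2
        · exact lemD (nii := N 1 1) (nij := N 1 2) (nil := N 1 0) (njj := N 2 2) (nji := N 2 1)
            (njl := N 2 0) b1 b2 d2 d1 (by linarith) (by linarith) d4 b5 n1 n2 (xl := x 0)
            (by linarith) (by linarith) (by linarith)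
        · exact lemA (m := - x 1) b1 b2 b3 (by linarith) (xj := x 2) (xl := x 0) (by linarith)
            (by linarith) (by linarith)
      · rcases lt_or_ge (x 2) 0 with n2 | n2
        · exact lemA (m := - x 2) d1 d2 d3 (by linarith) (xj := x 0) (xl := x 1) (by linarith)
            (by linarith) (by linarith)
        · apply hx
          funext i
          fin_cases i
          · show x 0 = 0; linarith
          · show x 1 = 0; linarith
          · show x 2 = 0; linarith

end Pool.Agent.R69.KM.Lat
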