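import Pool.Agent.R69.KM.Stm

/-! Project KM, piece LOW (helper452): lower bound for the measure of the unit triangle -/

set_option autoImplicit false

open MeasureTheory
open scoped ENNReal

namespace Pool.Agent.R69.KM.Low

open Pool.Agent.R69.Klein Pool.Agent.R69.KM

lemma det_PM (τ : Equiv.Perm (Fin 3)) : |(PM τ).det| = 1 := by
  have h : PM τ = (1 : Matrix (Fin 3) (Fin 3) ℝ).submatrix id τ := by
    ext a j
    simp [PM, Matrix.one_apply]
  rw [h, Matrix.det_permute', Matrix.det_one, mul_one]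
  rcases Int.units_eq_one_or (Equiv.Perm.sign τ) with h1 | h1 <;> rw [h1] <;> simp

lemma dt_Tr (σ : Equiv.Perm (Fin 3)) (ε : Fin 3 → Bool) (G : Matrix (Fin 3) (Fin 3) ℝ) (N : Fr)
    (hG : |G.det| = 1) : |dt (Tr σ ε G N)| = |dt N| := by
  have h : Matrix.of (Tr σ ε G N) =
      Matrix.diagonal (fun i => sg (ε i)) * ((Matrix.of N).submatrix σ id * G) := by
    ext i j
    rw [Matrix.diagonal_mul]
    simp [Tr, Matrix.vecMul, Matrix.mul_apply, dotProduct]
  have h2 : ∀ i, |sg (ε i)| = 1 := by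
    intro i
    unfold sg
    split_ifs <;> simp
  have h3 : |((Equiv.Perm.sign σ : ℤ) : ℝ)| = 1 := by
    rcases Int.units_eq_one_or (Equiv.Perm.sign σ) with h1 | h1 <;> rw [h1] <;> simp
  rw [dt_eq, dt_eq, h, Matrix.det_mul, Matrix.det_mul, Matrix.det_diagonal, Matrix.det_permute,
    abs_mul, abs_mul, abs_mul, hG, Finset.abs_prod, h3, Finset.prod_congr rfl fun i _ => h2 i]
  simp

lemma rho_Tr (σ : Equiv.Perm (Fin 3)) (ε : Fin 3 → Bool) (τ : Equiv.Perm (Fin 3)) (N : Fr) :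
    rho (Tr σ ε (PM τ) N) = rho N := by
  unfold rho
  rw [dt_Tr σ ε (PM τ) N (det_PM τ)]

lemma Tr_one (N : Fr) : Tr 1 (fun _ => true) (PM 1) N = N := by
  have h : PM 1 = (1 : Matrix (Fin 3) (Fin 3) ℝ) := by
    ext a j
    rcases eq_or_ne a j with rfl | h
    · rw [Matrix.one_apply_eq]
      simp [PM]
    · rw [Matrix.one_apply_ne h]
      simp [PM, h]
  funext i
  simp [Tr, h, sg]

lemma Tr_meas (σ : Equiv.Perm (Fin 3)) (ε : Fin 3 → Bool) (G : Matrix (Fin 3) (Fin 3) ℝ) :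
    Measurable (Tr σ ε G) := by
  refine Continuous.measurable ?_
  refine continuous_pi fun i => ?_
  have h1 : Continuous (fun N : Fr => N (σ i)) := continuous_apply (σ i)
  have h2 : Continuous (fun N : Fr => Matrix.vecMul (N (σ i)) G) :=
    h1.matrix_vecMul continuous_const
  exact h2.const_smul (sg (ε i))

/-- the indices of the symmetries -/
abbrev J : Type := Equiv.Perm (Fin 3) × (Fin 3 → Bool) × Equiv.Perm (Fin 3)

/-- the sets -/
def SS : Option (J ⊕ J) → Set Fr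
  | none => co WA
  | some (Sum.inl j) => {N | Tr j.1 j.2.1 (PM j.2.2) N ∈ co WC}
  | some (Sum.inr j) => {N | Tr j.1 j.2.1 (PM j.2.2) N ∈ co WS}

lemma fm_pre (V : Fin 3 → Matrix (Fin 3) (Fin 3) ℝ) (hV : MeasurableSet (co V)) (j : J) :
    fm {N | Tr j.1 j.2.1 (PM j.2.2) N ∈ co V} = I (fun N => ho V (Tr j.1 j.2.1 (PM j.2.2) N)) := by
  have hS : MeasurableSet {N | Tr j.1 j.2.1 (PM j.2.2) N ∈ co V} := Tr_meas _ _ _ hV
  unfold fm
  rw [withDensity_apply _ hS, ← lintegral_indicator hS]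
  unfold I
  refine lintegral_congr fun N => ?_
  unfold ho
  by_cases h : Tr j.1 j.2.1 (PM j.2.2) N ∈ co V
  · rw [Set.indicator_of_mem (show N ∈ {N | Tr j.1 j.2.1 (PM j.2.2) N ∈ co V} from h),
      Set.indicator_of_mem h, rho_Tr]
  · rw [Set.indicator_of_notMem (show N ∉ {N | Tr j.1 j.2.1 (PM j.2.2) N ∈ co V} from h),
      Set.indicator_of_notMem h]

lemma fm_co (V : Fin 3 → Matrix (Fin 3) (Fin 3) ℝ) (hV : MeasurableSet (co V)) :
    fm (co V) = I (ho V) := by
  unfold fm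
  rw [withDensity_apply _ hV, ← lintegral_indicator hV]
  rfl

lemma lns_meas : Measurable lns := fun _ ht => ht

theorem main : S_SYM → S_INC → S_DIS → S_TI → S_CM → S_LOW := by
  intro hSYM hINC hDIS hTI hCM
  have dC : ∀ i, (WC i).det ≠ 0 := by
    intro i
    fin_cases i <;> simp [WC, Matrix.det_fin_three]
  have dS : ∀ i, (WS i).det ≠ 0 := by
    intro i
    fin_cases i <;> simp [WS, Matrix.det_fin_three] <;> norm_num
  have dA : ∀ i, (WA i).det ≠ 0 := by
    intro i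
    fin_cases i <;> simp [WA, Matrix.det_fin_three]
  obtain ⟨-, mC, -, -, mhC, -, -, HC⟩ := hCM WC dC
  obtain ⟨-, mS, -, -, mhS, -, -, HS⟩ := hCM WS dS
  obtain ⟨-, mA, -, -, mhA, -, -, HA⟩ := hCM WA dA
  have hmeas : ∀ k, MeasurableSet (SS k) := by
    rintro (_ | j | j)
    · exact mA
    · exact Tr_meas _ _ _ mC
    · exact Tr_meas _ _ _ mS
  have hdisj : Pairwise (Function.onFun Disjoint SS) := by
    rintro (_ | j | j) (_ | j' | j') hne
    · exact absurd rfl hne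
    · refine Set.disjoint_left.2 fun N h h' => ?_
      exact (hDIS N j'.1 j'.1 j'.2.1 j'.2.1 j'.2.2 j'.2.2).2.2.2.1 h' h
    · refine Set.disjoint_left.2 fun N h h' => ?_
      exact (hDIS N j'.1 j'.1 j'.2.1 j'.2.1 j'.2.2 j'.2.2).2.2.2.2 h' h
    · refine Set.disjoint_left.2 fun N h h' => ?_
      exact (hDIS N j.1 j.1 j.2.1 j.2.1 j.2.2 j.2.2).2.2.2.1 h h'
    · refine Set.disjoint_left.2 fun N h h' => hne ?_
      obtain ⟨h1, h2, h3⟩ := (hDIS N j.1 j'.1 j.2.1 j'.2.1 j.2.2 j'.2.2).1 h h'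
      rw [show j = j' from Prod.ext h1 (Prod.ext h2 h3)]
    · refine Set.disjoint_left.2 fun N h h' => ?_
      exact (hDIS N j.1 j'.1 j.2.1 j'.2.1 j.2.2 j'.2.2).2.2.1 h h'
    · refine Set.disjoint_left.2 fun N h h' => ?_
      exact (hDIS N j.1 j.1 j.2.1 j.2.1 j.2.2 j.2.2).2.2.2.2 h h'
    · refine Set.disjoint_left.2 fun N h h' => ?_
      exact (hDIS N j'.1 j.1 j'.2.1 j.2.1 j'.2.2 j.2.2).2.2.1 h' h
    · refine Set.disjoint_left.2 fun N h h' => hne ?_
      obtain ⟨h1, h2, h3⟩ := (hDIS N j.1 j'.1 j.2.1 j'.2.1 j.2.2 j'.2.2).2.1 h h'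
      rw [show j = j' from Prod.ext h1 (Prod.ext h2 h3)]
  have hC : ∀ j : J, fm (SS (some (Sum.inl j))) = I (ho WC) := by
    intro j
    have h1 := fm_pre WC mC j
    rw [hTI (ho WC) mhC HC j.1 j.2.1 (PM j.2.2) (det_PM _)] at h1
    exact h1
  have hS : ∀ j : J, fm (SS (some (Sum.inr j))) = I (ho WS) := by
    intro j
    have h1 := fm_pre WS mS j
    rw [hTI (ho WS) mhS HS j.1 j.2.1 (PM j.2.2) (det_PM _)] at h1
    exact h1
  have hA : fm (SS none) = I (ho WA) := fm_co WA mA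
  have hcard : Fintype.card J = 288 := by
    rw [Fintype.card_prod, Fintype.card_prod, Fintype.card_perm, Fintype.card_fun]
    simp [Nat.factorial]
  have hsum : fm (⋃ k, SS k) = 288 * (I (ho WC) + I (ho WS)) + I (ho WA) := by
    rw [measure_iUnion hdisj hmeas, tsum_fintype, Fintype.sum_option, Fintype.sum_sum_type, hA,
      Finset.sum_congr rfl fun j _ => hC j, Finset.sum_congr rfl fun j _ => hS j,
      Finset.sum_const, Finset.sum_const, Finset.card_univ, hcard, nsmul_eq_mul, nsmul_eq_mul]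
    push_cast
    ring
  have hsub : (⋃ k, SS k) ⊆ lns ⁻¹' withFace (n := 2) SX := by
    rintro N hN
    obtain ⟨k, hk⟩ := Set.mem_iUnion.1 hN
    rcases k with (_ | j | j)
    · have h1 := hINC.2.2 N hk
      have h2 := hSYM N 1 (fun _ => true) 1
      rw [Tr_one] at h2
      exact h2 h1.1 h1.2
    · have h1 := hINC.1 _ hk
      exact hSYM N j.1 j.2.1 j.2.2 h1.1 h1.2
    · have h1 := hINC.2.1 _ hk
      exact hSYM N j.1 j.2.1 j.2.2 h1.1 h1.2
  unfold S_LOW
  rw [← hsum]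
  exact (measure_mono hsub).trans (Measure.le_map_apply lns_meas.aemeasurable _)

end Pool.Agent.R69.KM.Low
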