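import Pool.Agent.R69.KM.Stm2

set_option autoImplicit false

namespace Pool.Agent.R69.KM.Nearp

open Pool.Agent.R69.KM

theorem main : S_NEARP := by
  intro p i hp
  obtain ⟨M, hM⟩ : ∃ M, M = |p 0| + |p 1| + |p 2| + 1 := ⟨_, rfl⟩
  have h0 := abs_nonneg (p 0)
  have h1 := abs_nonneg (p 1)
  have h2 := abs_nonneg (p 2)
  have hM1 : 0 < M := by linarith
  obtain ⟨e, he⟩ : ∃ e, e = min (1 / 4) (-p i / (2 * M)) := ⟨_, rfl⟩
  have he0 : 0 < e := by
    rw [he]
    exact lt_min (by norm_num) (div_pos (by linarith) (by linarith))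
  have he1 : e ≤ 1 / 4 := he ▸ min_le_left _ _
  have he2 : e * (2 * M) ≤ -p i := by
    have h3 : e ≤ -p i / (2 * M) := he ▸ min_le_right _ _
    rwa [le_div_iff₀ (by linarith)] at h3
  have hN : ∀ a b : Fin 3, (if a = b then (1 : ℝ) else e) = if a = b then 1 else e :=
    fun _ _ => rfl
  refine ⟨fun a b => if a = b then 1 else e, ?_, ?_⟩
  · intro a
    fin_cases a <;> simp <;> refine ⟨he0, ?_, ?_, ?_⟩ <;>
      first | linarith | (left; linarith)
  · have a0 := le_abs_self (p 0)
    have a1 := le_abs_self (p 1)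
    have a2 := le_abs_self (p 2)
    have hb : ∀ x : ℝ, |x| ≤ M → e * x ≤ e * M := fun x hx =>
      mul_le_mul_of_nonneg_left ((le_abs_self x).trans hx) he0.le
    have hq : ∀ x y : ℝ, x + y ≤ M → e * x + e * y ≤ e * M := fun x y hxy => by
      rw [← mul_add]
      exact mul_le_mul_of_nonneg_left hxy he0.le
    fin_cases i
    · simp [vl] at hp he2 ⊢
      have := hq (p 1) (p 2) (by linarith)
      linarith
    · simp [vl] at hp he2 ⊢
      have := hq (p 0) (p 2) (by linarith)
      linarith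
    · simp [vl] at hp he2 ⊢
      have := hq (p 0) (p 1) (by linarith)
      linarith

end Pool.Agent.R69.KM.Nearp
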