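import Pool.Agent.R69.KM.Stm2

/-!
KM2-OPN: the sets `Op p` and `On i p` are open and invariant under scalings of the rows.
-/

set_option autoImplicit false

namespace Pool.Agent.R69.KM.Opn

open Pool.Agent.R69.Klein Pool.Agent.R69.KM

theorem cont_entry (i j : Fin 3) : Continuous fun N : Fr => N i j := by fun_prop

theorem isOpen_or {p q : Fr → Prop} (hp : IsOpen {N | p N}) (hq : IsOpen {N | q N}) :
    IsOpen {N | p N ∨ q N} := hp.union hq

theorem isOpen_ERo : IsOpen ERo := by
  have h : ERo = ⋂ i : Fin 3, {N : Fr | 0 < N i (i + 1) ∧ 0 < N i (i + 2) ∧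
      N i (i + 1) + N i (i + 2) < N i i ∧
      (2 * N i (i + 1) < N i i ∨ 2 * N (i + 2) (i + 1) < N (i + 2) i) ∧
      (2 * N i (i + 2) < N i i ∨ 2 * N (i + 1) (i + 2) < N (i + 1) i) ∧
      (3 * N (i + 1) i < N (i + 1) (i + 1) + N (i + 1) (i + 2) ∨
        3 * N (i + 2) i < N (i + 2) (i + 2) + N (i + 2) (i + 1))} := by
    ext N
    simp only [ERo, Set.mem_iInter, Set.mem_setOf_eq]
  rw [h]
  refine isOpen_iInter_of_finite fun i => ?_
  refine IsOpen.and ?_ (IsOpen.and ?_ (IsOpen.and ?_ (IsOpen.and (isOpen_or ?_ ?_)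
    (IsOpen.and (isOpen_or ?_ ?_) (isOpen_or ?_ ?_)))))
  all_goals exact isOpen_lt (by fun_prop) (by fun_prop)

theorem scl {N : Fr} (h : N ∈ ERo) {s : Fin 3 → ℝ} (hs : ∀ r, 0 < s r) :
    (fun r => s r • N r) ∈ ERo := by
  intro i
  obtain ⟨h1, h2, h3, h4, h5, h6⟩ := h i
  simp only [Pi.smul_apply, smul_eq_mul]
  refine ⟨mul_pos (hs i) h1, mul_pos (hs i) h2, ?_, ?_, ?_, ?_⟩
  · have := mul_lt_mul_of_pos_left h3 (hs i)
    linarith
  · rcases h4 with h | h
    · left
      have := mul_lt_mul_of_pos_left h (hs i)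
      linarith
    · right
      have := mul_lt_mul_of_pos_left h (hs (i + 2))
      linarith
  · rcases h5 with h | h
    · left
      have := mul_lt_mul_of_pos_left h (hs i)
      linarith
    · right
      have := mul_lt_mul_of_pos_left h (hs (i + 1))
      linarith
  · rcases h6 with h | h
    · left
      have := mul_lt_mul_of_pos_left h (hs (i + 1))
      linarith
    · right
      have := mul_lt_mul_of_pos_left h (hs (i + 2))
      linarith

theorem upd_eq (N : Fr) (i : Fin 3) (t : ℝ) :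
    Function.update N i (t • N i) = fun r => (if r = i then t else 1) • N r := by
  funext r
  by_cases h : r = i
  · subst h
    simp
  · simp [Function.update_of_ne h, h]

theorem s_pos (i : Fin 3) {t : ℝ} (ht : 0 < t) (r : Fin 3) : 0 < (if r = i then t else 1) := by
  split_ifs
  · exact ht
  · exact one_pos

theorem vl_smul (s : ℝ) (n p : Fin 3 → ℝ) : vl (s • n) p = s * vl n p := by
  simp only [vl, Pi.smul_apply, smul_eq_mul]
  ring

theorem ERo_sub : ERo ⊆ ER := by
  intro N h i
  obtain ⟨h1, h2, h3, h4, h5, h6⟩ := h i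
  exact ⟨h1.le, h2.le, h3, h4, h5, h6⟩

theorem cont_vl (i : Fin 3) (p : Fin 3 → ℝ) : Continuous fun N : Fr => vl (N i) p := by
  unfold vl
  fun_prop

theorem main : S_OPN := by
  intro p i
  refine ⟨?_, ?_, fun N h => ERo_sub h.1, ?_, ?_, fun N h => ERo_sub h.1⟩
  · refine IsOpen.and isOpen_ERo ?_
    have h : {N : Fr | ∀ i, 0 < vl (N i) p} = ⋂ i : Fin 3, {N : Fr | 0 < vl (N i) p} := by
      ext N
      simp only [Set.mem_iInter, Set.mem_setOf_eq]
    rw [h]
    exact isOpen_iInter_of_finite fun i => isOpen_lt continuous_const (cont_vl i p)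
  · intro N hN j t ht
    rw [upd_eq]
    refine ⟨scl hN.1 (s_pos j ht), fun r => ?_⟩
    simp only
    rw [vl_smul]
    exact mul_pos (s_pos j ht r) (hN.2 r)
  · exact IsOpen.and isOpen_ERo (isOpen_lt (cont_vl i p) continuous_const)
  · intro N hN j t ht
    rw [upd_eq]
    refine ⟨scl hN.1 (s_pos j ht), ?_⟩
    simp only
    rw [vl_smul]
    exact mul_neg_of_pos_of_neg (s_pos j ht i) hN.2

end Pool.Agent.R69.KM.Opn
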