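import Pool.Agent.R69.KM.Stm2

/-!
# KM2-POS: an open nonempty cone of nondegenerate frames has a positive integral
-/

set_option autoImplicit false

open MeasureTheory
open scoped ENNReal

namespace Pool.Agent.R69.KM.Pos

open Pool.Agent.R69.KM

theorem cont_dt : Continuous dt := by
  unfold dt
  fun_prop

theorem meas_rho : Measurable rho :=
  ((cont_dt.abs.pow 3).measurable.inv).ennreal_ofReal

theorem row_ne {N : Fr} (h : dt N ≠ 0) (i : Fin 3) : N i ≠ 0 := by
  intro h0
  have hj : ∀ j, N i j = 0 := fun j => by rw [h0]; rfl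
  apply h
  fin_cases i
  · have h1 := hj 0
    have h2 := hj 1
    have h3 := hj 2
    simp at h1 h2 h3
    simp [dt, h1, h2, h3]
  · have h1 := hj 0
    have h2 := hj 1
    have h3 := hj 2
    simp at h1 h2 h3
    simp [dt, h1, h2, h3]
  · have h1 := hj 0
    have h2 := hj 1
    have h3 := hj 2
    simp at h1 h2 h3
    simp [dt, h1, h2, h3]

/-- scaling all three rows -/
theorem scale {O : Set Fr} (hC : Cn O) {N : Fr} (hN : N ∈ O) (t : Fin 3 → ℝ)
    (ht : ∀ i, 0 < t i) : (fun i => t i • N i) ∈ O := by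
  have h0 := hC N hN 0 (t 0) (ht 0)
  have h1 := hC _ h0 1 (t 1) (ht 1)
  have h2 := hC _ h1 2 (t 2) (ht 2)
  have he : (fun i => t i • N i) = Function.update (Function.update (Function.update N 0
      (t 0 • N 0)) 1 (t 1 • (Function.update N 0 (t 0 • N 0)) 1)) 2
      (t 2 • (Function.update (Function.update N 0 (t 0 • N 0)) 1
        (t 1 • (Function.update N 0 (t 0 • N 0)) 1)) 2) := by
    funext i
    fin_cases i
    · simp [Function.update_apply]
    · simp [Function.update_apply]
    · simp [Function.update_apply]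
  rw [he]
  exact h2

theorem main : S_POS := by
  intro O hO hne hC hdt
  obtain ⟨N, hN⟩ := hne
  set B : Set Fr := {N : Fr | ∀ i, 1 < ‖N i‖ ∧ ‖N i‖ < 2} with hB
  have hBo : IsOpen B := by
    have : B = ⋂ i : Fin 3, ({N : Fr | 1 < ‖N i‖} ∩ {N : Fr | ‖N i‖ < 2}) := by
      ext N
      simp [hB]
    rw [this]
    refine isOpen_iInter_of_finite fun i => IsOpen.inter ?_ ?_
    · exact isOpen_lt continuous_const (continuous_apply i).norm
    · exact isOpen_lt (continuous_apply i).norm continuous_const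
  have hUo : IsOpen (O ∩ B) := hO.inter hBo
  have hUne : (O ∩ B).Nonempty := by
    have hpos : ∀ i, 0 < ‖N i‖ := fun i => norm_pos_iff.2 (row_ne (hdt N hN) i)
    refine ⟨fun i => ((3 / 2) / ‖N i‖) • N i, scale hC hN _ fun i => by
      have := hpos i
      positivity, ?_⟩
    intro i
    have h := hpos i
    have h2 : ‖((3 / 2) / ‖N i‖) • N i‖ = 3 / 2 := by
      rw [norm_smul, Real.norm_eq_abs, abs_of_pos (by positivity)]
      field_simp
    constructor
    · show 1 < ‖((3 / 2) / ‖N i‖) • N i‖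
      rw [h2]; norm_num
    · show ‖((3 / 2) / ‖N i‖) • N i‖ < 2
      rw [h2]; norm_num
  have hvol : 0 < volume (O ∩ B) := hUo.measure_pos volume hUne
  have hsub : O ∩ B ⊆ Bx := fun M hM i => ⟨(hM.2 i).1.le, (hM.2 i).2⟩
  have hrho : ∀ M ∈ O ∩ B, 0 < rho M := by
    intro M hM
    unfold rho
    rw [ENNReal.ofReal_pos]
    have := abs_pos.2 (hdt M hM.1)
    positivity
  have h1 : 0 < ∫⁻ M in O ∩ B, rho M := by
    rw [setLIntegral_pos_iff meas_rho]
    refine lt_of_lt_of_le hvol (measure_mono ?_)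
    intro M hM
    exact ⟨(hrho M hM).ne', hM⟩
  have h2 : ∫⁻ M in O ∩ B, rho M ≤ I (O.indicator rho) := by
    unfold I
    calc ∫⁻ M in O ∩ B, rho M = ∫⁻ M in O ∩ B, O.indicator rho M := by
          refine setLIntegral_congr_fun hUo.measurableSet ?_
          intro M hM
          show rho M = O.indicator rho M
          rw [Set.indicator_of_mem hM.1]
      _ ≤ ∫⁻ M in Bx, O.indicator rho M := lintegral_mono_set hsub
  exact lt_of_lt_of_le h1 h2

end Pool.Agent.R69.KM.Pos
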