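import Pool.Agent.R69.KM.Stm

set_option autoImplicit false

open MeasureTheory
open scoped ENNReal

namespace Pool.Agent.R69.KM.Prm

open Pool.Agent.R69.KM

theorem main : S_PRM := by
  intro f σ
  let e : Fr ≃ᵐ Fr := MeasurableEquiv.piCongrLeft (fun _ : Fin 3 => Fin 3 → ℝ) σ.symm
  have he : ∀ N : Fr, e N = fun i => N (σ i) := by
    intro N
    funext j
    have h := MeasurableEquiv.piCongrLeft_apply_apply (β := fun _ : Fin 3 => Fin 3 → ℝ) σ.symm
      (x := N) (σ j)
    rw [Equiv.symm_apply_apply] at h
    exact h
  have hmp : MeasurePreserving e volume volume :=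
    volume_measurePreserving_piCongrLeft (fun _ : Fin 3 => Fin 3 → ℝ) σ.symm
  have hB : e ⁻¹' Bx = Bx := by
    ext N
    simp only [Set.mem_preimage, he, Bx, Set.mem_setOf_eq]
    constructor
    · intro h i
      have := h (σ.symm i)
      rwa [Equiv.apply_symm_apply] at this
    · intro h i
      exact h (σ i)
  have h := hmp.setLIntegral_comp_preimage_emb e.measurableEmbedding f Bx
  rw [hB] at h
  simp only [he] at h
  exact h

end Pool.Agent.R69.KM.Prm
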