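import Pool.Agent.R69.KM.Stm

/-!
# KM-ROW: linear substitutions of the three rows, one row at a time
-/

set_option autoImplicit false

open MeasureTheory
open scoped ENNReal

namespace Pool.Agent.R69.KM.Row

open Pool.Agent.R69.KM

/-- the shell `1 ≤ ‖u‖ < 2` -/
def Sh : Set (Fin 3 → ℝ) := {u | 1 ≤ ‖u‖ ∧ ‖u‖ < 2}

/-- the substitution of the rows -/
def L (V : Fin 3 → Matrix (Fin 3) (Fin 3) ℝ) (N : Fr) : Fr :=
  fun i => Matrix.vecMul (N i) (V i)

theorem L_meas (V : Fin 3 → Matrix (Fin 3) (Fin 3) ℝ) : Measurable (L V) := by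
  unfold L
  refine measurable_pi_lambda _ fun i => measurable_pi_lambda _ fun j => ?_
  simp only [Matrix.vecMul, dotProduct]
  fun_prop

theorem fL_meas {f : Fr → ℝ≥0∞} (hf : Measurable f)
    (V : Fin 3 → Matrix (Fin 3) (Fin 3) ℝ) : Measurable fun N => f (L V N) :=
  hf.comp (L_meas V)

theorem L_update (V : Fin 3 → Matrix (Fin 3) (Fin 3) ℝ) (N : Fr) (i : Fin 3) (t : ℝ) :
    L V (Function.update N i (t • N i)) = Function.update (L V N) i (t • L V N i) := by
  funext k
  by_cases hk : k = i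
  · subst hk
    simp [L, Matrix.smul_vecMul]
  · simp [L, hk]

theorem hom_L {f : Fr → ℝ≥0∞} (hf : Hom f) (V : Fin 3 → Matrix (Fin 3) (Fin 3) ℝ) :
    Hom (fun N => f (L V N)) := by
  intro N i t ht
  simp only
  rw [L_update]
  exact hf (L V N) i t ht

theorem Bx_eq : (Bx : Set Fr) = Set.univ.pi fun _ => Sh := by
  ext N
  simp [Bx, Sh, Set.mem_pi]

theorem restr : (volume : Measure Fr).restrict Bx =
    Measure.pi (fun _ : Fin 3 => (volume : Measure (Fin 3 → ℝ)).restrict Sh) := by
  rw [Bx_eq, volume_pi, Measure.restrict_pi_pi]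

theorem split (f : Fr → ℝ≥0∞) (hf : Measurable f) (i : Fin 3) :
    I f = ∫⁻ r : Fin 2 → Fin 3 → ℝ, (∫⁻ u in Sh, f (i.insertNth u r))
      ∂(Measure.pi (fun _ : Fin 2 => (volume : Measure (Fin 3 → ℝ)).restrict Sh)) := by
  unfold I
  rw [restr]
  have h := measurePreserving_piFinSuccAbove
    (fun _ : Fin 3 => (volume : Measure (Fin 3 → ℝ)).restrict Sh) i
  rw [← h.symm.lintegral_comp_emb (MeasurableEquiv.measurableEmbedding _)]
  rw [lintegral_prod_symm]
  · rfl
  · exact (hf.comp (MeasurableEquiv.measurable _)).aemeasurable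

theorem one (h1 : S_ROW1) (f : Fr → ℝ≥0∞) (hf : Measurable f) (hh : Hom f) (i : Fin 3)
    (W : Matrix (Fin 3) (Fin 3) ℝ) (hW : W.det ≠ 0) :
    I (fun N => f (L (Function.update (fun _ => 1) i W) N)) =
      ENNReal.ofReal (|W.det|⁻¹) * I f := by
  have hins : Measurable fun p : (Fin 3 → ℝ) × (Fin 2 → Fin 3 → ℝ) =>
      f (i.insertNth p.1 p.2) :=
    hf.comp (MeasurableEquiv.piFinSuccAbove (fun _ : Fin 3 => Fin 3 → ℝ) i).symm.measurable
  rw [split _ (fL_meas hf _) i, split f hf i]
  rw [← lintegral_const_mul]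
  · refine lintegral_congr fun r => ?_
    have h2 := h1 (fun u => f (i.insertNth u r))
      (hins.comp (measurable_id.prodMk measurable_const)) ?_ W hW
    · rw [show (Sh : Set (Fin 3 → ℝ)) = {u : Fin 3 → ℝ | 1 ≤ ‖u‖ ∧ ‖u‖ < 2} from rfl]
      rw [← h2]
      refine lintegral_congr fun u => ?_
      congr 1
      funext k
      refine Fin.succAboveCases i ?_ (fun j => ?_) k
      · simp [L]
      · simp [L, Fin.succAbove_ne]
    · intro u t ht
      have h3 := hh (i.insertNth u r) i t ht
      simp only [Fin.insertNth_apply_same] at h3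
      rw [← h3]
      congr 1
      funext k
      refine Fin.succAboveCases i ?_ (fun j => ?_) k
      · simp
      · simp [Fin.succAbove_ne]
  · exact hins.lintegral_prod_left'

theorem main (h1 : S_ROW1) : S_ROW := by
  intro f hf hh W hW
  have key : ∀ N : Fr, (fun i => Matrix.vecMul (N i) (W i)) =
      L (Function.update (fun _ => 1) 0 (W 0)) (L (Function.update (fun _ => 1) 1 (W 1))
        (L (Function.update (fun _ => 1) 2 (W 2)) N)) := by
    intro N
    funext i
    fin_cases i <;> simp [L]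
  have e1 : I (fun N => f (fun i => Matrix.vecMul (N i) (W i))) =
      I (fun N => (fun N' => f (L (Function.update (fun _ => 1) 0 (W 0))
        (L (Function.update (fun _ => 1) 1 (W 1)) N')))
        (L (Function.update (fun _ => 1) 2 (W 2)) N)) := by
    congr 1
    funext N
    rw [key N]
  rw [e1, one h1 _ (fL_meas (fL_meas hf _) _) (hom_L (hom_L hh _) _) 2 (W 2) (hW 2),
    one h1 (fun N' => f (L (Function.update (fun _ => 1) 0 (W 0)) N'))
      (fL_meas hf _) (hom_L hh _) 1 (W 1) (hW 1), one h1 f hf hh 0 (W 0) (hW 0)]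
  rw [← mul_assoc, ← mul_assoc, ← ENNReal.ofReal_mul (by positivity),
    ← ENNReal.ofReal_mul (by positivity)]
  congr 2
  rw [mul_inv, mul_inv]
  ring

end Pool.Agent.R69.KM.Row
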