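import Pool.Agent.R69.KM.Stm

/-! # Project KM: ROW1, homogeneous functions of degree `-3` on `ℝ³` -/

set_option autoImplicit false

open MeasureTheory
open scoped ENNReal

namespace Pool.Agent.R69.KM.Row1

open Classical in
/-- indicator of the shell `1 ≤ ν < 2` -/
noncomputable def S (ν : (Fin 3 → ℝ) → ℝ) (u : Fin 3 → ℝ) : ℝ≥0∞ :=
  if 1 ≤ ν u ∧ ν u < 2 then 1 else 0

lemma measurable_S {ν : (Fin 3 → ℝ) → ℝ} (hν : Measurable ν) : Measurable (S ν) := by
  unfold S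
  apply Measurable.ite _ measurable_const measurable_const
  exact (measurableSet_le measurable_const hν).inter (measurableSet_lt hν measurable_const)

open Classical in
lemma sum_one {x : ℝ} (hx : 0 < x) :
    ∑' k : ℤ, (if 1 ≤ (2 : ℝ) ^ k * x ∧ (2 : ℝ) ^ k * x < 2 then (1 : ℝ≥0∞) else 0) = 1 := by
  obtain ⟨n, hn1, hn2⟩ := exists_mem_Ico_zpow hx one_lt_two
  have h2 : (0 : ℝ) < 2 := two_pos
  rw [tsum_eq_single (-n)]
  · rw [if_pos]
    constructor
    · calc (1 : ℝ) = (2 : ℝ) ^ (-n) * (2 : ℝ) ^ n := by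
            rw [← zpow_add₀ h2.ne']; simp
        _ ≤ _ := by gcongr
    · calc (2 : ℝ) ^ (-n) * x < (2 : ℝ) ^ (-n) * (2 : ℝ) ^ (n + 1) := by gcongr
        _ = 2 := by rw [← zpow_add₀ h2.ne']; simp
  · intro k hk
    rw [if_neg]
    rintro ⟨h1, h3⟩
    have a1 : (2 : ℝ) ^ (0 : ℤ) < (2 : ℝ) ^ (k + (n + 1)) := by
      rw [zpow_add₀ h2.ne', zpow_zero]
      calc (1 : ℝ) ≤ (2 : ℝ) ^ k * x := h1
        _ < _ := by gcongr
    have a2 : (2 : ℝ) ^ (k + n) < (2 : ℝ) ^ (1 : ℤ) := by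
      rw [zpow_add₀ h2.ne', zpow_one]
      calc (2 : ℝ) ^ k * (2 : ℝ) ^ n ≤ (2 : ℝ) ^ k * x := by gcongr
        _ < _ := h3
    have b1 := (zpow_lt_zpow_iff_right₀ one_lt_two).1 a1
    have b2 := (zpow_lt_zpow_iff_right₀ one_lt_two).1 a2
    omega

lemma sum_S {ν : (Fin 3 → ℝ) → ℝ} (h1 : ∀ (u : Fin 3 → ℝ) (t : ℝ), 0 < t → ν (t • u) = t * ν u)
    (u : Fin 3 → ℝ) (hu : 0 < ν u) : ∑' k : ℤ, S ν ((2 : ℝ) ^ k • u) = 1 := by
  rw [← sum_one hu]
  apply tsum_congr
  intro k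
  unfold S
  rw [h1 u _ (by positivity)]

/-- change of scale -/
lemma scale {f : (Fin 3 → ℝ) → ℝ≥0∞} (hf : Measurable f)
    (hh : ∀ (u : Fin 3 → ℝ) (t : ℝ), 0 < t → f (t • u) = ENNReal.ofReal ((t ^ 3)⁻¹) * f u)
    {g : (Fin 3 → ℝ) → ℝ≥0∞} (hg : Measurable g) {t : ℝ} (ht : 0 < t) :
    ∫⁻ u, g (t • u) * f u = ∫⁻ u, g u * f u := by
  have hm : Measurable (fun u : Fin 3 → ℝ => t • u) := measurable_const_smul t
  have e1 : ∀ u : Fin 3 → ℝ, g (t • u) * f u =
      ENNReal.ofReal (t ^ 3) * (fun v => g v * f v) (t • u) := by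
    intro u
    have : f u = ENNReal.ofReal (t ^ 3) * f (t • u) := by
      rw [hh u t ht, ← mul_assoc, ← ENNReal.ofReal_mul (by positivity),
        mul_inv_cancel₀ (by positivity), ENNReal.ofReal_one, one_mul]
    simp only
    rw [this]
    ring
  have hgf : Measurable (fun v : Fin 3 → ℝ => g v * f v) := hg.mul hf
  have hc : Measurable (fun u : Fin 3 → ℝ => (fun v => g v * f v) (t • u)) := hgf.comp hm
  rw [lintegral_congr e1, lintegral_const_mul _ hc, ← lintegral_map hgf hm, Measure.map_addHaar_smul _ ht.ne', lintegral_smul_measure,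
    smul_eq_mul, ← mul_assoc, ← ENNReal.ofReal_mul (by positivity)]
  have : t ^ 3 * |(t ^ Module.finrank ℝ (Fin 3 → ℝ))⁻¹| = 1 := by
    rw [Module.finrank_fin_fun, abs_of_pos (by positivity), mul_inv_cancel₀ (by positivity)]
  rw [this, ENNReal.ofReal_one, one_mul]

/-- one half of the change of gauge -/
lemma split {f : (Fin 3 → ℝ) → ℝ≥0∞} (hf : Measurable f)
    {ν ν' : (Fin 3 → ℝ) → ℝ} (hν : Measurable ν) (hν' : Measurable ν')
    (h1 : ∀ (u : Fin 3 → ℝ) (t : ℝ), 0 < t → ν' (t • u) = t * ν' u)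
    (h0 : ∀ u, 0 < ν u → 0 < ν' u) :
    ∫⁻ u, S ν u * f u = ∑' k : ℤ, ∫⁻ u, S ν' ((2 : ℝ) ^ k • u) * S ν u * f u := by
  rw [← lintegral_tsum]
  · apply lintegral_congr
    intro u
    rw [ENNReal.tsum_mul_right, ENNReal.tsum_mul_right]
    by_cases hu : 0 < ν u
    · rw [sum_S h1 u (h0 u hu), one_mul]
    · have : S ν u = 0 := by
        unfold S
        rw [if_neg]
        rintro ⟨h, -⟩
        exact hu (lt_of_lt_of_le one_pos h)
      rw [this]
      simp
  · intro k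
    exact ((((measurable_S hν').comp (measurable_const_smul _)).mul (measurable_S hν)).mul
      hf).aemeasurable

/-- the change of gauge -/
lemma gauge {f : (Fin 3 → ℝ) → ℝ≥0∞} (hf : Measurable f)
    (hh : ∀ (u : Fin 3 → ℝ) (t : ℝ), 0 < t → f (t • u) = ENNReal.ofReal ((t ^ 3)⁻¹) * f u)
    {ν ν' : (Fin 3 → ℝ) → ℝ} (hν : Measurable ν) (hν' : Measurable ν')
    (h1 : ∀ (u : Fin 3 → ℝ) (t : ℝ), 0 < t → ν (t • u) = t * ν u)
    (h1' : ∀ (u : Fin 3 → ℝ) (t : ℝ), 0 < t → ν' (t • u) = t * ν' u)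
    (h0 : ∀ u, 0 < ν u ↔ 0 < ν' u) :
    ∫⁻ u, S ν u * f u = ∫⁻ u, S ν' u * f u := by
  rw [split hf hν hν' h1' (fun u => (h0 u).1), split hf hν' hν h1 (fun u => (h0 u).2),
    ← (Equiv.neg ℤ).tsum_eq]
  apply tsum_congr
  intro k
  have hm : Measurable (fun u : Fin 3 → ℝ => S ν' u * S ν ((2 : ℝ) ^ k • u)) :=
    (measurable_S hν').mul ((measurable_S hν).comp (measurable_const_smul _))
  have := scale hf hh hm (t := (2 : ℝ) ^ (-k)) (by positivity)
  rw [Equiv.neg_apply]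
  calc ∫⁻ u, S ν' ((2 : ℝ) ^ (-k) • u) * S ν u * f u
      = ∫⁻ u, (fun u : Fin 3 → ℝ => S ν' u * S ν ((2 : ℝ) ^ k • u)) ((2 : ℝ) ^ (-k) • u) * f u := by
        apply lintegral_congr
        intro u
        simp only
        rw [smul_smul, ← zpow_add₀ two_ne_zero, add_neg_cancel, zpow_zero, one_smul]
    _ = _ := by
        rw [this]
        apply lintegral_congr
        intro u
        ring

lemma shell (g : (Fin 3 → ℝ) → ℝ≥0∞) :
    ∫⁻ u in {u : Fin 3 → ℝ | 1 ≤ ‖u‖ ∧ ‖u‖ < 2}, g u = ∫⁻ u, S (fun u => ‖u‖) u * g u := by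
  have hA : MeasurableSet {u : Fin 3 → ℝ | 1 ≤ ‖u‖ ∧ ‖u‖ < 2} :=
    (measurableSet_le measurable_const measurable_norm).inter
      (measurableSet_lt measurable_norm measurable_const)
  rw [← lintegral_indicator hA]
  apply lintegral_congr
  intro u
  unfold S
  by_cases h : 1 ≤ ‖u‖ ∧ ‖u‖ < 2
  · rw [if_pos h, one_mul, Set.indicator_of_mem (show u ∈ {u : Fin 3 → ℝ | 1 ≤ ‖u‖ ∧ ‖u‖ < 2} from h)]
  · rw [if_neg h, zero_mul,
      Set.indicator_of_notMem (show u ∉ {u : Fin 3 → ℝ | 1 ≤ ‖u‖ ∧ ‖u‖ < 2} from h)]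

/-- KM-ROW1 -/
theorem main : S_ROW1 := by
  intro f hf hh W hW
  have hU : IsUnit W.det := isUnit_iff_ne_zero.2 hW
  set ν' : (Fin 3 → ℝ) → ℝ := fun v => ‖Matrix.vecMul v W⁻¹‖ with hν'
  have hcont : Continuous (fun v : Fin 3 → ℝ => Matrix.vecMul v W⁻¹) :=
    Continuous.matrix_vecMul continuous_id continuous_const
  have hm' : Measurable ν' := (continuous_norm.comp hcont).measurable
  have hS : ∀ u : Fin 3 → ℝ, S (fun u => ‖u‖) u = S ν' (Matrix.vecMul u W) := by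
    intro u
    have : ν' (Matrix.vecMul u W) = ‖u‖ := by
      simp only [hν']
      rw [Matrix.vecMul_vecMul, Matrix.mul_nonsing_inv _ hU, Matrix.vecMul_one]
    unfold S
    rw [this]
  rw [shell, shell]
  have hgm : Measurable (fun v => S ν' v * f v) := (measurable_S hm').mul hf
  have hT : ∀ u : Fin 3 → ℝ, Matrix.vecMul u W = Matrix.toLin' (Matrix.transpose W) u := by
    intro u
    rw [Matrix.toLin'_apply, Matrix.mulVec_transpose]
  have hdet : LinearMap.det (Matrix.toLin' (Matrix.transpose W)) = W.det := by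
    rw [LinearMap.det_toLin', Matrix.det_transpose]
  have hTm : Measurable (Matrix.toLin' (Matrix.transpose W) : (Fin 3 → ℝ) → (Fin 3 → ℝ)) :=
    (LinearMap.continuous_of_finiteDimensional _).measurable
  have e1 : ∫⁻ u, S (fun u => ‖u‖) u * f (Matrix.vecMul u W) =
      ∫⁻ u, (fun v => S ν' v * f v) (Matrix.toLin' (Matrix.transpose W) u) := by
    apply lintegral_congr
    intro u
    rw [hS u, hT u]
  rw [e1, ← lintegral_map hgm hTm,
    Real.map_linearMap_volume_pi_eq_smul_volume_pi (by rw [hdet]; exact hW),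
    lintegral_smul_measure, smul_eq_mul, hdet, abs_inv]
  congr 1
  refine gauge hf hh hm' measurable_norm ?_ ?_ ?_
  · intro u t ht
    simp only [hν']
    rw [Matrix.smul_vecMul, norm_smul, Real.norm_of_nonneg ht.le]
  · intro u t ht
    rw [norm_smul, Real.norm_of_nonneg ht.le]
  · intro u
    simp only [hν', norm_pos_iff, ne_eq, not_iff_not]
    constructor
    · intro h
      have : Matrix.vecMul (Matrix.vecMul u W⁻¹) W = u := by
        rw [Matrix.vecMul_vecMul, Matrix.nonsing_inv_mul _ hU, Matrix.vecMul_one]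
      rw [← this, h, Matrix.zero_vecMul]
    · intro h
      rw [h, Matrix.zero_vecMul]

end Pool.Agent.R69.KM.Row1
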