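import Pool.Agent.R69.KM.Stm

set_option autoImplicit false

namespace Pool.Agent.R69.KM.Sym

open Pool.Agent.R69.Klein Pool.Agent.R69.KM

theorem cramer (N : Fr) (x : Fin 3 → ℝ) :
    dt N • x = ∑ i : Fin 3, (N i ⬝ᵥ x) • ray N i := by
  ext j
  simp only [Fin.sum_univ_three, dotProduct, Pi.smul_apply, Pi.add_apply, smul_eq_mul, dt, ray, cr]
  fin_cases j <;> simp <;> ring

theorem dot_ray (N : Fr) (i j : Fin 3) : N j ⬝ᵥ ray N i = if i = j then dt N else 0 := by
  fin_cases i <;> fin_cases j <;>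
    simp [dotProduct, Fin.sum_univ_three, dt, ray, cr] <;> ring

theorem SX_eq : SX = stdSimplex ℝ (Fin 3) := by
  rw [← convexHull_basis_eq_stdSimplex, SX]
  congr 1
  ext x
  simp only [Set.mem_insert_iff, Set.mem_singleton_iff, Set.mem_range]
  constructor
  · rintro (rfl | rfl | rfl)
    · exact ⟨0, by ext j; fin_cases j <;> simp⟩
    · exact ⟨1, by ext j; fin_cases j <;> simp⟩
    · exact ⟨2, by ext j; fin_cases j <;> simp⟩
  · rintro ⟨i, rfl⟩
    fin_cases i
    · left; ext j; fin_cases j <;> simp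
    · right; left; ext j; fin_cases j <;> simp
    · right; right; ext j; fin_cases j <;> simp

theorem Tr_apply (σ : Equiv.Perm (Fin 3)) (ε : Fin 3 → Bool) (τ : Equiv.Perm (Fin 3)) (N : Fr)
    (i j : Fin 3) : Tr σ ε (PM τ) N i j = sg (ε i) * N (σ i) (τ j) := by
  simp [Tr, PM, Matrix.vecMul, dotProduct]

theorem sg_ne (b : Bool) : sg b ≠ 0 := by cases b <;> simp [sg]

/-- the permutation of the coordinates -/
noncomputable def P (τ : Equiv.Perm (Fin 3)) : Sp 2 ≃ₗ[ℝ] Sp 2 :=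
  LinearEquiv.funCongrLeft ℝ ℝ τ.symm

theorem P_apply (τ : Equiv.Perm (Fin 3)) (x : Sp 2) (i : Fin 3) : P τ x i = x (τ.symm i) := rfl

theorem P_symm_apply (τ : Equiv.Perm (Fin 3)) (x : Sp 2) (i : Fin 3) :
    (P τ).symm x i = x (τ i) := rfl

theorem dt_ne {σ : Equiv.Perm (Fin 3)} {ε : Fin 3 → Bool} {τ : Equiv.Perm (Fin 3)} {N : Fr}
    (h : dt (Tr σ ε (PM τ) N) ≠ 0) : dt N ≠ 0 := by
  intro h0
  apply h
  rw [dt_eq] at h0 ⊢
  have e : Matrix.of (Tr σ ε (PM τ) N) =
      Matrix.diagonal (fun i => sg (ε i)) *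
        (((Matrix.of N).submatrix σ id).submatrix id τ) := by
    ext i j
    rw [Matrix.diagonal_mul]
    simp [Tr_apply]
  rw [e, Matrix.det_mul, Matrix.det_permute', Matrix.det_permute, h0]
  simp

theorem line_smul {c : ℝ} (hc : c ≠ 0) (u : Sp 2) : line (c • u) = line u := by
  unfold line
  exact Submodule.span_singleton_smul_eq (IsUnit.mk0 c hc) u

theorem dot_P (σ : Equiv.Perm (Fin 3)) (ε : Fin 3 → Bool) (τ : Equiv.Perm (Fin 3)) (N : Fr)
    (j : Fin 3) (y : Sp 2) :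
    Tr σ ε (PM τ) N j ⬝ᵥ y = sg (ε j) * (N (σ j) ⬝ᵥ P τ y) := by
  simp only [dotProduct, Tr_apply, Finset.mul_sum]
  rw [← Equiv.sum_comp τ (fun a => sg (ε j) * (N (σ j) a * P τ y a))]
  refine Finset.sum_congr rfl fun a _ => ?_
  rw [P_apply, Equiv.symm_apply_apply]
  ring

theorem sg_sq (b : Bool) : sg b * sg b = 1 := by cases b <;> simp [sg]

theorem P_ray {σ : Equiv.Perm (Fin 3)} {ε : Fin 3 → Bool} {τ : Equiv.Perm (Fin 3)} {N : Fr}
    (h : dt (Tr σ ε (PM τ) N) ≠ 0) (i : Fin 3) :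
    P τ (ray (Tr σ ε (PM τ) N) i) =
      (sg (ε i) * dt (Tr σ ε (PM τ) N) / dt N) • ray N (σ i) := by
  have hN := dt_ne h
  have h1 := cramer N (P τ (ray (Tr σ ε (PM τ) N) i))
  rw [← Equiv.sum_comp σ] at h1
  have h2 : ∀ j, N (σ j) ⬝ᵥ P τ (ray (Tr σ ε (PM τ) N) i) =
      if i = j then sg (ε i) * dt (Tr σ ε (PM τ) N) else 0 := by
    intro j
    have h3 := dot_P σ ε τ N j (ray (Tr σ ε (PM τ) N) i)
    rw [dot_ray] at h3
    have h4 := congrArg (fun t => sg (ε j) * t) h3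
    simp only [← mul_assoc, sg_sq, one_mul] at h4
    rw [← h4]
    split_ifs with h5
    · rw [h5]
    · simp
  simp only [h2, ite_smul, zero_smul, Finset.sum_ite_eq, Finset.mem_univ, if_true] at h1
  rw [div_eq_inv_mul, mul_smul, ← h1, smul_smul, inv_mul_cancel₀ hN, one_smul]

theorem lns_val {N : Fr} (h : dt N ≠ 0) : (lns N).1 = Set.range (fun i => line (ray N i)) := by
  have h1 : lns N = (⟨Set.range (fun i => line (ray N i)), ray N, li_ray h, rfl⟩ : CF 2) :=
    dif_pos h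
  rw [h1]

theorem lns_eq {σ : Equiv.Perm (Fin 3)} {ε : Fin 3 → Bool} {τ : Equiv.Perm (Fin 3)} {N : Fr}
    (h : dt (Tr σ ε (PM τ) N) ≠ 0) : act (P τ) (lns (Tr σ ε (PM τ) N)) = lns N := by
  have hN := dt_ne h
  have e1 : (lns (Tr σ ε (PM τ) N)).1 =
      Set.range (fun i => line (ray (Tr σ ε (PM τ) N) i)) := lns_val h
  have e2 : (lns N).1 = Set.range (fun i => line (ray N i)) := lns_val hN
  apply Subtype.ext
  rw [act_range (P τ) _ e1, e2]
  have e3 : (fun i => line (P τ (ray (Tr σ ε (PM τ) N) i))) =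
      (fun i => line (ray N i)) ∘ σ := by
    funext i
    rw [P_ray h i, Function.comp_apply]
    exact line_smul (div_ne_zero (mul_ne_zero (sg_ne _) h) hN) _
  rw [e3]
  exact σ.surjective.range_comp _

theorem mem_std (τ : Equiv.Perm (Fin 3)) (x : Sp 2) :
    (P τ).symm x ∈ stdSimplex ℝ (Fin 3) ↔ x ∈ stdSimplex ℝ (Fin 3) := by
  simp only [stdSimplex, Set.mem_ofPred_eq, P_symm_apply]
  rw [Equiv.sum_comp τ x]
  constructor
  · rintro ⟨h1, h2⟩
    refine ⟨fun i => ?_, h2⟩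
    have := h1 (τ.symm i)
    rwa [Equiv.apply_symm_apply] at this
  · rintro ⟨h1, h2⟩
    exact ⟨fun i => h1 _, h2⟩

theorem isInt_P (τ : Equiv.Perm (Fin 3)) (x : Sp 2) (h : IsInt x) : IsInt ((P τ).symm x) :=
  fun i => h (τ i)

theorem toR_single_mem (i : Fin 3) :
    (toR (Pi.single i 1 : Fin 3 → ℤ) : Sp 2) ∈ stdSimplex ℝ (Fin 3) := by
  fin_cases i <;> refine ⟨fun j => ?_, ?_⟩ <;>
    first
    | (fin_cases j <;> simp [toR])
    | simp [toR, Fin.sum_univ_three]

theorem main : S_FACE → S_SYM := by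
  intro hF N σ ε τ hE hpos
  have h1 : HasFace (lns (Tr σ ε (PM τ) N)) SX := hF _ hE hpos
  have h2 := hasFace_comap (P τ).symm (isInt_P τ) (F := SX) (li_std (n := 2))
    (fun i => ⟨isInt_toR _, by
      rw [SX_eq, mem_std]
      exact toR_single_mem i⟩) h1
  have h3 : (P τ).symm.symm = P τ := rfl
  rw [h3, lns_eq hpos.ne'] at h2
  have h4 : convexHull ℝ {x : Sp 2 | IsInt x ∧ (P τ).symm x ∈ SX} = SX := by
    apply Set.Subset.antisymm
    · rw [SX_eq]
      refine convexHull_min ?_ (convex_stdSimplex ℝ (Fin 3))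
      rintro x ⟨_, hx⟩
      exact (mem_std τ x).1 hx
    · have : ∀ x : Sp 2, IsInt x → x ∈ SX → x ∈ {x : Sp 2 | IsInt x ∧ (P τ).symm x ∈ SX} := by
        intro x hx hx'
        refine ⟨hx, ?_⟩
        rw [SX_eq] at hx' ⊢
        exact (mem_std τ x).2 hx'
      conv_lhs => rw [SX]
      apply convexHull_mono
      intro x hx
      refine this x ?_ (subset_convexHull ℝ _ hx)
      simp only [Set.mem_insert_iff, Set.mem_singleton_iff] at hx
      rcases hx with rfl | rfl | rfl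
      · intro i; fin_cases i
        · exact ⟨1, by simp⟩
        · exact ⟨0, by simp⟩
        · exact ⟨0, by simp⟩
      · intro i; fin_cases i
        · exact ⟨0, by simp⟩
        · exact ⟨1, by simp⟩
        · exact ⟨0, by simp⟩
      · intro i; fin_cases i
        · exact ⟨0, by simp⟩
        · exact ⟨0, by simp⟩
        · exact ⟨1, by simp⟩
  rw [h4] at h2
  exact h2

end Pool.Agent.R69.KM.Sym
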