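import Pool.Agent.R69.KM.Stm2
import Pool.Agent.R69.KM.Sym
import Pool.Agent.R69.KM.Inv
import Pool.Agent.R69.KM.Low

/-!
Project KM, piece SAT: measurability and measure of saturated sets.
-/

set_option autoImplicit false

open MeasureTheory
open scoped ENNReal

namespace Pool.Agent.R69.KM.Sat

open Pool.Agent.R69.Klein Pool.Agent.R69.KM

theorem dual_cramer (N : Fr) (v : Fin 3 → ℝ) :
    dt N • v = ∑ k : Fin 3, (v ⬝ᵥ ray N k) • N k := by
  ext j
  simp only [Fin.sum_univ_three, dotProduct, Pi.smul_apply, Pi.add_apply, smul_eq_mul, dt, ray, cr]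
  fin_cases j <;> simp <;> ring

theorem dt_Tr_ne {σ : Equiv.Perm (Fin 3)} {ε : Fin 3 → Bool} {N : Fr} (h : dt N ≠ 0) :
    dt (Tr σ ε (PM 1) N) ≠ 0 := by
  have h1 := Low.dt_Tr σ ε (PM 1) N (Low.det_PM 1)
  intro h0
  rw [h0, abs_zero] at h1
  exact h (abs_eq_zero.1 h1.symm)

theorem Tr_row (σ : Equiv.Perm (Fin 3)) (ε : Fin 3 → Bool) (N : Fr) (i : Fin 3) :
    Tr σ ε (PM 1) N i = sg (ε i) • N (σ i) := by
  funext j
  rw [Sym.Tr_apply]
  rfl

theorem lns_Tr {σ : Equiv.Perm (Fin 3)} {ε : Fin 3 → Bool} {N : Fr} (h : dt N ≠ 0) :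
    lns (Tr σ ε (PM 1) N) = lns N := by
  have h' := dt_Tr_ne (σ := σ) (ε := ε) h
  apply Subtype.ext
  rw [Sym.lns_val h', Sym.lns_val h]
  have e3 : (fun i => line (ray (Tr σ ε (PM 1) N) i)) = (fun i => line (ray N i)) ∘ σ := by
    funext i
    have h1 := Sym.P_ray h' i
    have h2 : Sym.P 1 (ray (Tr σ ε (PM 1) N) i) = ray (Tr σ ε (PM 1) N) i := rfl
    rw [h2] at h1
    rw [h1, Function.comp_apply]
    exact Sym.line_smul (div_ne_zero (mul_ne_zero (Sym.sg_ne _) h') h) _
  rw [e3]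
  exact σ.surjective.range_comp _

theorem line_inj {N : Fr} (h : dt N ≠ 0) {i j : Fin 3} (hl : line (ray N i) = line (ray N j)) :
    i = j := by
  by_contra hij
  have h1 : ray N j ∈ line (ray N i) := by
    rw [hl]
    exact Submodule.mem_span_singleton_self _
  obtain ⟨c, hc⟩ := Submodule.mem_span_singleton.1 h1
  have h2 := Sym.dot_ray N j j
  have h3 := Sym.dot_ray N i j
  rw [if_pos rfl, ← hc, dotProduct_smul, h3, if_neg hij, smul_zero] at h2
  exact h h2.symm

/-- same lines: the rows are proportional up to order -/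
theorem key {N N' : Fr} (h : dt N ≠ 0) (h' : dt N' ≠ 0) (hl : lns N' = lns N) :
    ∃ (σ : Equiv.Perm (Fin 3)) (c : Fin 3 → ℝ), (∀ i, c i ≠ 0) ∧ ∀ i, N' i = c i • N (σ i) := by
  have h1 : Set.range (fun i => line (ray N' i)) = Set.range (fun i => line (ray N i)) := by
    rw [← Sym.lns_val h, ← Sym.lns_val h', hl]
  have h2 : ∀ i, ∃ k, line (ray N k) = line (ray N' i) := by
    intro i
    have : line (ray N' i) ∈ Set.range (fun i => line (ray N i)) := by
      rw [← h1]; exact ⟨i, rfl⟩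
    exact this
  choose s hs using h2
  have hinj : Function.Injective s := by
    intro i j hij
    apply line_inj h'
    rw [← hs i, ← hs j, hij]
  set σ : Equiv.Perm (Fin 3) := Equiv.ofBijective s (Finite.injective_iff_bijective.1 hinj) with hσ
  have hσs : ∀ i, σ i = s i := fun i => rfl
  have h3 : ∀ j, ∃ c : ℝ, ray N (σ j) = c • ray N' j := by
    intro j
    have : ray N (s j) ∈ line (ray N' j) := by
      rw [← hs j]
      exact Submodule.mem_span_singleton_self _
    obtain ⟨c, hc⟩ := Submodule.mem_span_singleton.1 this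
    exact ⟨c, hc.symm⟩
  have h4 : ∀ i j, i ≠ j → N' i ⬝ᵥ ray N (σ j) = 0 := by
    intro i j hij
    obtain ⟨c, hc⟩ := h3 j
    rw [hc, dotProduct_smul, Sym.dot_ray, if_neg (Ne.symm hij), smul_zero]
  have h5 : ∀ i, dt N • N' i = (N' i ⬝ᵥ ray N (σ i)) • N (σ i) := by
    intro i
    rw [dual_cramer N (N' i), ← Equiv.sum_comp σ]
    rw [Finset.sum_eq_single i]
    · intro j _ hj
      rw [h4 i j (Ne.symm hj), zero_smul]
    · intro hi
      exact absurd (Finset.mem_univ i) hi
  have h6 : ∀ i, N' i = ((dt N)⁻¹ * (N' i ⬝ᵥ ray N (σ i))) • N (σ i) := by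
    intro i
    rw [mul_smul, ← h5, smul_smul, inv_mul_cancel₀ h, one_smul]
  refine ⟨σ, fun i => (dt N)⁻¹ * (N' i ⬝ᵥ ray N (σ i)), ?_, h6⟩
  intro i hc
  have h7 := h6 i
  simp only at hc
  rw [hc, zero_smul] at h7
  have h8 := Sym.dot_ray N' i i
  rw [if_pos rfl, h7, zero_dotProduct] at h8
  exact h' h8.symm

theorem scale {O : Set Fr} (hO : Cn O) {N : Fr} (hN : N ∈ O) (t : Fin 3 → ℝ) (ht : ∀ i, 0 < t i) :
    (fun i => t i • N i) ∈ O := by
  have h0 := hO N hN 0 (t 0) (ht 0)
  have h1 := hO _ h0 1 (t 1) (ht 1)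
  have h2 := hO _ h1 2 (t 2) (ht 2)
  have e : (fun i => t i • N i) = Function.update (Function.update (Function.update N 0 (t 0 • N 0))
      1 (t 1 • (Function.update N 0 (t 0 • N 0)) 1)) 2
      (t 2 • (Function.update (Function.update N 0 (t 0 • N 0))
      1 (t 1 • (Function.update N 0 (t 0 • N 0)) 1)) 2) := by
    funext i
    fin_cases i <;> simp [Function.update]
  rw [e]
  exact h2

theorem mem_sat {O : Set Fr} (hO : Cn O) {N : Fr} (h : dt N ≠ 0) :
    lns N ∈ sat O ↔ ∃ (σ : Equiv.Perm (Fin 3)) (ε : Fin 3 → Bool), Tr σ ε (PM 1) N ∈ O := by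
  constructor
  · rintro ⟨N', hN', h', hl⟩
    obtain ⟨σ, c, hc, hr⟩ := key h h' hl
    refine ⟨σ, fun i => decide (0 < c i), ?_⟩
    have e : Tr σ (fun i => decide (0 < c i)) (PM 1) N = fun i => |c i|⁻¹ • N' i := by
      funext i
      rw [Tr_row, hr i, smul_smul]
      congr 1
      rcases lt_or_gt_of_ne (hc i) with h0 | h0
      · rw [decide_eq_false (not_lt.2 h0.le), abs_of_neg h0]
        simp only [sg, Bool.false_eq_true, if_false]
        have := hc i
        field_simp
      · rw [decide_eq_true h0, abs_of_pos h0]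
        simp only [sg, if_true]
        have := hc i
        field_simp
    rw [e]
    exact scale hO hN' _ (fun i => inv_pos.2 (abs_pos.2 (hc i)))
  · rintro ⟨σ, ε, hm⟩
    exact ⟨_, hm, dt_Tr_ne h, lns_Tr h⟩

theorem continuous_Tr (σ : Equiv.Perm (Fin 3)) (ε : Fin 3 → Bool)
    (G : Matrix (Fin 3) (Fin 3) ℝ) : Continuous (Tr σ ε G) := by
  unfold Tr Matrix.vecMul dotProduct
  fun_prop

theorem meas_sat {O : Set Fr} (hm : MeasurableSet O) (hO : Cn O) : MeasurableSet (sat O) := by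
  change MeasurableSet (lns ⁻¹' sat O)
  have h1 : lns ⁻¹' sat O = (lns ⁻¹' sat O ∩ {N | dt N ≠ 0}) ∪
      (lns ⁻¹' sat O ∩ {N | dt N ≠ 0}ᶜ) := (Set.inter_union_compl _ _).symm
  have h2 : lns ⁻¹' sat O ∩ {N | dt N ≠ 0} =
      (⋃ (σ : Equiv.Perm (Fin 3)) (ε : Fin 3 → Bool), Tr σ ε (PM 1) ⁻¹' O) ∩ {N | dt N ≠ 0} := by
    ext N
    constructor
    · rintro ⟨h3, h4⟩
      obtain ⟨σ, ε, h5⟩ := (mem_sat hO h4).1 h3
      exact ⟨Set.mem_iUnion₂.2 ⟨σ, ε, h5⟩, h4⟩
    · rintro ⟨h3, h4⟩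
      obtain ⟨σ, ε, h5⟩ := Set.mem_iUnion₂.1 h3
      exact ⟨(mem_sat hO h4).2 ⟨σ, ε, h5⟩, h4⟩
  rw [h1, h2]
  refine ((MeasurableSet.iUnion fun σ => MeasurableSet.iUnion fun ε =>
    (continuous_Tr σ ε _).measurable hm).inter Inv.measurableSet_dt).union ?_
  by_cases h3 : std0 ∈ sat O
  · have : lns ⁻¹' sat O ∩ {N | dt N ≠ 0}ᶜ = {N | dt N ≠ 0}ᶜ := by
      refine Set.inter_eq_right.2 fun N hN => ?_
      have hN' : ¬ (dt N ≠ 0) := hN
      change lns N ∈ sat O
      rw [Inv.lns_neg hN']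
      exact h3
    rw [this]
    exact Inv.measurableSet_dt.compl
  · have : lns ⁻¹' sat O ∩ {N | dt N ≠ 0}ᶜ = ∅ := by
      refine Set.eq_empty_of_forall_notMem fun N hN => ?_
      have hN' : ¬ (dt N ≠ 0) := hN.2
      have h4 : lns N ∈ sat O := hN.1
      rw [Inv.lns_neg hN'] at h4
      exact h3 h4
    rw [this]
    exact MeasurableSet.empty

theorem hom_O {O : Set Fr} (hO : Cn O) : Hom (O.indicator rho) := by
  intro N i t ht
  by_cases h : N ∈ O
  · rw [Set.indicator_of_mem h, Set.indicator_of_mem (hO N h i t ht),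
      Inv.rho_mul (Inv.dt_update N i t), abs_of_pos ht]
  · have h' : Function.update N i (t • N i) ∉ O := by
      intro h1
      apply h
      have h2 := hO _ h1 i t⁻¹ (inv_pos.2 ht)
      have e : Function.update (Function.update N i (t • N i)) i
          (t⁻¹ • (Function.update N i (t • N i)) i) = N := by
        rw [Function.update_self, Function.update_idem, smul_smul, inv_mul_cancel₀ ht.ne', one_smul,
          Function.update_eq_self]
      rwa [e] at h2
    rw [Set.indicator_of_notMem h, Set.indicator_of_notMem h', mul_zero]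

theorem mob_sat {O : Set Fr} (hm : MeasurableSet O) (hO : Cn O) :
    mob (sat O) = I ((lns ⁻¹' sat O).indicator rho) := by
  unfold mob
  rw [Measure.map_apply Inv.measurable_lns (meas_sat hm hO),
    Inv.fm_eq (Inv.measurable_lns (meas_sat hm hO))]

theorem main : S_TI → S_CM → S_SAT := by
  intro hTI _ O hm hO
  refine ⟨meas_sat hm hO, ?_, ?_⟩
  · rw [mob_sat hm hO]
    unfold I
    refine lintegral_mono fun N => ?_
    by_cases h : N ∈ O
    · by_cases hd : dt N = 0
      · rw [Set.indicator_of_mem h, Inv.rho_zero hd]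
        exact zero_le
      · have h1 : N ∈ lns ⁻¹' sat O := ⟨N, h, hd, rfl⟩
        rw [Set.indicator_of_mem h, Set.indicator_of_mem h1]
    · rw [Set.indicator_of_notMem h]
      exact zero_le
  · rw [mob_sat hm hO]
    set f : Fr → ℝ≥0∞ := O.indicator rho with hf
    have hfm : Measurable f := Inv.measurable_rho.indicator hm
    have h1 : I ((lns ⁻¹' sat O).indicator rho) ≤
        I (fun N => ∑ p : Equiv.Perm (Fin 3) × (Fin 3 → Bool), f (Tr p.1 p.2 (PM 1) N)) := by
      unfold I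
      refine lintegral_mono fun N => ?_
      by_cases h : N ∈ lns ⁻¹' sat O
      · rw [Set.indicator_of_mem h]
        by_cases hd : dt N = 0
        · rw [Inv.rho_zero hd]
          exact zero_le
        · obtain ⟨σ, ε, h2⟩ := (mem_sat hO hd).1 h
          have h3 : f (Tr σ ε (PM 1) N) = rho N := by
            rw [hf, Set.indicator_of_mem h2, Low.rho_Tr]
          rw [← h3]
          exact Finset.single_le_sum
            (f := fun p : Equiv.Perm (Fin 3) × (Fin 3 → Bool) => f (Tr p.1 p.2 (PM 1) N))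
            (fun _ _ => zero_le) (Finset.mem_univ (σ, ε))
      · rw [Set.indicator_of_notMem h]
        exact zero_le
    refine h1.trans ?_
    have h2 : I (fun N => ∑ p : Equiv.Perm (Fin 3) × (Fin 3 → Bool), f (Tr p.1 p.2 (PM 1) N)) =
        ∑ p : Equiv.Perm (Fin 3) × (Fin 3 → Bool), I (fun N => f (Tr p.1 p.2 (PM 1) N)) := by
      unfold I
      exact lintegral_finsetSum _ fun p _ => hfm.comp (continuous_Tr p.1 p.2 _).measurable
    rw [h2]
    have h3 : ∀ p : Equiv.Perm (Fin 3) × (Fin 3 → Bool),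
        I (fun N => f (Tr p.1 p.2 (PM 1) N)) = I f := fun p =>
      hTI f hfm (hom_O hO) p.1 p.2 (PM 1) (Low.det_PM 1)
    rw [Finset.sum_congr rfl fun p _ => h3 p, Finset.sum_const]
    have h4 : (Finset.univ : Finset (Equiv.Perm (Fin 3) × (Fin 3 → Bool))).card = 48 := by
      rw [Finset.card_univ]
      decide
    rw [h4, nsmul_eq_mul]
    norm_num

end Pool.Agent.R69.KM.Sat
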