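import Pool.Agent.R69.Klein2

/-!
Project KM: the Möbius measure on two-dimensional continued fractions, and the comparison of the
unit square with the unit triangle (MP_8a8f75_nt). Definitions and statements of the pieces.
-/

set_option autoImplicit false

open MeasureTheory
open scoped ENNReal

namespace Pool.Agent.R69.KM

open Pool.Agent.R69.Klein

/-- three covectors of `ℝ³`: the rows of a matrix -/
abbrev Fr := Fin 3 → Fin 3 → ℝ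

/-- the determinant of the matrix with the rows `N 0`, `N 1`, `N 2` -/
def dt (N : Fr) : ℝ :=
  N 0 0 * (N 1 1 * N 2 2 - N 1 2 * N 2 1) - N 0 1 * (N 1 0 * N 2 2 - N 1 2 * N 2 0)
    + N 0 2 * (N 1 0 * N 2 1 - N 1 1 * N 2 0)

/-- the cross product -/
def cr (u v : Fin 3 → ℝ) : Fin 3 → ℝ :=
  ![u 1 * v 2 - u 2 * v 1, u 2 * v 0 - u 0 * v 2, u 0 * v 1 - u 1 * v 0]

/-- `ray N i` spans the intersection of the planes `N j = 0`, `j ≠ i`; `N i (ray N i) = dt N` -/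
def ray (N : Fr) : Fin (2 + 1) → Sp 2 := ![cr (N 1) (N 2), cr (N 2) (N 0), cr (N 0) (N 1)]

theorem dt_eq (N : Fr) : dt N = Matrix.det (Matrix.of N) := by
  rw [Matrix.det_fin_three]
  simp only [dt, Matrix.of_apply]
  ring

theorem li_of_dt {N : Fr} (h : dt N ≠ 0) : LinearIndependent ℝ N := by
  rw [dt_eq] at h
  exact Matrix.linearIndependent_rows_of_det_ne_zero h

theorem dt_ray (N : Fr) : dt (ray N) = dt N ^ 2 := by
  simp [dt, ray, cr]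
  ring

theorem li_ray {N : Fr} (h : dt N ≠ 0) : LinearIndependent ℝ (ray N) :=
  li_of_dt (N := ray N) (by rw [dt_ray]; exact pow_ne_zero 2 h)

/-- the three coordinate lines -/
noncomputable def std0 : CF 2 :=
  ⟨Set.range (fun i => line (ray (fun i j => if i = j then 1 else 0) i)), _,
    li_ray (by simp [dt]), rfl⟩

open Classical in
/-- the continued fraction bounded by the planes `N i = 0` -/
noncomputable def lns (N : Fr) : CF 2 :=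
  if h : dt N ≠ 0 then ⟨Set.range (fun i => line (ray N i)), ray N, li_ray h, rfl⟩ else std0

/-- the σ-algebra on `CF 2`: a set is measurable if its preimage under `lns` is a Borel set -/
noncomputable instance mCF : MeasurableSpace (CF 2) := MeasurableSpace.map lns inferInstance

/-- the box `1 ≤ ‖N i‖ < 2` -/
def Bx : Set Fr := {N | ∀ i, 1 ≤ ‖N i‖ ∧ ‖N i‖ < 2}

/-- `|det N|⁻³` -/
noncomputable def rho (N : Fr) : ℝ≥0∞ := ENNReal.ofReal ((|dt N| ^ 3)⁻¹)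

/-- the measure `|det N|⁻³ dN` (a Haar measure of `GL₃(ℝ)`) restricted to the box `Bx`
(a fundamental domain of the scalings of the rows by powers of `2`) -/
noncomputable def fm : Measure Fr := (volume.restrict Bx).withDensity rho

/-- the Möbius measure on `CF 2` -/
noncomputable def mob : Measure (CF 2) := Measure.map lns fm

/-- integral over the box -/
noncomputable def I (f : Fr → ℝ≥0∞) : ℝ≥0∞ := ∫⁻ N in Bx, f N

/-- `f` is homogeneous of degree `-3` in each row -/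
def Hom (f : Fr → ℝ≥0∞) : Prop := ∀ (N : Fr) (i : Fin 3) (t : ℝ), 0 < t →
  f (Function.update N i (t • N i)) = ENNReal.ofReal ((t ^ 3)⁻¹) * f N

/-- KM-ROW: linear substitutions of the rows -/
def S_ROW : Prop := ∀ f : Fr → ℝ≥0∞, Measurable f → Hom f →
  ∀ W : Fin 3 → Matrix (Fin 3) (Fin 3) ℝ, (∀ i, (W i).det ≠ 0) →
    I (fun N => f (fun i => Matrix.vecMul (N i) (W i))) =
      ENNReal.ofReal ((|(W 0).det| * |(W 1).det| * |(W 2).det|)⁻¹) * I f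

/-- KM-ROW1: the same for one row (`ℝ³` instead of `Fr`) -/
def S_ROW1 : Prop := ∀ f : (Fin 3 → ℝ) → ℝ≥0∞, Measurable f →
  (∀ (u : Fin 3 → ℝ) (t : ℝ), 0 < t → f (t • u) = ENNReal.ofReal ((t ^ 3)⁻¹) * f u) →
  ∀ W : Matrix (Fin 3) (Fin 3) ℝ, W.det ≠ 0 →
    ∫⁻ u in {u : Fin 3 → ℝ | 1 ≤ ‖u‖ ∧ ‖u‖ < 2}, f (Matrix.vecMul u W) =
      ENNReal.ofReal (|W.det|⁻¹) * ∫⁻ u in {u : Fin 3 → ℝ | 1 ≤ ‖u‖ ∧ ‖u‖ < 2}, f u

/-- KM-PRM: permutation of the rows -/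
def S_PRM : Prop := ∀ (f : Fr → ℝ≥0∞) (σ : Equiv.Perm (Fin 3)),
  I (fun N => f (fun i => N (σ i))) = I f

/-- signs -/
def sg (b : Bool) : ℝ := if b then 1 else -1

/-- the general substitution: rows permuted by `σ`, signs `ε`, columns transformed by `G` -/
def Tr (σ : Equiv.Perm (Fin 3)) (ε : Fin 3 → Bool) (G : Matrix (Fin 3) (Fin 3) ℝ) (N : Fr) : Fr :=
  fun i => sg (ε i) • Matrix.vecMul (N (σ i)) G

/-- KM-TI: from ROW and PRM -/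
def S_TI : Prop := ∀ f : Fr → ℝ≥0∞, Measurable f → Hom f → ∀ (σ : Equiv.Perm (Fin 3))
  (ε : Fin 3 → Bool) (G : Matrix (Fin 3) (Fin 3) ℝ), |G.det| = 1 →
    I (fun N => f (Tr σ ε G N)) = I f

/-- KM-INV: from ROW -/
def S_INV : Prop := Invariant (n := 2) mob

/-- closed and open products of three cones: `N i` is in the cone spanned by the rows of `V i` -/
def cc (V : Fin 3 → Matrix (Fin 3) (Fin 3) ℝ) : Set Fr :=
  {N | ∀ i, ∃ l : Fin 3 → ℝ, (∀ a, 0 ≤ l a) ∧ N i = Matrix.vecMul l (V i)}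
def co (V : Fin 3 → Matrix (Fin 3) (Fin 3) ℝ) : Set Fr :=
  {N | ∀ i, ∃ l : Fin 3 → ℝ, (∀ a, 0 < l a) ∧ N i = Matrix.vecMul l (V i)}

noncomputable def hc (V : Fin 3 → Matrix (Fin 3) (Fin 3) ℝ) : Fr → ℝ≥0∞ := (cc V).indicator rho
noncomputable def ho (V : Fin 3 → Matrix (Fin 3) (Fin 3) ℝ) : Fr → ℝ≥0∞ := (co V).indicator rho

/-- KM-CM: the cones are Borel sets and the functions are homogeneous -/
def S_CM : Prop := ∀ V : Fin 3 → Matrix (Fin 3) (Fin 3) ℝ, (∀ i, (V i).det ≠ 0) →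
  MeasurableSet (cc V) ∧ MeasurableSet (co V) ∧ Measurable rho ∧ Measurable (hc V) ∧
    Measurable (ho V) ∧ Hom rho ∧ Hom (hc V) ∧ Hom (ho V)

def dt3 (V : Fin 3 → Matrix (Fin 3) (Fin 3) ℝ) (a b c : Fin 3) : ℝ := dt ![V 0 a, V 1 b, V 2 c]

/-- KM-CMP: comparison of two products of cones -/
def S_CMP : Prop := ∀ V W : Fin 3 → Matrix (Fin 3) (Fin 3) ℝ, (∀ i, (V i).det ≠ 0) →
  (∀ i, (W i).det ≠ 0) → (∀ a b c, 0 < dt3 W a b c ∧ dt3 W a b c ≤ -dt3 V a b c) →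
    I (hc V) ≤ ENNReal.ofReal (|(V 0).det| * |(V 1).det| * |(V 2).det| /
      (|(W 0).det| * |(W 1).det| * |(W 2).det|)) * I (ho W)

def VC : Fin 3 → Matrix (Fin 3) (Fin 3) ℝ :=
  ![!![0, 1, 0; 0, 1, 1; 1, 3, 2], !![1, 1, 0; 2, 1, 1; 4, 3, 2], !![0, 0, 1; 1, 0, 2; 2, 1, 3]]
def VS : Fin 3 → Matrix (Fin 3) (Fin 3) ℝ :=
  ![!![0, 0, 1; 0, 1, 1; 1, 2, 3], !![1, 1, 0; 1, 2, 0; 3, 4, 1], !![1, 0, 1; 2, 1, 2; 4, 2, 3]]
noncomputable def WC : Fin 3 → Matrix (Fin 3) (Fin 3) ℝ :=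
  ![!![2, 1, 1; 9/4, 3/4, 0; 9/2, 0, 0], !![0, 1, 0; 10/9, 20/9, 10/9; 0, 4, 2],
    !![0, 0, 4/9; 3/5, 3/5, 6/5; 0, 2/3, 4/3]]
noncomputable def WS : Fin 3 → Matrix (Fin 3) (Fin 3) ℝ :=
  ![!![1, 1, 0; 15/7, 15/14, 15/14; 15/4, 15/8, 0], !![1, 2, 1; 0, 21/8, 0; 0, 14/3, 7/3],
    !![32/105, 0, 64/105; 0, 0, 8/9; 4/5, 2/5, 8/5]]
def WA : Fin 3 → Matrix (Fin 3) (Fin 3) ℝ :=
  ![!![1, 0, 0; 2, 1, 0; 2, 1, 1], !![0, 1, 0; 0, 2, 1; 1, 2, 1], !![0, 0, 1; 1, 0, 2; 1, 1, 2]]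

/-- KM-DOM: from CMP -/
def S_DOM : Prop := I (hc VC) ≤ ENNReal.ofReal (3 / 4) * I (ho WC) ∧
  I (hc VS) ≤ ENNReal.ofReal (3 / 4) * I (ho WS)

/-- KM-FIN (from ROW, CM): finiteness and positivity -/
def S_FIN : Prop := I (hc VC) < ⊤ ∧ I (hc VS) < ⊤ ∧ 0 < I (ho WA)

/-- the region for the unit triangle -/
def ER : Set Fr := {N | ∀ i : Fin 3, 0 ≤ N i (i + 1) ∧ 0 ≤ N i (i + 2) ∧
  N i (i + 1) + N i (i + 2) < N i i ∧
  (2 * N i (i + 1) < N i i ∨ 2 * N (i + 2) (i + 1) < N (i + 2) i) ∧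
  (2 * N i (i + 2) < N i i ∨ 2 * N (i + 1) (i + 2) < N (i + 1) i) ∧
  (3 * N (i + 1) i < N (i + 1) (i + 1) + N (i + 1) (i + 2) ∨
    3 * N (i + 2) i < N (i + 2) (i + 2) + N (i + 2) (i + 1))}

/-- the unit triangle and the unit square in adapted coordinates -/
def SX : Set (Sp 2) := convexHull ℝ {![1, 0, 0], ![0, 1, 0], ![0, 0, 1]}
def SQ : Set (Sp 2) := convexHull ℝ {![1, 0, 0], ![0, 1, 0], ![0, 0, 1], ![-1, 1, 1]}

/-- KM-LAT: integer points of the plane `x₀ + x₁ + x₂ = 1` in the cone, and positivity -/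
def S_LAT : Prop := ∀ N ∈ ER,
  (∀ x : Fin 3 → ℤ, x 0 + x 1 + x 2 = 1 →
    (∀ i, 0 ≤ N i 0 * x 0 + N i 1 * x 1 + N i 2 * x 2) →
    x = ![1, 0, 0] ∨ x = ![0, 1, 0] ∨ x = ![0, 0, 1]) ∧
  (∀ x : Fin 3 → ℝ, (∀ i, 0 ≤ N i 0 * x 0 + N i 1 * x 1 + N i 2 * x 2) → x ≠ 0 →
    0 < x 0 + x 1 + x 2)

/-- KM-FACE (from LAT) -/
def S_FACE : Prop := ∀ N ∈ ER, 0 < dt N → lns N ∈ withFace (n := 2) SX

/-- the matrix that permutes the columns: `vecMul n (PM τ) j = n (τ j)` -/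
def PM (τ : Equiv.Perm (Fin 3)) : Matrix (Fin 3) (Fin 3) ℝ :=
  Matrix.of fun a j => if a = τ j then 1 else 0

/-- KM-SYM (from FACE): the symmetries of the triangle -/
def S_SYM : Prop := ∀ (N : Fr) (σ : Equiv.Perm (Fin 3)) (ε : Fin 3 → Bool)
  (τ : Equiv.Perm (Fin 3)), Tr σ ε (PM τ) N ∈ ER → 0 < dt (Tr σ ε (PM τ) N) →
    lns N ∈ withFace (n := 2) SX

/-- KM-INC: the three products are in the region -/
def S_INC : Prop := (∀ N ∈ co WC, N ∈ ER ∧ 0 < dt N) ∧ (∀ N ∈ co WS, N ∈ ER ∧ 0 < dt N) ∧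
  (∀ N ∈ co WA, N ∈ ER ∧ 0 < dt N)

/-- KM-DIS: the images under the symmetries are disjoint -/
def S_DIS : Prop := ∀ (N : Fr) (σ σ' : Equiv.Perm (Fin 3)) (ε ε' : Fin 3 → Bool)
  (τ τ' : Equiv.Perm (Fin 3)),
  (Tr σ ε (PM τ) N ∈ co WC → Tr σ' ε' (PM τ') N ∈ co WC → σ = σ' ∧ ε = ε' ∧ τ = τ') ∧
  (Tr σ ε (PM τ) N ∈ co WS → Tr σ' ε' (PM τ') N ∈ co WS → σ = σ' ∧ ε = ε' ∧ τ = τ') ∧
  (Tr σ ε (PM τ) N ∈ co WC → Tr σ' ε' (PM τ') N ∈ co WS → False) ∧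
  (Tr σ ε (PM τ) N ∈ co WC → N ∈ co WA → False) ∧
  (Tr σ ε (PM τ) N ∈ co WS → N ∈ co WA → False)

/-- KM-LOW (from SYM, INC, DIS, TI, CM) -/
def S_LOW : Prop := 288 * (I (ho WC) + I (ho WS)) + I (ho WA) ≤ mob (withFace (n := 2) SX)

/-- the region for the unit square: the four vertices are in the cone, eight neighbours are not -/
def SR : Set Fr := {N | (∀ i, 0 ≤ N i 0 ∧ 0 ≤ N i 1 ∧ 0 ≤ N i 2 ∧ 0 ≤ N i 1 + N i 2 - N i 0) ∧
  (∃ i, 2 * N i 0 < N i 1) ∧ (∃ i, 2 * N i 2 < N i 1 + N i 2 - N i 0) ∧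
  (∃ i, 2 * N i 2 < N i 0) ∧ (∃ i, 2 * (N i 1 + N i 2 - N i 0) < N i 1) ∧
  (∃ i, 2 * (N i 1 + N i 2 - N i 0) < N i 2) ∧ (∃ i, 2 * N i 1 < N i 0) ∧
  (∃ i, 2 * N i 1 < N i 1 + N i 2 - N i 0) ∧ (∃ i, 2 * N i 0 < N i 2)}

/-- the eight symmetries of the square: rotations, and rotations followed by the reflection -/
def Rot : Matrix (Fin 3) (Fin 3) ℝ := !![0, -1, 1; 1, 1, 0; 0, 1, 0]
def Ref : Matrix (Fin 3) (Fin 3) ℝ := !![1, 0, 0; 0, 0, 1; 0, 1, 0]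
def GS (k : Fin 8) : Matrix (Fin 3) (Fin 3) ℝ := Rot ^ (k.val % 4) * Ref ^ (k.val / 4)

/-- KM-COMB: combinatorial covering -/
def S_COMB : Prop := ∀ N ∈ SR, ∃ (σ : Equiv.Perm (Fin 3)) (k : Fin 8),
  Tr σ (fun _ => true) (GS k) N ∈ cc VC ∪ cc VS

/-- KM-GEOB: a continued fraction with the square face comes from `SR` -/
def S_GEOB : Prop := ∀ c ∈ withFace (n := 2) SQ, ∃ N : Fr, dt N ≠ 0 ∧ lns N = c ∧ N ∈ SR

/-- KM-UP (from GEOB, COMB, TI, CM) -/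
def S_UP : Prop := mob (withFace (n := 2) SQ) ≤ 384 * (I (hc VC) + I (hc VS))

end Pool.Agent.R69.KM
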