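import Pool.Agent.R69.KM.Stm

/-!
Project KM, part 2: finiteness, uniqueness of the most frequent classes (n = 2).
-/

set_option autoImplicit false

open MeasureTheory
open scoped ENNReal

namespace Pool.Agent.R69.KM

open Pool.Agent.R69.Klein

/-- KM2-GEOA -/
def S_GEOA : Prop := ∀ c ∈ withFace (n := 2) SX, ∃ N ∈ ER, dt N ≠ 0 ∧ lns N = c

/-- KM2-DETL -/
def S_DETL : Prop := ∃ k : ℝ, 0 < k ∧ ∀ N ∈ ER, k * (N 0 0 * N 1 1 * N 2 2) ≤ dt N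

/-- saturation -/
def sat (O : Set Fr) : Set (CF 2) := {c | ∃ N ∈ O, dt N ≠ 0 ∧ lns N = c}

/-- invariance under positive scalings of the rows -/
def Cn (O : Set Fr) : Prop :=
  ∀ N ∈ O, ∀ (i : Fin 3) (t : ℝ), 0 < t → Function.update N i (t • N i) ∈ O

/-- KM2-SAT (from TI) -/
def S_SAT : Prop := ∀ O : Set Fr, MeasurableSet O → Cn O →
  MeasurableSet (sat O) ∧ I (O.indicator rho) ≤ mob (sat O) ∧
    mob (sat O) ≤ 48 * I (O.indicator rho)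

/-- KM2-FINA (from GEOA, DETL, SAT) -/
def S_FINA : Prop := mob (withFace (n := 2) SX) < ⊤

/-- KM2-POS -/
def S_POS : Prop := ∀ O : Set Fr, IsOpen O → O.Nonempty → Cn O → (∀ N ∈ O, dt N ≠ 0) →
  0 < I (O.indicator rho)

/-- KM2-STR (from FACE, DETL, SAT, FINA, POS) -/
def S_STR : Prop := ∀ O : Set Fr, IsOpen O → O.Nonempty → Cn O → O ⊆ ER →
  ∀ X : Set (CF 2), X ⊆ withFace (n := 2) SX → Disjoint X (sat O) →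
    mob X < mob (withFace (n := 2) SX)

/-- the value of the covector `n` at `x` -/
def vl (n x : Fin 3 → ℝ) : ℝ := n 0 * x 0 + n 1 * x 1 + n 2 * x 2

/-- KM2-KEY -/
def S_KEY : Prop := ∀ (A : Sp 2 ≃ₗ[ℝ] Sp 2) (F : Set (Sp 2)),
  (∀ i : Fin (2 + 1), IsInt (A (Pi.single i 1)) ∧ A (Pi.single i 1) ∈ F) →
  ∀ N ∈ ER, dt N ≠ 0 → HasFace (act A (lns N)) F →
    (∀ x : Sp 2, IsInt (A x) → x ≠ 0 → (∀ i, 0 ≤ vl (N i) x) →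
      1 ≤ x 0 + x 1 + x 2 ∧ (x 0 + x 1 + x 2 = 1 → A x ∈ F)) ∧
    (∀ x : Sp 2, A x ∈ F → x 0 + x 1 + x 2 = 1 ∧ ∀ i, 0 ≤ vl (N i) x)

/-- the open version of `ER` -/
def ERo : Set Fr := {N | ∀ i : Fin 3, 0 < N i (i + 1) ∧ 0 < N i (i + 2) ∧
  N i (i + 1) + N i (i + 2) < N i i ∧
  (2 * N i (i + 1) < N i i ∨ 2 * N (i + 2) (i + 1) < N (i + 2) i) ∧
  (2 * N i (i + 2) < N i i ∨ 2 * N (i + 1) (i + 2) < N (i + 1) i) ∧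
  (3 * N (i + 1) i < N (i + 1) (i + 1) + N (i + 1) (i + 2) ∨
    3 * N (i + 2) i < N (i + 2) (i + 2) + N (i + 2) (i + 1))}

def Op (p : Fin 3 → ℝ) : Set Fr := {N | N ∈ ERo ∧ ∀ i, 0 < vl (N i) p}
def On (i : Fin 3) (p : Fin 3 → ℝ) : Set Fr := {N | N ∈ ERo ∧ vl (N i) p < 0}

/-- KM2-OPN -/
def S_OPN : Prop := ∀ (p : Fin 3 → ℝ) (i : Fin 3), IsOpen (Op p) ∧ Cn (Op p) ∧ Op p ⊆ ER ∧
  IsOpen (On i p) ∧ Cn (On i p) ∧ On i p ⊆ ER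

/-- KM2-FARP -/
def S_FARP : Prop := ∀ (p : Fin 3 → ℝ) (i j k : Fin 3), i ≠ j → j ≠ k → i ≠ k →
  p i < 0 → 0 < p j → 0 ≤ p k → -p i < p j → (0 < p k ∨ -(2 * p i) < p j) → (Op p).Nonempty

/-- KM2-NEARP -/
def S_NEARP : Prop := ∀ (p : Fin 3 → ℝ) (i : Fin 3), p i < 0 → (On i p).Nonempty

/-- KM2-ARI -/
def S_ARI : Prop := ∀ w : Matrix (Fin 3) (Fin 3) ℤ, w.det ≠ 0 →
  (∀ x : Fin 3 → ℝ, (∀ i, 0 ≤ x i ∧ x i < 1) → x ≠ 0 →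
    (∀ j, ∃ m : ℤ, x 0 * w 0 j + x 1 * w 1 j + x 2 * w 2 j = m) → ∀ i, x i = 1 / 2) →
  w.det.natAbs = 1 ∨ (w.det.natAbs = 2 ∧ ∀ j, (2 : ℤ) ∣ w 0 j + w 1 j + w 2 j)

/-- KM2-DEL -/
def S_DEL : Prop := ∀ δ : Fin 3 → ℝ, (∀ i, 0 ≤ δ i ∧ δ i < 1) → δ ≠ 0 → ¬ (∀ i, δ i = 1 / 2) →
  ∃ p : Fin 3 → ℝ, p ≠ 0 ∧ p 0 + p 1 + p 2 ≤ 1 ∧
    ((∀ i, ∃ m : ℤ, p i = δ i + m) ∨ (∀ i, ∃ m : ℤ, p i = -δ i + m)) ∧
    (((∀ i, 0 ≤ p i) ∧ p 0 + p 1 + p 2 < 1) ∨ ∃ i j k : Fin 3, i ≠ j ∧ j ≠ k ∧ i ≠ k ∧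
      p i < 0 ∧ 0 < p j ∧ 0 ≤ p k ∧ -p i < p j ∧ (0 < p k ∨ -(2 * p i) < p j))

/-- the triangle with the vertices `w 0`, `w 1`, `w 2` -/
def tri (w : Matrix (Fin 3) (Fin 3) ℤ) : Set (Sp 2) :=
  convexHull ℝ (Set.range fun i => toR (n := 2) (w i))

/-- unit triangles at integer distance one or two from the origin -/
def Top (F : Set (Sp 2)) : Prop := ∃ w : Matrix (Fin 3) (Fin 3) ℤ, F = tri w ∧
  (w.det.natAbs = 1 ∨ (w.det.natAbs = 2 ∧ ∀ j, (2 : ℤ) ∣ w 0 j + w 1 j + w 2 j))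

/-- KM2-UNQ (from INV, STR, KEY, OPN, FARP, NEARP, ARI, DEL and the strict inequality) -/
def S_UNQ : Prop := mob (withFace (n := 2) SQ) < mob (withFace (n := 2) SX) →
  ∀ F : Set (Sp 2), IsLatticePolytope F → ¬ Top F →
    mob (withFace F) < mob (withFace (n := 2) SX)

/-- KM2-EQ (from INV) -/
def S_EQ : Prop := ∀ F : Set (Sp 2), Top F → mob (withFace F) = mob (withFace (n := 2) SX)

end Pool.Agent.R69.KM
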