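import Pool.Agent.R69.KM.Stm2

/-!
KM2-STR: strict inequality of measures
-/

set_option autoImplicit false

open MeasureTheory
open scoped ENNReal

namespace Pool.Agent.R69.KM.Str

open Pool.Agent.R69.Klein Pool.Agent.R69.KM

theorem dt_pos (hD : S_DETL) (N : Fr) (hN : N ∈ ER) : 0 < dt N := by
  obtain ⟨k, hk, h⟩ := hD
  refine lt_of_lt_of_le ?_ (h N hN)
  have hpos : ∀ i : Fin 3, 0 < N i i := by
    intro i
    obtain ⟨h1, h2, h3, -⟩ := hN i
    linarith
  exact mul_pos hk (mul_pos (mul_pos (hpos 0) (hpos 1)) (hpos 2))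

theorem main : S_FACE → S_LAT → S_DETL → S_SAT → S_FINA → S_POS → S_STR := by
  intro hFace _ hD hSat hFin hPos O hO hne hC hER X hX hdisj
  have hdt : ∀ N ∈ O, dt N ≠ 0 := fun N hN => (dt_pos hD N (hER hN)).ne'
  obtain ⟨hm, hle, -⟩ := hSat O hO.measurableSet hC
  have hpos : 0 < mob (sat O) := lt_of_lt_of_le (hPos O hO hne hC hdt) hle
  have hsub : sat O ⊆ withFace (n := 2) SX := by
    rintro c ⟨N, hN, -, rfl⟩
    exact hFace N (hER hN) (dt_pos hD N (hER hN))
  have h1 : mob X + mob (sat O) ≤ mob (withFace (n := 2) SX) := by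
    rw [← measure_union hdisj hm]
    exact measure_mono (Set.union_subset hX hsub)
  have hXt : mob X ≠ ⊤ := ((measure_mono hX).trans_lt hFin).ne
  exact lt_of_lt_of_le (ENNReal.lt_add_right hXt hpos.ne') h1

end Pool.Agent.R69.KM.Str
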