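import Pool.Agent.R69.KM.Stm

/-!
Project KM, piece TI: the general substitution (helper606).
-/

set_option autoImplicit false

open MeasureTheory
open scoped ENNReal

namespace Pool.Agent.R69.KM.Ti

open Pool.Agent.R69.KM

theorem abs_det_smul (b : Bool) (G : Matrix (Fin 3) (Fin 3) ℝ) (hG : |G.det| = 1) :
    |(sg b • G).det| = 1 := by
  rw [Matrix.det_smul, abs_mul, hG, mul_one, Fintype.card_fin, abs_pow]
  unfold sg
  split_ifs <;> norm_num

theorem main : S_ROW → S_PRM → S_TI := by
  intro hrow hprm f hf hhom σ ε G hG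
  have h1 : I (fun N => f (Tr σ ε G N)) =
      I (fun N => f (fun i => Matrix.vecMul (N i) (sg (ε i) • G))) := by
    have h2 := hprm (fun N => f (fun i => Matrix.vecMul (N i) (sg (ε i) • G))) σ
    rw [← h2]
    unfold I
    refine lintegral_congr fun N => ?_
    change f (fun i => sg (ε i) • Matrix.vecMul (N (σ i)) G) =
      f (fun i => Matrix.vecMul (N (σ i)) (sg (ε i) • G))
    congr 1
    funext i
    rw [Matrix.vecMul_smul]
  have h3 : ∀ i, |(sg (ε i) • G).det| = 1 := fun i => abs_det_smul (ε i) G hG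
  have h4 := hrow f hf hhom (fun i => sg (ε i) • G) (fun i h0 => by
    have h5 := h3 i
    rw [h0, abs_zero] at h5
    exact zero_ne_one h5)
  rw [h1, h4, h3, h3, h3]
  simp

end Pool.Agent.R69.KM.Ti
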