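import Pool.Agent.R69.KM.Stm2
import Pool.Agent.R69.KM.Asm

/-!
Project KM, part 2: uniqueness (assembly).
-/

set_option autoImplicit false

open MeasureTheory
open scoped ENNReal

namespace Pool.Agent.R69.KM.Unq

open Pool.Agent.R69.Klein Pool.Agent.R69.KM

/-- the reduction with more information -/
theorem red {F : Set (Sp 2)} (hF : IsLatticePolytope F) (hne : (withFace F).Nonempty) :
    ∃ (w : Fin (2 + 1) → Sp 2) (hw : LinearIndependent ℝ w), (∀ i, IsInt (w i)) ∧ (∀ i, w i ∈ F) ∧
      (∀ x : Sp 2, autOf hw x ∈ F → x 0 + x 1 + x 2 = 1) ∧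
      ∃ Z : Finset (Fin (2 + 1) → ℤ), Unimod Z ∧
        {x | IsInt x ∧ autOf hw x ∈ F} = toR '' (Z : Set (Fin (2 + 1) → ℤ)) := by
  classical
  obtain ⟨W, hWf, hWi, rfl⟩ := hF
  obtain ⟨c, u, hu, hcu, hfac⟩ := hne
  obtain ⟨w₀, hw₀W, hw₀⟩ := exists_li (by norm_num) hWf hWi hu hfac
  obtain ⟨φ, b, hφ, hK, hFe, hdim⟩ := hfac
  have hb := facet_pos hWf hWi hu hK hFe ⟨_, hw₀W 0⟩
  have hφW : ∀ x ∈ convexHull ℝ W, φ x = b := by
    intro x hx
    rw [hFe] at hx
    exact hx.2
  -- a tuple with maximal determinant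
  obtain ⟨w, hwmem, hwmax⟩ := Finset.exists_max_image
    (Fintype.piFinset (fun _ : Fin (2 + 1) => hWf.toFinset)) (fun y => |Klein.dt y|)
    ⟨w₀, by simpa using hw₀W⟩
  have hwW : ∀ i, w i ∈ W := by simpa using hwmem
  have hmax : ∀ y : Fin (2 + 1) → Sp 2, (∀ i, y i ∈ W) → |Klein.dt y| ≤ |Klein.dt w| := by
    intro y hy
    exact hwmax y (by simpa using hy)
  have hdw : 0 < |Klein.dt w| := by
    have h1 := hmax w₀ hw₀W
    have h2 : 0 < |Klein.dt w₀| := abs_pos.2 (dt_ne_zero_of_li hw₀)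
    linarith
  have hw : LinearIndependent ℝ w := li_of_dt_ne_zero (abs_pos.1 hdw)
  have hbound : ∀ y : Fin (2 + 1) → Sp 2, (∀ i, autOf hw (y i) ∈ convexHull ℝ W) →
      |Klein.dt y| ≤ 1 := by
    intro y hy
    have h1 := dt_le_of_convexHull hmax (fun i => autOf hw (y i)) hy
    rw [dt_autOf, abs_mul] at h1
    by_contra hcon
    push Not at hcon
    nlinarith
  let Z : Finset (Fin (2 + 1) → ℤ) :=
    (Fintype.piFinset fun _ => ({-1, 0, 1} : Finset ℤ)).filter
      (fun z => autOf hw (toR z) ∈ convexHull ℝ W)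
  have hZmem : ∀ z, autOf hw (toR z) ∈ convexHull ℝ W → z ∈ Z := by
    intro z hz
    refine Finset.mem_filter.2 ⟨?_, hz⟩
    rw [Fintype.mem_piFinset]
    intro i
    have h1 := hbound (fun j => toR (Function.update
      (fun j => (Pi.single j 1 : Fin (2 + 1) → ℤ)) i z j)) (by
        intro j
        by_cases hj : j = i
        · subst hj; rw [Function.update_self]; exact hz
        · rw [Function.update_of_ne hj, autOf_single]
          exact subset_convexHull ℝ W (hwW j))
    rw [dt_toR, det_update_one] at h1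
    have h2 : |z i| ≤ 1 := by exact_mod_cast h1
    rw [abs_le] at h2
    simp only [Finset.mem_insert, Finset.mem_singleton]
    omega
  have hset : {x | IsInt x ∧ autOf hw x ∈ convexHull ℝ W} =
      toR '' (Z : Set (Fin (2 + 1) → ℤ)) := by
    ext x
    constructor
    · rintro ⟨hx, hxF⟩
      obtain ⟨z, rfl⟩ := exists_toR hx
      exact ⟨z, Finset.mem_coe.2 (hZmem z hxF), rfl⟩
    · rintro ⟨z, hz, rfl⟩
      exact ⟨isInt_toR z, (Finset.mem_filter.1 (Finset.mem_coe.1 hz)).2⟩
  have hlev : ∀ x : Sp 2, autOf hw x ∈ convexHull ℝ W → ∑ i, x i = 1 := by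
    intro x hx
    have h1 := hφW _ hx
    rw [autOf_apply, map_sum] at h1
    have h2 : ∑ i, φ (x i • w i) = (∑ i, x i) * b := by
      rw [Finset.sum_mul]
      refine Finset.sum_congr rfl fun i _ => ?_
      rw [map_smul, smul_eq_mul, hφW _ (subset_convexHull ℝ W (hwW i))]
    rw [h2] at h1
    have : ((∑ i, x i) - 1) * b = 0 := by linarith
    rcases mul_eq_zero.1 this with h | h
    · linarith
    · exact absurd h hb.ne'
  refine ⟨w, hw, fun i => hWi _ (hwW i), fun i => subset_convexHull ℝ W (hwW i), ?_, Z,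
    ⟨?_, ?_, ?_, ?_⟩, hset⟩
  · intro x hx
    have := hlev x hx
    rwa [Fin.sum_univ_three] at this
  · intro i
    apply hZmem
    rw [autOf_single]
    exact subset_convexHull ℝ W (hwW i)
  · intro z hz
    have h1 := hlev _ (Finset.mem_filter.1 hz).2
    have h3 : (∑ i, (z i : ℝ)) = 1 := h1
    exact_mod_cast h3
  · intro x hx
    apply hZmem
    have hcv : Convex ℝ {y : Sp 2 | autOf hw y ∈ convexHull ℝ W} :=
      (convex_convexHull ℝ W).linear_preimage (autOf hw).toLinearMap
    refine convexHull_min ?_ hcv hx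
    rw [← hset]
    exact fun y hy => hy.2
  · intro t ht
    have h1 := hbound (fun i => toR (t i)) (fun i => (Finset.mem_filter.1 (ht i)).2)
    rw [dt_toR] at h1
    exact_mod_cast h1

/-- the square case -/
theorem sq {Z : Finset (Fin 3 → ℤ)} (hI : S_INV) (hZ : Unimod (n := 2) Z)
    (h : (![-1, 1, 1] : Fin 3 → ℤ) ∈ Z ∨ (![1, -1, 1] : Fin 3 → ℤ) ∈ Z ∨
      (![1, 1, -1] : Fin 3 → ℤ) ∈ Z) :
    mob (withFace (n := 2) (convexHull ℝ (toR '' (Z : Set (Fin 3 → ℤ))))) ≤ mob (withFace TB) := by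
  rcases h with m0 | m1 | m2
  · refine Base.measure_transfer hI hZ Base.A0 Base.isInt_A0 Base.isInt_A0s ?_
    intro x
    simp only [Set.mem_insert_iff, Set.mem_singleton_iff]
    constructor
    · rintro (rfl | rfl | rfl | rfl)
      · exact ⟨by simpa using Base.isInt_vec 0 0 1, _, (Base.e_mem hZ).1, Base.a0_0⟩
      · exact ⟨by simpa using Base.isInt_vec 1 0 1, _, (Base.e_mem hZ).2.1, Base.a0_1⟩
      · exact ⟨by simpa using Base.isInt_vec 1 1 1, _, m0, Base.a0_3⟩
      · exact ⟨by simpa using Base.isInt_vec 0 1 1, _, (Base.e_mem hZ).2.2, Base.a0_2⟩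
    · rintro ⟨_, z, hz, hx⟩
      rcases Base.six hZ z hz with h | h | h | h | h | h
      · subst h; left; exact Base.A0.injective (hx.trans Base.a0_0.symm)
      · subst h; right; left; exact Base.A0.injective (hx.trans Base.a0_1.symm)
      · subst h; right; right; right; exact Base.A0.injective (hx.trans Base.a0_2.symm)
      · subst h; right; right; left; exact Base.A0.injective (hx.trans Base.a0_3.symm)
      · exact (Base.not01 hZ m0 (h ▸ hz)).elim
      · exact (Base.not02 hZ m0 (h ▸ hz)).elim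
  · refine Base.measure_transfer hI hZ Base.A1 Base.isInt_A1 Base.isInt_A1s ?_
    intro x
    simp only [Set.mem_insert_iff, Set.mem_singleton_iff]
    constructor
    · rintro (rfl | rfl | rfl | rfl)
      · exact ⟨by simpa using Base.isInt_vec 0 0 1, _, (Base.e_mem hZ).2.1, Base.a1_0⟩
      · exact ⟨by simpa using Base.isInt_vec 1 0 1, _, (Base.e_mem hZ).1, Base.a1_1⟩
      · exact ⟨by simpa using Base.isInt_vec 1 1 1, _, m1, Base.a1_3⟩
      · exact ⟨by simpa using Base.isInt_vec 0 1 1, _, (Base.e_mem hZ).2.2, Base.a1_2⟩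
    · rintro ⟨_, z, hz, hx⟩
      rcases Base.six hZ z hz with h | h | h | h | h | h
      · subst h; right; left; exact Base.A1.injective (hx.trans Base.a1_1.symm)
      · subst h; left; exact Base.A1.injective (hx.trans Base.a1_0.symm)
      · subst h; right; right; right; exact Base.A1.injective (hx.trans Base.a1_2.symm)
      · exact (Base.not01 hZ (h ▸ hz) m1).elim
      · subst h; right; right; left; exact Base.A1.injective (hx.trans Base.a1_3.symm)
      · exact (Base.not12 hZ m1 (h ▸ hz)).elim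
  · refine Base.measure_transfer hI hZ Base.A2 Base.isInt_A2 Base.isInt_A2s ?_
    intro x
    simp only [Set.mem_insert_iff, Set.mem_singleton_iff]
    constructor
    · rintro (rfl | rfl | rfl | rfl)
      · exact ⟨by simpa using Base.isInt_vec 0 0 1, _, (Base.e_mem hZ).2.2, Base.a2_0⟩
      · exact ⟨by simpa using Base.isInt_vec 1 0 1, _, (Base.e_mem hZ).1, Base.a2_1⟩
      · exact ⟨by simpa using Base.isInt_vec 1 1 1, _, m2, Base.a2_3⟩
      · exact ⟨by simpa using Base.isInt_vec 0 1 1, _, (Base.e_mem hZ).2.1, Base.a2_2⟩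
    · rintro ⟨_, z, hz, hx⟩
      rcases Base.six hZ z hz with h | h | h | h | h | h
      · subst h; right; left; exact Base.A2.injective (hx.trans Base.a2_1.symm)
      · subst h; right; right; right; exact Base.A2.injective (hx.trans Base.a2_2.symm)
      · subst h; left; exact Base.A2.injective (hx.trans Base.a2_0.symm)
      · exact (Base.not02 hZ (h ▸ hz) m2).elim
      · exact (Base.not12 hZ (h ▸ hz) m2).elim
      · subst h; right; right; left; exact Base.A2.injective (hx.trans Base.a2_3.symm)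

theorem autOf_apply3 {w : Fin (2 + 1) → Sp 2} (hw : LinearIndependent ℝ w) (x : Sp 2)
    (j : Fin (2 + 1)) : autOf hw x j = x 0 * w 0 j + x 1 * w 1 j + x 2 * w 2 j := by
  rw [autOf_apply, Fin.sum_univ_three]
  simp

theorem autOf_pi {w : Fin (2 + 1) → Sp 2} (hw : LinearIndependent ℝ w) (i : Fin (2 + 1)) :
    autOf hw (Pi.single i 1) = w i := by
  have h : (Pi.single i 1 : Sp 2) = toR (Pi.single i 1 : Fin (2 + 1) → ℤ) := by
    ext j
    by_cases hj : j = i
    · subst hj; simp [toR]
    · simp [toR, hj]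
  rw [h, autOf_single]

theorem mem_conv {w : Fin (2 + 1) → Sp 2} (hw : LinearIndependent ℝ w) (x : Sp 2)
    (h0 : ∀ i, 0 ≤ x i) (h1 : x 0 + x 1 + x 2 = 1) :
    autOf hw x ∈ convexHull ℝ (Set.range w) := by
  rw [autOf_apply]
  exact (convex_convexHull ℝ _).sum_mem (fun i _ => h0 i) (by rw [Fin.sum_univ_three]; exact h1)
    (fun i _ => subset_convexHull ℝ _ ⟨i, rfl⟩)

theorem conv_nonneg {w : Fin (2 + 1) → Sp 2} (hw : LinearIndependent ℝ w) (x : Sp 2)
    (h : autOf hw x ∈ convexHull ℝ (Set.range w)) (i : Fin (2 + 1)) : 0 ≤ x i := by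
  have hcv : Convex ℝ {y : Sp 2 | 0 ≤ (autOf hw).symm y i} := by
    have := (convex_Ici (0 : ℝ)).linear_preimage
      ((LinearMap.proj i : Sp 2 →ₗ[ℝ] ℝ).comp (autOf hw).symm.toLinearMap)
    exact this
  have h1 : autOf hw x ∈ {y : Sp 2 | 0 ≤ (autOf hw).symm y i} := by
    refine convexHull_min ?_ hcv h
    rintro _ ⟨j, rfl⟩
    change 0 ≤ (autOf hw).symm (w j) i
    rw [← autOf_pi hw j, LinearEquiv.symm_apply_apply]
    by_cases hij : i = j
    · subst hij; simp
    · simp [hij]
  have h2 : 0 ≤ (autOf hw).symm (autOf hw x) i := h1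
  rwa [LinearEquiv.symm_apply_apply] at h2

theorem toR_std (i : Fin (2 + 1)) : toR (n := 2) ((![![1, 0, 0], ![0, 1, 0], ![0, 0, 1]] :
    Fin (2 + 1) → Fin (2 + 1) → ℤ) i) = Pi.single i 1 := by
  fin_cases i <;> (ext j; fin_cases j <;> simp [toR])

theorem main (hI : S_INV) (hG : S_GEOA) (hS : S_STR) (hK : S_KEY) (hO : S_OPN) (hF' : S_FARP)
    (hN : S_NEARP) (hA : S_ARI) (hD : S_DEL) : S_UNQ := by
  classical
  intro hlt F hF hT
  have hpos : 0 < mob (withFace (n := 2) SX) := lt_of_le_of_lt bot_le hlt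
  by_cases hemp : withFace F = ∅
  · rw [hemp, measure_empty]; exact hpos
  obtain ⟨w, hw, hwi, hwF, hlev, Z, hZ, hset⟩ := red hF (Set.nonempty_iff_ne_empty.2 hemp)
  have hp : ∀ i, IsInt (toR (n := 2) (Pi.single i 1 : Fin (2 + 1) → ℤ)) ∧
      autOf hw (toR (Pi.single i 1 : Fin (2 + 1) → ℤ)) ∈ F :=
    fun i => ⟨isInt_toR _, by rw [autOf_single]; exact hwF i⟩
  have hAint := isInt_autOf hw hwi
  have hle := measure_le (μ := mob) hI (autOf hw) hAint (F := F)
      (p := fun i => toR (Pi.single i 1 : Fin (2 + 1) → ℤ)) li_std hp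
  rw [hset] at hle
  by_cases hsq : (![-1, 1, 1] : Fin 3 → ℤ) ∈ Z ∨ (![1, -1, 1] : Fin 3 → ℤ) ∈ Z ∨
      (![1, 1, -1] : Fin 3 → ℤ) ∈ Z
  · exact lt_of_le_of_lt ((hle.trans (sq hI hZ hsq)).trans (TB_le_SQ hI)) hlt
  push Not at hsq
  -- the set `Z` consists of the three unit vectors
  have hZ3 : ∀ z, z ∈ Z ↔ z = ![1, 0, 0] ∨ z = ![0, 1, 0] ∨ z = ![0, 0, 1] := by
    intro z
    constructor
    · intro hz
      rcases Base.six hZ z hz with h | h | h | h | h | h
      · exact Or.inl h
      · exact Or.inr (Or.inl h)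
      · exact Or.inr (Or.inr h)
      · exact (hsq.1 (h ▸ hz)).elim
      · exact (hsq.2.1 (h ▸ hz)).elim
      · exact (hsq.2.2 (h ▸ hz)).elim
    · rintro (rfl | rfl | rfl)
      · exact (Base.e_mem hZ).1
      · exact (Base.e_mem hZ).2.1
      · exact (Base.e_mem hZ).2.2
  have hSX : convexHull ℝ {x | IsInt x ∧ autOf hw x ∈ F} = SX := by
    rw [hset, imZ Z hZ3]
    rfl
  -- the transported set
  have hX1 : mob (act (autOf hw) ⁻¹' withFace F) = mob (withFace F) :=
    measure_preimage hI (autOf hw) _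
  have hX2 : act (autOf hw) ⁻¹' withFace F ⊆ withFace (n := 2) SX := by
    intro c hc
    have h := hasFace_comap (autOf hw) hAint li_std hp hc
    rw [hSX, act_symm_act] at h
    exact h
  rw [← hX1]
  have hkey := hK (autOf hw) F (fun i => by rw [autOf_pi]; exact ⟨hwi i, hwF i⟩)
  by_cases hconv : F = convexHull ℝ (Set.range w)
  · -- `F` is a triangle
    choose wz hwz using fun i => exists_toR (hwi i)
    have hFt : F = tri (Matrix.of wz) := by
      rw [hconv]
      congr 1
      ext y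
      constructor
      · rintro ⟨i, rfl⟩
        exact ⟨i, (hwz i).symm⟩
      · rintro ⟨i, rfl⟩
        exact ⟨i, hwz i⟩
    have hdet : (Matrix.of wz).det ≠ 0 := by
      intro h
      apply dt_ne_zero_of_li hw
      have h2 : w = fun i => toR (wz i) := funext hwz
      rw [h2, dt_toR]
      exact_mod_cast h
    have hno : ¬ ((Matrix.of wz).det.natAbs = 1 ∨ ((Matrix.of wz).det.natAbs = 2 ∧
        ∀ j, (2 : ℤ) ∣ (Matrix.of wz) 0 j + (Matrix.of wz) 1 j + (Matrix.of wz) 2 j)) :=
      fun h => hT ⟨_, hFt, h⟩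
    have hAri := mt (hA (Matrix.of wz) hdet) hno
    push Not at hAri
    obtain ⟨δ, hδ, hδ0, hδi, i0, hi0⟩ := hAri
    obtain ⟨p, hp0, hpl, hpint, hpc⟩ := hD δ hδ hδ0 (fun h => hi0 (h i0))
    have hδint : IsInt (autOf hw δ) := by
      intro j
      obtain ⟨m, hm⟩ := hδi j
      refine ⟨m, ?_⟩
      rw [autOf_apply3, ← hm, hwz 0, hwz 1, hwz 2]
      rfl
    have hApint : IsInt (autOf hw p) := by
      rcases hpint with h | h
      · choose m hm using h
        have h2 : p = δ + toR m := by ext i; exact hm i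
        rw [h2, map_add]
        intro j
        obtain ⟨a, ha⟩ := hδint j
        obtain ⟨b, hb⟩ := hAint _ (isInt_toR m) j
        exact ⟨a + b, by rw [Pi.add_apply, ha, hb]; push_cast; ring⟩
      · choose m hm using h
        have h2 : p = -δ + toR m := by ext i; exact hm i
        rw [h2, map_add, map_neg]
        intro j
        obtain ⟨a, ha⟩ := hδint j
        obtain ⟨b, hb⟩ := hAint _ (isInt_toR m) j
        exact ⟨-a + b, by rw [Pi.add_apply, Pi.neg_apply, ha, hb]; push_cast; ring⟩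
    rcases hpc with ⟨hpn, hpl2⟩ | ⟨i, j, k, hij, hjk, hik, c1, c2, c3, c4, c5⟩
    · -- the set is empty
      have hXe : act (autOf hw) ⁻¹' withFace F = ∅ := by
        rw [Set.eq_empty_iff_forall_notMem]
        intro c hc
        obtain ⟨N, hNE, hN0, rfl⟩ := hG c (hX2 hc)
        have h1 := ((hkey N hNE hN0 hc).1 p hApint hp0 (fun i => ?_)).1
        · linarith
        · unfold vl
          have e0 := hNE 0
          have e1 := hNE 1
          have e2 := hNE 2
          have q0 := hpn 0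
          have q1 := hpn 1
          have q2 := hpn 2
          simp only [Fin.isValue, zero_add, Fin.reduceAdd] at e0 e1 e2
          obtain ⟨a1, a2, a3, -⟩ := e0
          obtain ⟨b1, b2, b3, -⟩ := e1
          obtain ⟨d1, d2, d3, -⟩ := e2
          have f0 : 0 ≤ N 0 0 := by linarith
          have f1 : 0 ≤ N 1 1 := by linarith
          have f2 : 0 ≤ N 2 2 := by linarith
          fin_cases i
          · simp only [Fin.zero_eta, Fin.isValue]; positivity
          · simp only [Fin.mk_one, Fin.isValue]; positivity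
          · simp only [Fin.reduceFinMk, Fin.isValue]; positivity
      rw [hXe, measure_empty]
      exact hpos
    · refine hS (Op p) (hO p 0).1 (hF' p i j k hij hjk hik c1 c2 c3 c4 c5) (hO p 0).2.1
        (hO p 0).2.2.1 _ hX2 ?_
      rw [Set.disjoint_left]
      rintro c hc ⟨N, hNO, hN0, rfl⟩
      have h1 := (hkey N ((hO p 0).2.2.1 hNO) hN0 hc).1 p hApint hp0 (fun i => (hNO.2 i).le)
      have h2 : p 0 + p 1 + p 2 = 1 := le_antisymm hpl h1.1
      have h3 := h1.2 h2
      rw [hconv] at h3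
      exact absurd (conv_nonneg hw p h3 i) (not_le.2 c1)
  · -- `F` has another vertex
    have hex : ∃ x : Sp 2, autOf hw x ∈ F ∧ ∃ i, x i < 0 := by
      by_contra hcon
      push Not at hcon
      apply hconv
      apply Set.Subset.antisymm
      · intro y hy
        have hy' : autOf hw ((autOf hw).symm y) ∈ F := by rwa [LinearEquiv.apply_symm_apply]
        have := mem_conv hw ((autOf hw).symm y) (hcon _ hy') (hlev _ hy')
        rwa [LinearEquiv.apply_symm_apply] at this
      · obtain ⟨W, -, -, rfl⟩ := hF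
        apply convexHull_min _ (convex_convexHull ℝ W)
        rintro _ ⟨i, rfl⟩
        exact hwF i
    obtain ⟨x, hxF, i, hxi⟩ := hex
    refine hS (On i x) (hO x i).2.2.2.1 (hN x i hxi) (hO x i).2.2.2.2.1
      (hO x i).2.2.2.2.2 _ hX2 ?_
    rw [Set.disjoint_left]
    rintro c hc ⟨N, hNO, hN0, rfl⟩
    have h1 := ((hkey N ((hO x i).2.2.2.2.2 hNO) hN0 hc).2 x hxF).2 i
    exact absurd h1 (not_le.2 hNO.2)

end Pool.Agent.R69.KM.Unq
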