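import Pool.Agent.R69.KM.Sat

/-!
Project KM, piece UP (helper668): upper bound for the measure of the unit square.
-/

set_option autoImplicit false

open MeasureTheory
open scoped ENNReal

namespace Pool.Agent.R69.KM.Up

open Pool.Agent.R69.Klein Pool.Agent.R69.KM

theorem det_GS (k : Fin 8) : |(GS k).det| = 1 := by
  unfold GS
  have h1 : Rot.det = 1 := by simp [Rot, Matrix.det_fin_three]
  have h2 : Ref.det = -1 := by simp [Ref, Matrix.det_fin_three]
  rw [Matrix.det_mul, Matrix.det_pow, Matrix.det_pow, h1, h2, one_pow, one_mul, abs_pow]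
  simp

theorem Cn_SR : Cn SR := by
  intro N hN i t ht
  obtain ⟨s, hs, hrow⟩ : ∃ s : Fin 3 → ℝ, (∀ j, 0 < s j) ∧
      ∀ j a, Function.update N i (t • N i) j a = s j * N j a := by
    refine ⟨fun j => if j = i then t else 1, fun j => ?_, fun j a => ?_⟩
    · by_cases h : j = i
      · simp [h, ht]
      · simp [h]
    · by_cases h : j = i
      · subst h
        simp
      · simp [h]
  obtain ⟨h0, ⟨i1, h1⟩, ⟨i2, h2⟩, ⟨i3, h3⟩, ⟨i4, h4⟩, ⟨i5, h5⟩, ⟨i6, h6⟩, ⟨i7, h7⟩,
    ⟨i8, h8⟩⟩ := hN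
  refine ⟨fun j => ?_, ⟨i1, ?_⟩, ⟨i2, ?_⟩, ⟨i3, ?_⟩, ⟨i4, ?_⟩, ⟨i5, ?_⟩, ⟨i6, ?_⟩, ⟨i7, ?_⟩,
    ⟨i8, ?_⟩⟩
  · obtain ⟨a0, a1, a2, a3⟩ := h0 j
    simp only [hrow]
    refine ⟨mul_nonneg (hs j).le a0, mul_nonneg (hs j).le a1, mul_nonneg (hs j).le a2, ?_⟩
    have := mul_nonneg (hs j).le a3
    linarith
  · simp only [hrow]
    linarith [mul_lt_mul_of_pos_left h1 (hs i1)]
  · simp only [hrow]
    linarith [mul_lt_mul_of_pos_left h2 (hs i2)]
  · simp only [hrow]
    linarith [mul_lt_mul_of_pos_left h3 (hs i3)]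
  · simp only [hrow]
    linarith [mul_lt_mul_of_pos_left h4 (hs i4)]
  · simp only [hrow]
    linarith [mul_lt_mul_of_pos_left h5 (hs i5)]
  · simp only [hrow]
    linarith [mul_lt_mul_of_pos_left h6 (hs i6)]
  · simp only [hrow]
    linarith [mul_lt_mul_of_pos_left h7 (hs i7)]
  · simp only [hrow]
    linarith [mul_lt_mul_of_pos_left h8 (hs i8)]

theorem meas_SR : MeasurableSet SR := by
  have hle : ∀ f g : Fr → ℝ, Continuous f → Continuous g → Measurable (fun N => f N ≤ g N) :=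
    fun f g hf hg => measurableSet_setOf.1 (measurableSet_le hf.measurable hg.measurable)
  have hlt : ∀ f g : Fr → ℝ, Continuous f → Continuous g → Measurable (fun N => f N < g N) :=
    fun f g hf hg => measurableSet_setOf.1 (measurableSet_lt hf.measurable hg.measurable)
  refine measurableSet_setOf.2 ?_
  refine Measurable.and (Measurable.forall fun i => ?_) ?_
  · exact (hle _ _ (by fun_prop) (by fun_prop)).and ((hle _ _ (by fun_prop) (by fun_prop)).and
      ((hle _ _ (by fun_prop) (by fun_prop)).and (hle _ _ (by fun_prop) (by fun_prop))))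
  · refine Measurable.and (Measurable.exists fun i => hlt _ _ (by fun_prop) (by fun_prop)) ?_
    refine Measurable.and (Measurable.exists fun i => hlt _ _ (by fun_prop) (by fun_prop)) ?_
    refine Measurable.and (Measurable.exists fun i => hlt _ _ (by fun_prop) (by fun_prop)) ?_
    refine Measurable.and (Measurable.exists fun i => hlt _ _ (by fun_prop) (by fun_prop)) ?_
    refine Measurable.and (Measurable.exists fun i => hlt _ _ (by fun_prop) (by fun_prop)) ?_
    refine Measurable.and (Measurable.exists fun i => hlt _ _ (by fun_prop) (by fun_prop)) ?_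
    refine Measurable.and (Measurable.exists fun i => hlt _ _ (by fun_prop) (by fun_prop)) ?_
    exact Measurable.exists fun i => hlt _ _ (by fun_prop) (by fun_prop)

theorem Tr_Tr (σ σ' : Equiv.Perm (Fin 3)) (ε : Fin 3 → Bool) (G : Matrix (Fin 3) (Fin 3) ℝ)
    (N : Fr) : Tr σ' (fun _ => true) G (Tr σ ε (PM 1) N) =
      Tr (σ'.trans σ) (fun i => ε (σ' i)) G N := by
  funext i
  have h1 : Tr σ' (fun _ => true) G (Tr σ ε (PM 1) N) i =
    sg true • Matrix.vecMul ((Tr σ ε (PM 1) N) (σ' i)) G := rfl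
  have h2 : Tr (σ'.trans σ) (fun i => ε (σ' i)) G N i =
    sg (ε (σ' i)) • Matrix.vecMul (N (σ (σ' i))) G := rfl
  rw [h1, h2, Sat.Tr_row, Matrix.smul_vecMul]
  simp [sg]

theorem rho_Tr' (σ : Equiv.Perm (Fin 3)) (ε : Fin 3 → Bool) (k : Fin 8) (N : Fr) :
    rho (Tr σ ε (GS k) N) = rho N := by
  unfold rho
  rw [Low.dt_Tr σ ε (GS k) N (det_GS k)]

theorem main : S_GEOB → S_COMB → S_TI → S_CM → S_UP := by
  intro hG hC hTI hCM
  have dC : ∀ i, (VC i).det ≠ 0 := by
    intro i
    fin_cases i <;> simp [VC, Matrix.det_fin_three] <;> norm_num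
  have dS : ∀ i, (VS i).det ≠ 0 := by
    intro i
    fin_cases i <;> simp [VS, Matrix.det_fin_three] <;> norm_num
  obtain ⟨-, -, -, mC, -, -, homC, -⟩ := hCM VC dC
  obtain ⟨-, -, -, mS, -, -, homS, -⟩ := hCM VS dS
  have h0 : mob (withFace (n := 2) SQ) ≤ mob (sat SR) := by
    refine measure_mono fun c hc => ?_
    obtain ⟨N, h1, h2, h3⟩ := hG c hc
    exact ⟨N, h3, h1, h2⟩
  refine h0.trans ?_
  rw [Sat.mob_sat meas_SR Cn_SR]
  have h1 : I ((lns ⁻¹' sat SR).indicator rho) ≤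
      I (fun N => ∑ p : Equiv.Perm (Fin 3) × (Fin 3 → Bool) × Fin 8,
        (hc VC (Tr p.1 p.2.1 (GS p.2.2) N) + hc VS (Tr p.1 p.2.1 (GS p.2.2) N))) := by
    unfold I
    refine lintegral_mono fun N => ?_
    by_cases h : N ∈ lns ⁻¹' sat SR
    · rw [Set.indicator_of_mem h]
      by_cases hd : dt N = 0
      · rw [Inv.rho_zero hd]
        exact zero_le
      · obtain ⟨σ, ε, h2⟩ := (Sat.mem_sat Cn_SR hd).1 h
        obtain ⟨σ', k, h3⟩ := hC _ h2
        rw [Tr_Tr] at h3
        have h4 : rho N ≤ hc VC (Tr (σ'.trans σ) (fun i => ε (σ' i)) (GS k) N) +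
            hc VS (Tr (σ'.trans σ) (fun i => ε (σ' i)) (GS k) N) := by
          rcases h3 with h3 | h3
          · have : hc VC (Tr (σ'.trans σ) (fun i => ε (σ' i)) (GS k) N) = rho N := by
              unfold hc
              rw [Set.indicator_of_mem h3, rho_Tr']
            rw [this]
            exact le_self_add
          · have : hc VS (Tr (σ'.trans σ) (fun i => ε (σ' i)) (GS k) N) = rho N := by
              unfold hc
              rw [Set.indicator_of_mem h3, rho_Tr']
            rw [this]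
            exact le_add_self
        exact h4.trans (Finset.single_le_sum
          (f := fun p : Equiv.Perm (Fin 3) × (Fin 3 → Bool) × Fin 8 =>
            hc VC (Tr p.1 p.2.1 (GS p.2.2) N) + hc VS (Tr p.1 p.2.1 (GS p.2.2) N))
          (fun _ _ => zero_le) (Finset.mem_univ (σ'.trans σ, (fun i => ε (σ' i)), k)))
    · rw [Set.indicator_of_notMem h]
      exact zero_le
  refine h1.trans ?_
  have h2 : I (fun N => ∑ p : Equiv.Perm (Fin 3) × (Fin 3 → Bool) × Fin 8,
        (hc VC (Tr p.1 p.2.1 (GS p.2.2) N) + hc VS (Tr p.1 p.2.1 (GS p.2.2) N))) =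
      ∑ p : Equiv.Perm (Fin 3) × (Fin 3 → Bool) × Fin 8,
        (I (fun N => hc VC (Tr p.1 p.2.1 (GS p.2.2) N)) +
          I (fun N => hc VS (Tr p.1 p.2.1 (GS p.2.2) N))) := by
    unfold I
    rw [lintegral_finsetSum _ fun p _ => (mC.comp (Low.Tr_meas p.1 p.2.1 (GS p.2.2))).add
      (mS.comp (Low.Tr_meas p.1 p.2.1 (GS p.2.2)))]
    refine Finset.sum_congr rfl fun p _ => ?_
    exact lintegral_add_left (mC.comp (Low.Tr_meas p.1 p.2.1 (GS p.2.2))) _
  rw [h2]
  have h3 : ∀ p : Equiv.Perm (Fin 3) × (Fin 3 → Bool) × Fin 8,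
      I (fun N => hc VC (Tr p.1 p.2.1 (GS p.2.2) N)) +
        I (fun N => hc VS (Tr p.1 p.2.1 (GS p.2.2) N)) = I (hc VC) + I (hc VS) := fun p => by
    rw [hTI (hc VC) mC homC p.1 p.2.1 (GS p.2.2) (det_GS _),
      hTI (hc VS) mS homS p.1 p.2.1 (GS p.2.2) (det_GS _)]
  rw [Finset.sum_congr rfl fun p _ => h3 p, Finset.sum_const]
  have h4 : (Finset.univ : Finset (Equiv.Perm (Fin 3) × (Fin 3 → Bool) × Fin 8)).card = 384 := by
    rw [Finset.card_univ, Fintype.card_prod, Fintype.card_prod, Fintype.card_perm]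
    simp [Nat.factorial]
  rw [h4, nsmul_eq_mul]
  norm_num

end Pool.Agent.R69.KM.Up
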